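import Pool.Agent.P.MP_512a3e_al.Cases

/-! The finite check, run by the kernel. -/

set_option autoImplicit false
set_option maxRecDepth 100000

namespace Pool.Agent.P.MP_512a3e_al

theorem chk_true : chk = true := by decide +kernel

end Pool.Agent.P.MP_512a3e_al
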