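import Pool.Agent.P.MP_512a3e_al.Param
import Pool.Agent.P.MP_512a3e_al.Check

/-! The parameter sum equals the finite sum of terms found by the procedure. -/

set_option autoImplicit false

namespace Pool.Agent.P.MP_512a3e_al

open scoped ENNReal

noncomputable def FT.val (q : ℕ) (t : ℝ≥0∞) (T : FT) : ℝ≥0∞ :=
  ((q - 1 : ℕ) : ℝ≥0∞) ^ T.f1 * ((q - 2 : ℕ) : ℝ≥0∞) ^ T.f2 * ((q : ℝ≥0∞) ^ T.a0 * t ^ T.b0 *
    (T.rays.map (fun r => (1 - (q : ℝ≥0∞) ^ r.1 * t ^ r.2)⁻¹)).prod)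

open Classical in
noncomputable def Case.G (q t : ℝ≥0∞) (C : Case) (a b c d z w : ℕ) : ℝ≥0∞ :=
  if (∀ i ∈ C.m, (![a, b, c, d, z, w] : Fin 6 → ℕ) i = 0) ∧
      ∀ p ∈ C.cs, p.1.ev a b c d z w ≤ p.2.ev a b c d z w then
    q ^ C.A.ev a b c d z w * t ^ C.B.ev a b c d z w else 0

lemma tsum_six (F : (Fin 6 → ℕ) → ℝ≥0∞) :
    ∑' v, F v = ∑' a, ∑' b, ∑' c, ∑' d, ∑' z, ∑' w, F ![a, b, c, d, z, w] := by
  simp only [tsum_fin_succ]
  refine tsum_congr fun a => tsum_congr fun b => tsum_congr fun c => tsum_congr fun d =>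
    tsum_congr fun z => tsum_congr fun w => ?_
  rw [tsum_fintype, Fintype.sum_unique]
  rfl

lemma case_sum (q : ℕ) (t : ℝ≥0∞) (C : Case) (h : C.run.isSome = true) :
    (C.terms.map (FT.val q t)).sum = (1 - (q : ℝ≥0∞) ^ 2 * t)⁻¹ * (1 - (q : ℝ≥0∞) ^ 3 * t)⁻¹ *
      ∑' a, ∑' b, ∑' c, ∑' d, ((q - 1 : ℕ) : ℝ≥0∞) ^ C.f1 * ((q - 2 : ℕ) : ℝ≥0∞) ^ C.f2 *
        ∑' z, ∑' w, C.G q t a b c d z w := by
  classical
  obtain ⟨L, hL⟩ := Option.isSome_iff_exists.1 h
  have h1 := solve_sound (q : ℝ≥0∞) t _ _ _ _ _ _ _ hL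
  simp only [List.map_nil, List.sum_nil, zero_add, tsum_six] at h1
  have h2 : ∀ a b c d z w : ℕ, Itg (q : ℝ≥0∞) t C.m
      (C.cs.map (fun p => E.mkAdd p.2.toE (E.mkSc (-1) p.1.toE))) C.A.toE C.B.toE
      ![a, b, c, d, z, w] = C.G q t a b c d z w := by
    intro a b c d z w
    simp only [Itg, Case.G, NE.ev_toE, Int.toNat_natCast]
    refine if_congr (and_congr Iff.rfl ?_) rfl rfl
    simp only [Holds, List.mem_map, forall_exists_index, and_imp, forall_apply_eq_imp_iff₂,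
      E.ev_mkAdd, E.ev_mkSc, NE.ev_toE]
    refine forall_congr' fun p => forall_congr' fun _ => ?_
    change 0 ≤ ((p.2.ev a b c d z w : ℕ) : ℤ) + (-1) * ((p.1.ev a b c d z w : ℕ) : ℤ) ↔ _
    omega
  simp only [h2] at h1
  simp only [ENNReal.tsum_mul_left, ← h1, Case.terms, hL, Option.getD_some, List.map_map]
  rw [← List.sum_map_mul_left, ← List.sum_map_mul_left]
  congr 1
  refine List.map_congr_left fun T _ => ?_
  simp only [Function.comp, FT.val, Tm.val, List.map_cons, List.prod_cons, pow_one]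
  ring

lemma list_tsum {ι : Type*} (l : List ι) (f : ι → ℕ → ℝ≥0∞) :
    (l.map (fun i => ∑' a, f i a)).sum = ∑' a, (l.map (fun i => f i a)).sum := by
  induction l with
  | nil => simp
  | cons i l ih => simp only [List.map_cons, List.sum_cons, ih, ENNReal.tsum_add]

lemma single_tsum (P : Prop) [Decidable P] (x : ℝ≥0∞) :
    (if P then x else 0) = ∑' z : ℕ, if z = 0 ∧ P then x else 0 := by
  by_cases h : P
  · simp [h]
  · simp [h]

lemma xcases_sum (q : ℕ) (t : ℝ≥0∞) (f1 f2 : ℕ) (m : List (Fin 6)) (cs : List (NE × NE))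
    (ex η θ : NE) (a b c d : ℕ) (P : ℕ → Prop) [DecidablePred P] (e h k : ℕ → ℕ)
    (hP : ∀ z w, P z ↔ (∀ i ∈ m, (![a, b, c, d, z, w] : Fin 6 → ℕ) i = 0) ∧
      ∀ p ∈ cs, p.1.ev a b c d z w ≤ p.2.ev a b c d z w)
    (he : ∀ z w, ex.ev a b c d z w = e z) (hh : ∀ z w, η.ev a b c d z w = h z)
    (hk : ∀ z w, θ.ev a b c d z w = k z) :
    ((xcases f1 f2 m cs ex η θ).map (fun C => ((q - 1 : ℕ) : ℝ≥0∞) ^ C.f1 *
        ((q - 2 : ℕ) : ℝ≥0∞) ^ C.f2 * ∑' z, ∑' w, C.G q t a b c d z w)).sum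
      = ∑' z, if P z then ((q - 1 : ℕ) : ℝ≥0∞) ^ f1 * ((q - 2 : ℕ) : ℝ≥0∞) ^ f2 *
          (q : ℝ≥0∞) ^ e z * Xsum q a b c d (h z) (k z) (Psi q t a b c d (h z)) else 0 := by
  simp only [xcases, List.map_cons, List.map_nil, List.sum_cons, List.sum_nil, add_zero,
    ← ENNReal.tsum_mul_left, ← ENNReal.tsum_add]
  refine tsum_congr fun z => ?_
  have hv : ∀ w, (![a, b, c, d, z, w] : Fin 6 → ℕ) 5 = w := fun w => rfl
  by_cases hz : P z
  · rw [if_pos hz, Xsum, single_tsum, single_tsum (d ≤ b + k z ∧ c ≤ a + h z ∧ d ≤ a + 2 * h z - c)]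
    simp only [← ENNReal.tsum_add, ← ENNReal.tsum_mul_left]
    refine tsum_congr fun w => ?_
    obtain ⟨h1, h2⟩ := (hP z w).1 hz
    simp only [Case.G, mkCase, List.forall_mem_cons, List.forall_mem_append, eq_true h1, eq_true h2,
      hv, NE.ev, NE.succ, NE.lam, he, hh, hk, List.not_mem_nil, false_imp_iff, implies_true,
      and_true, true_and, Nat.succ_le_iff, Psi, kS, sS, bS, eS, mul_add,
      add_assoc]
    congr 1
    · split_ifs <;> ring
    congr 1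
    · split_ifs <;> ring
    · split_ifs <;> ring
  · rw [if_neg hz]
    refine ENNReal.tsum_eq_zero.2 fun w => ?_
    have h1 := mt (hP z w).2 hz
    have h2 : ∀ (m' : List (Fin 6)) (l : List (NE × NE)) (f1 f2 : ℕ) (ex ξ η : NE),
        (∀ i ∈ m, i ∈ m') → (mkCase f1 f2 m' (cs ++ l) ex ξ η).G q t a b c d z w = 0 := by
      intro m' l f1 f2 ex ξ η hm
      refine if_neg fun h3 => h1 ⟨fun i hi => h3.1 i (hm i hi), fun p hp => h3.2 p ?_⟩
      exact List.mem_append_left _ hp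
    rw [h2 _ _ _ _ _ _ _ (fun i hi => List.mem_cons_of_mem _ hi), h2 _ _ _ _ _ _ _ (fun i hi => hi),
      h2 _ _ _ _ _ _ _ (fun i hi => List.mem_cons_of_mem _ hi)]
    simp

lemma cases_sum (q : ℕ) (t : ℝ≥0∞) (a b c d : ℕ) :
    (cases.map (fun C => ((q - 1 : ℕ) : ℝ≥0∞) ^ C.f1 *
        ((q - 2 : ℕ) : ℝ≥0∞) ^ C.f2 * ∑' z, ∑' w, C.G q t a b c d z w)).sum
      = Ysum q c d (fun η θ => Xsum q a b c d η θ (Psi q t a b c d η)) := by
  have hv : ∀ z w, (![a, b, c, d, z, w] : Fin 6 → ℕ) 4 = z := fun z w => rfl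
  simp only [cases, List.map_append, List.sum_append, Ysum]
  rw [xcases_sum q t 1 0 _ _ _ _ _ a b c d (fun z => z < c ∧ z < d) (fun z => d - z - 1)
      (fun z => z) (fun z => z) (fun z w => by simp [NE.ev, NE.succ])
      (fun _ _ => rfl) (fun _ _ => rfl) (fun _ _ => rfl),
    xcases_sum q t 0 0 _ _ _ _ _ a b c d (fun z => z = 0 ∧ d ≤ c) (fun _ => 0)
      (fun _ => d) (fun _ => d) (fun z w => by simp [NE.ev, hv])
      (fun _ _ => rfl) (fun _ _ => rfl) (fun _ _ => rfl),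
    xcases_sum q t 1 0 _ _ _ _ _ a b c d (fun z => c < z ∧ z < d) (fun z => d - z - 1)
      (fun z => z) (fun _ => c) (fun z w => by simp [NE.ev, NE.succ])
      (fun _ _ => rfl) (fun _ _ => rfl) (fun _ _ => rfl),
    xcases_sum q t 0 0 _ _ _ _ _ a b c d (fun z => z = 0 ∧ c < d) (fun _ => 0)
      (fun _ => d) (fun _ => c) (fun z w => by simp [NE.ev, NE.succ, hv])
      (fun _ _ => rfl) (fun _ _ => rfl) (fun _ _ => rfl),
    xcases_sum q t 0 1 _ _ _ _ _ a b c d (fun z => z = 0 ∧ c < d) (fun _ => d - c - 1)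
      (fun _ => c) (fun _ => c) (fun z w => by simp [NE.ev, NE.succ, hv])
      (fun _ _ => rfl) (fun _ _ => rfl) (fun _ _ => rfl),
    xcases_sum q t 1 0 _ _ _ _ _ a b c d (fun z => c < z ∧ z < d) (fun z => d - z - 1)
      (fun _ => c) (fun z => z) (fun z w => by simp [NE.ev, NE.succ])
      (fun _ _ => rfl) (fun _ _ => rfl) (fun _ _ => rfl),
    xcases_sum q t 0 0 _ _ _ _ _ a b c d (fun z => z = 0 ∧ c < d) (fun _ => 0)
      (fun _ => c) (fun _ => d) (fun z w => by simp [NE.ev, NE.succ, hv])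
      (fun _ _ => rfl) (fun _ _ => rfl) (fun _ _ => rfl)]
  simp only [← single_tsum, pow_zero, pow_one, mul_one, one_mul]

lemma chk_parts : (∀ C ∈ cases, C.run.isSome = true) ∧ (∀ T ∈ allTerms, T.ok = true) ∧
    (allTerms.map (fun T => T.jet2.1)).sum = 0 ∧ (allTerms.map (fun T => T.jet2.2)).sum = 0 := by
  have h := chk_true
  simp only [chk, Bool.and_eq_true, List.all_eq_true, decide_eq_true_eq] at h
  exact ⟨h.1.1.1, h.1.1.2, h.1.2, h.2⟩

lemma sum_flatMap {ι κ : Type*} (l : List ι) (f : ι → List κ) (g : κ → ℝ≥0∞) :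
    ((l.flatMap f).map g).sum = (l.map (fun i => ((f i).map g).sum)).sum := by
  induction l with
  | nil => simp
  | cons i l ih => simp only [List.flatMap_cons, List.map_append, List.sum_append, ih,
      List.map_cons, List.sum_cons]

open Classical in
theorem zeta_terms {O : Type*} [CommRing O] [IsDomain O] [IsDiscreteValuationRing O]
    {π : O} {q : ℕ} (hπ : Irreducible π) (hq : idx (pw π 1) = q) (hq2 : 2 ≤ q) (t : ℝ≥0∞)
    (wt : ℕ → ℝ≥0∞) (hwt : ∀ n, wt (q ^ n) = t ^ n) :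
    LS (fun U : Submodule O (O × O × O × O × O × O) => if IsSub U then wt (idx U) else 0)
      = (allTerms.map (FT.val q t)).sum := by
  rw [zeta_param hπ hq hq2 t wt hwt, allTerms, sum_flatMap,
    List.map_congr_left (fun C hC => case_sum q t C (chk_parts.1 C hC)), List.sum_map_mul_left]
  simp only [list_tsum, cases_sum]

end Pool.Agent.P.MP_512a3e_al
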