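import Pool.Agent.P.MP_512a3e_al.Engine

/-! The twenty-one cases of the parameter sum, and the finite check. -/

set_option autoImplicit false

namespace Pool.Agent.P.MP_512a3e_al

open scoped ENNReal

/-- expressions over the natural numbers, with truncated subtraction -/
inductive NE where
  | va | vb | vc | vd | vz | vw
  | cst (n : ℕ)
  | add (x y : NE)
  | sub (x y : NE)
  | max (x y : NE)
  | min (x y : NE)
  | mul (c : ℕ) (x : NE)
  | eS (x y : NE)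
  | kS (x y : NE)

namespace NE

def ev (a b c d z w : ℕ) : NE → ℕ
  | va => a
  | vb => b
  | vc => c
  | vd => d
  | vz => z
  | vw => w
  | cst n => n
  | add x y => x.ev a b c d z w + y.ev a b c d z w
  | sub x y => x.ev a b c d z w - y.ev a b c d z w
  | max x y => Max.max (x.ev a b c d z w) (y.ev a b c d z w)
  | min x y => Min.min (x.ev a b c d z w) (y.ev a b c d z w)
  | mul k x => k * x.ev a b c d z w
  | eS x y => c - Max.max (Max.max (Min.min (x.ev a b c d z w) (y.ev a b c d z w))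
      (Min.min (y.ev a b c d z w + b - d) (x.ev a b c d z w + c - a)))
      (x.ev a b c d z w + y.ev a b c d z w - d)
  | kS x y => c + d - (Max.max (d - b) (Min.min d ((a - c) + y.ev a b c d z w) - x.ev a b c d z w)
      + (c + d - (a + y.ev a b c d z w)))

def toE : NE → E
  | va => E.aff ⟨1, 0, 0, 0, 0, 0, 0⟩
  | vb => E.aff ⟨0, 1, 0, 0, 0, 0, 0⟩
  | vc => E.aff ⟨0, 0, 1, 0, 0, 0, 0⟩
  | vd => E.aff ⟨0, 0, 0, 1, 0, 0, 0⟩
  | vz => E.aff ⟨0, 0, 0, 0, 1, 0, 0⟩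
  | vw => E.aff ⟨0, 0, 0, 0, 0, 1, 0⟩
  | cst n => E.aff ⟨0, 0, 0, 0, 0, 0, n⟩
  | add x y => E.mkAdd x.toE y.toE
  | sub x y => E.mkMax (E.aff ⟨0, 0, 0, 0, 0, 0, 0⟩) (E.mkAdd x.toE (E.mkSc (-1) y.toE))
  | max x y => E.mkMax x.toE y.toE
  | min x y => E.mkMin x.toE y.toE
  | mul k x => E.mkSc k x.toE
  | eS x y => E.mkMax (E.aff ⟨0, 0, 0, 0, 0, 0, 0⟩) (E.mkAdd (E.aff ⟨0, 0, 1, 0, 0, 0, 0⟩)
      (E.mkSc (-1) (E.mkMax (E.mkMax (E.mkMin x.toE y.toE)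
        (E.mkMin (E.mkAdd y.toE (E.aff ⟨0, 1, 0, -1, 0, 0, 0⟩))
          (E.mkAdd x.toE (E.aff ⟨-1, 0, 1, 0, 0, 0, 0⟩))))
        (E.mkAdd (E.mkAdd x.toE y.toE) (E.aff ⟨0, 0, 0, -1, 0, 0, 0⟩)))))
  | kS x y => E.mkMax (E.aff ⟨0, 0, 0, 0, 0, 0, 0⟩) (E.mkAdd (E.aff ⟨0, 0, 1, 1, 0, 0, 0⟩)
      (E.mkSc (-1) (E.mkAdd
        (E.mkMax (E.mkMax (E.aff ⟨0, 0, 0, 0, 0, 0, 0⟩) (E.aff ⟨0, -1, 0, 1, 0, 0, 0⟩))
          (E.mkAdd (E.mkMin (E.aff ⟨0, 0, 0, 1, 0, 0, 0⟩) (E.mkAdd (E.mkMax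
            (E.aff ⟨1, 0, -1, 0, 0, 0, 0⟩) (E.aff ⟨0, 0, 0, 0, 0, 0, 0⟩)) y.toE))
            (E.mkSc (-1) x.toE)))
        (E.mkMax (E.aff ⟨0, 0, 0, 0, 0, 0, 0⟩)
          (E.mkAdd (E.aff ⟨-1, 0, 1, 1, 0, 0, 0⟩) (E.mkSc (-1) y.toE))))))

lemma ev_toE (e : NE) (v : Fin 6 → ℕ) :
    e.toE.ev v = (e.ev (v 0) (v 1) (v 2) (v 3) (v 4) (v 5) : ℕ) := by
  induction e with
  | add x y hx hy => simp only [toE, E.ev_mkAdd, hx, hy, ev]; omega
  | sub x y hx hy =>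
    simp only [toE, E.ev_mkAdd, E.ev_mkMax, E.ev_mkSc, hx, hy, ev, E.ev, Aff.ev]; omega
  | max x y hx hy => simp only [toE, E.ev_mkMax, hx, hy, ev]; omega
  | min x y hx hy => simp only [toE, E.ev_mkMin, hx, hy, ev]; omega
  | mul k x hx => simp only [toE, E.ev_mkSc, hx, ev]; push_cast; rfl
  | eS x y hx hy =>
    simp only [toE, E.ev_mkAdd, E.ev_mkMax, E.ev_mkMin, E.ev_mkSc, hx, hy, ev, E.ev, Aff.ev]; omega
  | kS x y hx hy =>
    simp only [toE, E.ev_mkAdd, E.ev_mkMax, E.ev_mkMin, E.ev_mkSc, hx, hy, ev, E.ev, Aff.ev]; omega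
  | _ => simp [toE, E.ev, Aff.ev, ev]

def succ (x : NE) : NE := add x (cst 1)
def lam (η : NE) : NE := sub (add va (mul 2 η)) vc

end NE

/-- one case: `(q - 1) ^ f1 * (q - 2) ^ f2 * ∑ q ^ A * t ^ B` over the points with `x ≤ y` for all
pairs in `cs`; the variables in `m` are zero -/
structure Case where
  f1 : ℕ
  f2 : ℕ
  m : List (Fin 6)
  cs : List (NE × NE)
  A : NE
  B : NE

open _root_.Pool.Agent.P.MP_512a3e_al.NE in
def mkCase (f1 f2 : ℕ) (m : List (Fin 6)) (cs : List (NE × NE)) (ex ξ η : NE) : Case :=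
  ⟨f1, f2, m, cs, add ex (mul 4 (kS ξ η)), add (add (add (add va vb) vc) vd) (eS ξ η)⟩

open _root_.Pool.Agent.P.MP_512a3e_al.NE in
def xcases (f1 f2 : ℕ) (m : List (Fin 6)) (cs : List (NE × NE)) (ex η θ : NE) : List Case :=
  [mkCase f1 f2 (5 :: m)
      (cs ++ [(vd, add vb θ), (vc, add va η), (succ (lam η), vd), (θ, lam η)])
      (add ex (sub (add vb θ) vd)) (sub (lam η) θ) η,
    mkCase (f1 + 1) f2 m
      (cs ++ [(vd, add vb θ), (vc, add va η), (vd, lam η), (vd, add vw θ), (succ vw, vb)])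
      (add ex (sub (sub vb vw) (cst 1))) vw η,
    mkCase f1 f2 (5 :: m) (cs ++ [(vd, add vb θ), (vc, add va η), (vd, lam η)]) ex vb η]

open _root_.Pool.Agent.P.MP_512a3e_al.NE in
def cases : List Case :=
  xcases 1 0 [] [(succ vz, vc), (succ vz, vd)] (sub (sub vd vz) (cst 1)) vz vz ++
  xcases 0 0 [4] [(vd, vc)] (cst 0) vd vd ++
  xcases 1 0 [] [(succ vc, vz), (succ vz, vd)] (sub (sub vd vz) (cst 1)) vz vc ++
  xcases 0 0 [4] [(succ vc, vd)] (cst 0) vd vc ++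
  xcases 0 1 [4] [(succ vc, vd)] (sub (sub vd vc) (cst 1)) vc vc ++
  xcases 1 0 [] [(succ vc, vz), (succ vz, vd)] (sub (sub vd vz) (cst 1)) vc vz ++
  xcases 0 0 [4] [(succ vc, vd)] (cst 0) vc vd

def Case.run (c : Case) : Option (List Tm) :=
  solve 100 c.m (c.cs.map (fun p => E.mkAdd p.2.toE (E.mkSc (-1) p.1.toE))) c.A.toE c.B.toE []

/-- a term of the final formula -/
structure FT where
  f1 : ℕ
  f2 : ℕ
  a0 : ℕ
  b0 : ℕ
  rays : List (ℕ × ℕ)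

def Case.terms (c : Case) : List FT :=
  (c.run.getD []).map (fun T => ⟨c.f1, c.f2, T.a0, T.b0, (2, 1) :: (3, 1) :: T.rays⟩)

def FT.ok (T : FT) : Bool :=
  T.rays.all (fun r => decide (1 ≤ r.2) && decide (r.1 ≤ 3 * r.2)) &&
    decide (T.rays.length ≤ 6 + T.f1) && decide ((T.rays.filter (fun r => r.1 = 0)).length ≤ 2)

/-- first two Taylor coefficients of `X ^ k / ∏ (b X - a)`, `k` the number of `a = 0` -/
def jet : List (ℕ × ℕ) → ℚ × ℚ
  | [] => (1, 0)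
  | r :: l =>
    if r.1 = 0 then ((jet l).1 / r.2, (jet l).2 / r.2)
    else (-(jet l).1 / r.1, -(jet l).2 / r.1 - (jet l).1 * r.2 / (r.1 * r.1))

/-- first two Taylor coefficients of `X ^ 2` times the limit of the term -/
def FT.jet2 (T : FT) : ℚ × ℚ :=
  if T.rays.length = 6 + T.f1 then
    if (T.rays.filter (fun r => r.1 = 0)).length = 2 then
      ((-1) ^ T.f2 * (jet T.rays).1, (-1) ^ T.f2 * (jet T.rays).2)
    else if (T.rays.filter (fun r => r.1 = 0)).length = 1 then (0, (-1) ^ T.f2 * (jet T.rays).1)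
    else (0, 0)
  else (0, 0)

def allTerms : List FT := cases.flatMap Case.terms

def chk : Bool :=
  cases.all (fun c => c.run.isSome) && allTerms.all FT.ok &&
    decide ((allTerms.map (fun T => T.jet2.1)).sum = 0) &&
    decide ((allTerms.map (fun T => T.jet2.2)).sum = 0)

end Pool.Agent.P.MP_512a3e_al
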