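import Pool.Agent.P.MP_512a3e_al.Val

/-! Reduction of the subalgebra count to a sum over pairs of rank two lattices. -/

set_option autoImplicit false
set_option linter.unusedSectionVars false

namespace Pool.Agent.P.MP_512a3e_al

open scoped ENNReal
open Classical

variable {O : Type*} [CommRing O] [IsDomain O] [IsDiscreteValuationRing O]

/-- the action of `(s, t)` on `(c, a, b)` -/
def act (s t : O) : (O × O × O) →ₗ[O] (O × O) where
  toFun z := (s * z.2.2 + t * z.1, t * (z.2.1 + z.2.2))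
  map_add' z w := by ext <;> simp <;> ring
  map_smul' c z := by ext <;> simp <;> ring

lemma act_apply (s t : O) (z : O × O × O) :
    act s t z = (s * z.2.2 + t * z.1, t * (z.2.1 + z.2.2)) := rfl

lemma act_comb (k l s t s' t' : O) (z : O × O × O) :
    act (k * s + l * s') (k * t + l * t') z = k • act s t z + l • act s' t' z := by
  ext <;> simp [act_apply] <;> ring

/-- closed under the product -/
def IsSub (U : Submodule O (O × O × O × O × O × O)) : Prop :=
  ∀ x ∈ U, ∀ y ∈ U, ((0 : O), (0 : O), (0 : O), (0 : O), act x.1 x.2.1 y.2.2.2) ∈ U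

/-- vectors mapped into `M` by both generators -/
def NN (π : O) (α β : ℕ) (x : O) (M : Submodule O (O × O)) : Submodule O (O × O × O) :=
  M.comap (act (π ^ α) x) ⊓ M.comap (act 0 (π ^ β))

lemma mem_NN {π : O} {α β : ℕ} {x : O} {M : Submodule O (O × O)} {z : O × O × O} :
    z ∈ NN π α β x M ↔ act (π ^ α) x z ∈ M ∧ act 0 (π ^ β) z ∈ M := Iff.rfl

variable {π : O} {q : ℕ}

lemma isSub_iff (hπ : π ≠ 0) (α β α₃ α₄ : ℕ) (x u₁ u₂ : O) (z₁ z₂ z₃ : O × O × O) (r₄ : O × O)
    (M : Submodule O (O × O)) :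
    IsSub (ext π α (x, u₁, z₁) (ext π β (u₂, z₂) (ext π α₃ z₃ (ext π α₄ r₄ M)))) ↔
      z₁ ∈ NN π α β x M ∧ z₂ ∈ NN π α β x M ∧ z₃ ∈ NN π α β x M ∧
        ext π α₄ r₄ M ≤ NN π α β x M := by
  constructor
  · intro h
    have key : ∀ y ∈ ext π α (x, u₁, z₁) (ext π β (u₂, z₂) (ext π α₃ z₃ (ext π α₄ r₄ M))),
        y.2.2.2 ∈ NN π α β x M := by
      intro y hy
      have h1 := h _ gen_mem_ext y hy
      have h2 := h _ (inr_mem_ext_of gen_mem_ext) y hy
      rw [inr_mem_ext hπ, inr_mem_ext hπ, inr_mem_ext hπ, inr_mem_ext hπ] at h1 h2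
      exact ⟨h1, h2⟩
    exact ⟨key _ gen_mem_ext, key _ (inr_mem_ext_of gen_mem_ext),
      key _ (inr_mem_ext_of (inr_mem_ext_of gen_mem_ext)),
      fun w hw => key _ (inr_mem_ext_of (inr_mem_ext_of (inr_mem_ext_of hw)))⟩
  · rintro ⟨h1, h2, h3, h4⟩ a ⟨k, hk, l, hl, -⟩ b ⟨k', -, l', -, m', -, hb⟩
    apply inr_mem_ext_of; apply inr_mem_ext_of; apply inr_mem_ext_of; apply inr_mem_ext_of
    have hb' : b.2.2.2 ∈ NN π α β x M := by
      have := (NN π α β x M).add_mem ((NN π α β x M).add_mem ((NN π α β x M).add_mem (h4 hb)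
        ((NN π α β x M).smul_mem m' h3)) ((NN π α β x M).smul_mem l' h2))
        ((NN π α β x M).smul_mem k' h1)
      convert this using 1
      simp only [Prod.snd_sub, Prod.smul_snd]
      abel
    have e1 : a.1 = k * π ^ α + l * 0 := by simp [hk]
    have e2 : a.2.1 = k * x + l * π ^ β := by
      simp only [Prod.fst_sub, Prod.smul_fst, smul_eq_mul] at hl
      rw [← hl]; ring
    rw [e1, e2, act_comb]
    exact M.add_mem (M.smul_mem _ hb'.1) (M.smul_mem _ hb'.2)

section general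
variable {V : Type*} [AddCommGroup V] [Module O V]

lemma inv_ext (α : ℕ) (L : Submodule O V) (G : Submodule O (O × V) → ℝ≥0∞) :
    Inv L (fun r => G (ext π α r L)) := fun _ _ h => by
  simp only [ext_congr h]

lemma Inv.slice {α : ℕ} {r : V} {M : Submodule O V} {h : O × V → ℝ≥0∞}
    (hh : Inv (ext π α r M) h) (a : O) : Inv M (fun v => h (a, v)) := fun v w hvw =>
  hh _ _ (by simpa using inr_mem_ext_of hvw)

/-- count of vectors whose tail lies in `N` -/
lemma S_ext_snd (hπ : Irreducible π) (hq : idx (pw π 1) = q) (hq0 : q ≠ 0) {α : ℕ} {z : V}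
    {L N : Submodule O V} (hL : idx L ≠ 0) (hle : L ≤ N) (hz : z ∈ N) :
    S (ext π α z L) (fun r => if r.2 ∈ N then 1 else 0) = (q : ℝ≥0∞) ^ α * ridx L N := by
  have hr : ridx L N ≠ 0 := by
    intro h; apply hL; rw [← ridx_mul_idx hle, h, zero_mul]
  rw [S_ext hπ.ne_zero]
  · simp only [S_mem hle hr]
    rw [S_const (by rw [idx_pw hπ.ne_zero hq]; positivity), idx_pw hπ.ne_zero hq]
    simp
  · rintro v w ⟨k, -, hk⟩
    have h1 : v.2 - w.2 ∈ N := by
      have := N.add_mem (hle hk) (N.smul_mem k hz)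
      simpa using this
    have : v.2 ∈ N ↔ w.2 ∈ N :=
      ⟨fun h => by simpa using N.sub_mem h h1, fun h => by simpa using N.add_mem h h1⟩
    simp only [this]

lemma S_le_ext (hπ : Irreducible π) (hq : idx (pw π 1) = q) (hq0 : q ≠ 0) {α e : ℕ} {r₀ : V}
    {M N₁ : Submodule O V} (hM : idx M ≠ 0) (φ : ℕ → ℝ≥0∞) :
    S M (fun r => if ext π α r M ≤ ext π e r₀ N₁ then φ (ridx (ext π α r M) (ext π e r₀ N₁)) else 0)
      = if M ≤ N₁ then (if e ≤ α then ridx M N₁ * φ (q ^ (α - e) * ridx M N₁) else 0) else 0 := by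
  by_cases hle : M ≤ N₁
  · rw [if_pos hle]
    have hN : idx N₁ ≠ 0 := by
      intro h; apply hM; rw [← ridx_mul_idx hle, h, mul_zero]
    have hr : ridx M N₁ ≠ 0 := by
      intro h; apply hM; rw [← ridx_mul_idx hle, h, zero_mul]
    by_cases he : e ≤ α
    · rw [if_pos he, ← S_coset hle hr ((π ^ (α - e)) • r₀), ← S_mul_right]
      apply S_congr
      intro r
      have hiff : ext π α r M ≤ ext π e r₀ N₁ ↔ r - (π ^ (α - e)) • r₀ ∈ N₁ := by
        rw [ext_le_iff]
        constructor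
        · rintro ⟨⟨k, hk, hk'⟩, -⟩
          have : k = π ^ (α - e) := by
            apply mul_right_cancel₀ (pow_ne_zero e hπ.ne_zero)
            rw [← pow_add, show α - e + e = α by omega]
            exact hk.symm
          rwa [this] at hk'
        · intro h
          refine ⟨⟨π ^ (α - e), ?_, h⟩, fun v hv => inr_mem_ext_of (hle hv)⟩
          rw [← pow_add, show α - e + e = α by omega]
      by_cases h : ext π α r M ≤ ext π e r₀ N₁
      · rw [if_pos h, if_pos (hiff.1 h), one_mul]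
        congr 1
        have h1 := ridx_mul_idx h
        rw [idx_ext hπ.ne_zero hq, idx_ext hπ.ne_zero hq, ← ridx_mul_idx hle] at h1
        apply mul_right_cancel₀ (mul_ne_zero (pow_ne_zero e hq0) hN)
        rw [h1, show α = (α - e) + e by omega, pow_add]
        simp only [Nat.add_sub_cancel]
        ring
      · rw [if_neg h, if_neg (fun h' => h (hiff.2 h')), zero_mul]
    · rw [if_neg he]
      refine Eq.trans (S_congr fun r => if_neg ?_) (S_zero M)
      intro h
      obtain ⟨k, hk, -⟩ := h gen_mem_ext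
      have : π ^ e ∣ π ^ α := ⟨k, by rw [mul_comm]; exact hk⟩
      rw [pow_dvd_pow_iff hπ.ne_zero hπ.not_isUnit] at this
      exact he this
  · rw [if_neg hle]
    refine Eq.trans (S_congr fun r => if_neg ?_) (S_zero M)
    intro h
    apply hle
    intro v hv
    exact (inr_mem_ext hπ.ne_zero).1 (h (inr_mem_ext_of hv))

end general

lemma inner_sum (hπ : Irreducible π) (hq : idx (pw π 1) = q) (hq0 : q ≠ 0) (α β α₃ α₄ : ℕ)
    (M : Submodule O (O × O)) (hM : idx M ≠ 0) (r₄ : O × O) :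
    S (ext π α₄ r₄ M) (fun z₃ => S (ext π α₃ z₃ (ext π α₄ r₄ M)) (fun r₂ =>
      S (ext π β r₂ (ext π α₃ z₃ (ext π α₄ r₄ M))) (fun r₁ =>
        if IsSub (ext π α r₁ (ext π β r₂ (ext π α₃ z₃ (ext π α₄ r₄ M)))) then 1 else 0)))
    = S (pw π β) (fun x => if ext π α₄ r₄ M ≤ NN π α β x M then
        (q : ℝ≥0∞) ^ (2 * α₃) * (ridx (ext π α₄ r₄ M) (NN π α β x M) : ℝ≥0∞) ^ 3 else 0) := by
  set U₄ := ext π α₄ r₄ M with hU₄
  have hU : idx U₄ ≠ 0 := by
    rw [hU₄, idx_ext hπ.ne_zero hq]; exact mul_ne_zero (pow_ne_zero _ hq0) hM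
  have step1 : ∀ z₃ r₂, S (ext π β r₂ (ext π α₃ z₃ U₄)) (fun r₁ =>
        if IsSub (ext π α r₁ (ext π β r₂ (ext π α₃ z₃ U₄))) then 1 else 0)
      = S (pw π β) (fun x => (if r₂.2 ∈ NN π α β x M then 1 else 0) *
          (if z₃ ∈ NN π α β x M ∧ U₄ ≤ NN π α β x M then
            (q : ℝ≥0∞) ^ α₃ * ridx U₄ (NN π α β x M) else 0)) := by
    intro z₃ r₂
    rw [S_ext hπ.ne_zero _ _ _ (inv_ext α _ (fun U => if IsSub U then 1 else 0))]
    apply S_congr
    intro x
    obtain ⟨u₂, z₂⟩ := r₂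
    by_cases h : z₂ ∈ NN π α β x M ∧ z₃ ∈ NN π α β x M ∧ U₄ ≤ NN π α β x M
    · rw [if_pos h.1, if_pos h.2, one_mul, ← S_ext_snd hπ hq hq0 hU h.2.2 h.2.1]
      apply S_congr
      rintro ⟨u₁, z₁⟩
      simp only [hU₄, isSub_iff hπ.ne_zero]
      rw [hU₄] at h
      simp only [h, and_true]
    · have : ((if z₂ ∈ NN π α β x M then 1 else 0) *
          (if z₃ ∈ NN π α β x M ∧ U₄ ≤ NN π α β x M then
            (q : ℝ≥0∞) ^ α₃ * ridx U₄ (NN π α β x M) else 0)) = 0 := by
        by_cases h1 : z₂ ∈ NN π α β x M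
        · rw [if_neg (c := z₃ ∈ NN π α β x M ∧ U₄ ≤ NN π α β x M) (fun h2 => h ⟨h1, h2⟩), mul_zero]
        · rw [if_neg h1, zero_mul]
      rw [this]
      refine Eq.trans (S_congr ?_) (S_zero _)
      rintro ⟨u₁, z₁⟩
      rw [if_neg]
      simp only [hU₄, isSub_iff hπ.ne_zero]
      rw [hU₄] at h
      exact fun h' => h h'.2
  simp only [step1]
  have step2 : ∀ z₃, S (ext π α₃ z₃ U₄) (fun r₂ => S (pw π β) (fun x =>
        (if r₂.2 ∈ NN π α β x M then 1 else 0) *
          (if z₃ ∈ NN π α β x M ∧ U₄ ≤ NN π α β x M then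
            (q : ℝ≥0∞) ^ α₃ * ridx U₄ (NN π α β x M) else 0)))
      = S (pw π β) (fun x => (if z₃ ∈ NN π α β x M then 1 else 0) *
          (if U₄ ≤ NN π α β x M then
            ((q : ℝ≥0∞) ^ α₃ * ridx U₄ (NN π α β x M)) ^ 2 else 0)) := by
    intro z₃
    rw [S_comm]
    apply S_congr
    intro x
    rw [S_mul_right]
    by_cases h : z₃ ∈ NN π α β x M ∧ U₄ ≤ NN π α β x M
    · rw [if_pos h, if_pos h.1, if_pos h.2, S_ext_snd hπ hq hq0 hU h.2 h.1]; ring
    · rw [if_neg h, mul_zero]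
      by_cases h1 : z₃ ∈ NN π α β x M
      · rw [if_neg (c := U₄ ≤ NN π α β x M) (fun h2 => h ⟨h1, h2⟩), mul_zero]
      · rw [if_neg h1, zero_mul]
  simp only [step2]
  rw [S_comm]
  apply S_congr
  intro x
  rw [S_mul_right]
  by_cases h : U₄ ≤ NN π α β x M
  · have hr : ridx U₄ (NN π α β x M) ≠ 0 := by
      intro h0; apply hU; rw [← ridx_mul_idx h, h0, zero_mul]
    rw [if_pos h, if_pos h, S_mem h hr]; ring
  · rw [if_neg h, if_neg h, mul_zero]

end Pool.Agent.P.MP_512a3e_al
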