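import Mathlib

/-! Definitions for the topological subalgebra zeta function over the ground field `ℚ`. -/

set_option autoImplicit false

namespace Pool.Agent.P.MP_512a3e_al

/-- The bilinear product on `O ^ d` with integer structure constants `c`:
`e i * e j = ∑ k, c i j k • e k`. -/
def algMul {d : ℕ} (c : Fin d → Fin d → Fin d → ℤ) (O : Type) [CommRing O] (x y : Fin d → O) :
    Fin d → O :=
  fun k => ∑ i, ∑ j, (c i j k : O) * x i * y j

/-- The `O`-submodules of `O ^ d` of finite index that are closed under the product. -/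
def Subalg {d : ℕ} (c : Fin d → Fin d → Fin d → ℤ) (O : Type) [CommRing O] : Type :=
  {U : Submodule O (Fin d → O) //
    U.toAddSubgroup.FiniteIndex ∧ ∀ x ∈ U, ∀ y ∈ U, algMul c O x y ∈ U}

/-- `R` is the subalgebra zeta function over `O` as a rational function of `q ^ (-s)`: for all
large real `s` the series `∑ U, |O ^ d : U| ^ (-s)` converges to `R (q ^ (-s))`. -/
def IsLocalZeta {d : ℕ} (c : Fin d → Fin d → Fin d → ℤ) (O : Type) [CommRing O] (q : ℕ)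
    (R : RatFunc ℚ) : Prop :=
  ∃ s₀ : ℝ, ∀ s : ℝ, s₀ < s →
    HasSum (fun U : Subalg c O => (U.1.toAddSubgroup.index : ℝ) ^ (-s))
      (RatFunc.eval (algebraMap ℚ ℝ) ((q : ℝ) ^ (-s)) R)

/-- `v` is the value at the integer `s` of `Z_K = (1 - 1 / q) ^ d * ζ`, where `K` is the unramified
extension of degree `n` of `ℚ_p`, with valuation ring the Witt vectors of the field with
`q = p ^ n` elements. -/
def IsLocalValue {d : ℕ} (c : Fin d → Fin d → Fin d → ℤ) (p : ℕ) [Fact p.Prime] (n : ℕ) (s : ℤ)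
    (v : ℚ) : Prop :=
  ∃ R : RatFunc ℚ, IsLocalZeta c (WittVector p (GaloisField p n)) (p ^ n) R ∧
    R.denom.eval (((p : ℚ) ^ n) ^ (-s)) ≠ 0 ∧
    v = (1 - ((p : ℚ) ^ n)⁻¹) ^ d * RatFunc.eval (RingHom.id ℚ) (((p : ℚ) ^ n) ^ (-s)) R

/-- The defining property of the topological subalgebra zeta function, for `k = ℚ`. -/
def IsTopZeta {d : ℕ} (c : Fin d → Fin d → Fin d → ℤ) (Z : RatFunc ℚ) : Prop :=
  ∃ H : Finset ℤ, ∀ (l : ℕ) [Fact l.Prime], ∃ B : Finset ℕ, ∀ (p : ℕ) [Fact p.Prime], p ∉ B →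
    ∃ D : ℕ, 1 ≤ D ∧ ∀ s : ℤ, s ∉ H → Z.denom.eval (s : ℚ) ≠ 0 ∧
      ∃ g : ℤ_[l] → ℚ_[l], Continuous g ∧
        (∀ f : ℕ, 1 ≤ f → ∃ v : ℚ, IsLocalValue c p (D * f) s v ∧ g (f : ℤ_[l]) = (v : ℚ_[l])) ∧
        g 0 = ((RatFunc.eval (RingHom.id ℚ) (s : ℚ) Z : ℚ) : ℚ_[l])

/-- The rank six algebra with `e 0 * e 5 = e 4`, `e 1 * e 3 = e 4`, `e 1 * e 4 = e 5`,
`e 1 * e 5 = e 5` and all other products of basis vectors zero. -/
def cex (i j k : Fin 6) : ℤ :=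
  if (i, j, k) = (0, 5, 4) ∨ (i, j, k) = (1, 3, 4) ∨ (i, j, k) = (1, 4, 5) ∨ (i, j, k) = (1, 5, 5)
  then 1 else 0

end Pool.Agent.P.MP_512a3e_al
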