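import Mathlib

/-! A verified procedure that sums `q ^ A x * t ^ B x` over the points `x` of `ℕ ^ 6` cut out by
piecewise linear inequalities, by repeated splitting into unimodular cones. -/

set_option autoImplicit false

namespace Pool.Agent.P.MP_512a3e_al

open scoped ENNReal

/-- affine forms in six variables -/
structure Aff where
  c0 : ℤ
  c1 : ℤ
  c2 : ℤ
  c3 : ℤ
  c4 : ℤ
  c5 : ℤ
  k : ℤ

namespace Aff

def co (a : Aff) (i : Fin 6) : ℤ :=
  match i.val with
  | 0 => a.c0
  | 1 => a.c1
  | 2 => a.c2
  | 3 => a.c3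
  | 4 => a.c4
  | _ => a.c5

def ev (a : Aff) (x : Fin 6 → ℕ) : ℤ :=
  a.c0 * x 0 + a.c1 * x 1 + a.c2 * x 2 + a.c3 * x 3 + a.c4 * x 4 + a.c5 * x 5 + a.k

def add (a b : Aff) : Aff :=
  ⟨a.c0 + b.c0, a.c1 + b.c1, a.c2 + b.c2, a.c3 + b.c3, a.c4 + b.c4, a.c5 + b.c5, a.k + b.k⟩

def sub (a b : Aff) : Aff :=
  ⟨a.c0 - b.c0, a.c1 - b.c1, a.c2 - b.c2, a.c3 - b.c3, a.c4 - b.c4, a.c5 - b.c5, a.k - b.k⟩

def smul (c : ℤ) (a : Aff) : Aff :=
  ⟨c * a.c0, c * a.c1, c * a.c2, c * a.c3, c * a.c4, c * a.c5, c * a.k⟩

def nonneg (a : Aff) : Bool :=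
  decide (0 ≤ a.c0) && decide (0 ≤ a.c1) && decide (0 ≤ a.c2) && decide (0 ≤ a.c3) &&
    decide (0 ≤ a.c4) && decide (0 ≤ a.c5) && decide (0 ≤ a.k)

def nonpos0 (a : Aff) : Bool :=
  decide (a.c0 ≤ 0) && decide (a.c1 ≤ 0) && decide (a.c2 ≤ 0) && decide (a.c3 ≤ 0) &&
    decide (a.c4 ≤ 0) && decide (a.c5 ≤ 0)

def addAt (a : Aff) (i : Fin 6) (v : ℤ) : Aff :=
  match i.val with
  | 0 => ⟨a.c0 + v, a.c1, a.c2, a.c3, a.c4, a.c5, a.k⟩
  | 1 => ⟨a.c0, a.c1 + v, a.c2, a.c3, a.c4, a.c5, a.k⟩
  | 2 => ⟨a.c0, a.c1, a.c2 + v, a.c3, a.c4, a.c5, a.k⟩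
  | 3 => ⟨a.c0, a.c1, a.c2, a.c3 + v, a.c4, a.c5, a.k⟩
  | 4 => ⟨a.c0, a.c1, a.c2, a.c3, a.c4 + v, a.c5, a.k⟩
  | _ => ⟨a.c0, a.c1, a.c2, a.c3, a.c4, a.c5 + v, a.k⟩

def addK (a : Aff) (v : ℤ) : Aff := ⟨a.c0, a.c1, a.c2, a.c3, a.c4, a.c5, a.k + v⟩

def sLE (i j : Fin 6) (a : Aff) : Aff := a.addAt i (a.co j)
def sGT (i j : Fin 6) (a : Aff) : Aff := (a.addAt j (a.co i)).addK (a.co i)
def sPos (i : Fin 6) (a : Aff) : Aff := a.addK (a.co i)
def sZero (i : Fin 6) (a : Aff) : Aff := a.addAt i (-a.co i)

lemma ev_add (a b : Aff) (x : Fin 6 → ℕ) : (a.add b).ev x = a.ev x + b.ev x := by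
  simp only [ev, add]; ring

lemma ev_sub (a b : Aff) (x : Fin 6 → ℕ) : (a.sub b).ev x = a.ev x - b.ev x := by
  simp only [ev, sub]; ring

lemma ev_smul (c : ℤ) (a : Aff) (x : Fin 6 → ℕ) : (a.smul c).ev x = c * a.ev x := by
  simp only [ev, smul]; ring

lemma ev_nonneg {a : Aff} (h : a.nonneg = true) (x : Fin 6 → ℕ) : 0 ≤ a.ev x := by
  simp only [nonneg, Bool.and_eq_true, decide_eq_true_eq] at h
  obtain ⟨⟨⟨⟨⟨⟨h0, h1⟩, h2⟩, h3⟩, h4⟩, h5⟩, h6⟩ := h
  simp only [ev]
  positivity

lemma ev_le_k {a : Aff} (h : a.nonpos0 = true) (x : Fin 6 → ℕ) : a.ev x ≤ a.k := by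
  simp only [nonpos0, Bool.and_eq_true, decide_eq_true_eq] at h
  obtain ⟨⟨⟨⟨⟨h0, h1⟩, h2⟩, h3⟩, h4⟩, h5⟩ := h
  simp only [ev]
  have := fun (c : ℤ) (hc : c ≤ 0) (n : ℕ) => mul_nonpos_of_nonpos_of_nonneg hc (Int.natCast_nonneg n)
  have a0 := this _ h0 (x 0)
  have a1 := this _ h1 (x 1)
  have a2 := this _ h2 (x 2)
  have a3 := this _ h3 (x 3)
  have a4 := this _ h4 (x 4)
  have a5 := this _ h5 (x 5)
  omega

lemma ev_addAt (a : Aff) (i : Fin 6) (v : ℤ) (x : Fin 6 → ℕ) :
    (a.addAt i v).ev x = a.ev x + v * x i := by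
  fin_cases i <;> simp [ev, addAt] <;> ring

lemma ev_addK (a : Aff) (v : ℤ) (x : Fin 6 → ℕ) : (a.addK v).ev x = a.ev x + v := by
  simp only [ev, addK]; ring

lemma ev_update (a : Aff) (j : Fin 6) (v : ℕ) (x : Fin 6 → ℕ) :
    a.ev (Function.update x j v) = a.ev x + a.co j * (v - x j) := by
  fin_cases j <;> simp [ev, co, Function.update] <;> ring

lemma ev_eq_sum (a : Aff) (x : Fin 6 → ℕ) : a.ev x = a.k + ∑ i, a.co i * x i := by
  simp [ev, co, Fin.sum_univ_six]; ring

lemma co_nonneg {a : Aff} (h : a.nonneg = true) : 0 ≤ a.k ∧ ∀ i, 0 ≤ a.co i := by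
  simp only [nonneg, Bool.and_eq_true, decide_eq_true_eq] at h
  obtain ⟨⟨⟨⟨⟨⟨h0, h1⟩, h2⟩, h3⟩, h4⟩, h5⟩, h6⟩ := h
  refine ⟨h6, fun i => ?_⟩
  fin_cases i <;> simpa [co]

end Aff

/-- piecewise linear expressions -/
inductive E where
  | aff (a : Aff)
  | max (x y : E)
  | min (x y : E)
  | add (x y : E)
  | sc (c : ℤ) (x : E)

namespace E

def ev : E → (Fin 6 → ℕ) → ℤ
  | aff a, v => a.ev v
  | max x y, v => Max.max (x.ev v) (y.ev v)
  | min x y, v => Min.min (x.ev v) (y.ev v)
  | add x y, v => x.ev v + y.ev v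
  | sc c x, v => c * x.ev v

def mkMax : E → E → E
  | aff a, aff b => if (a.sub b).nonneg then aff a else if (b.sub a).nonneg then aff b
      else max (aff a) (aff b)
  | x, y => max x y

def mkMin : E → E → E
  | aff a, aff b => if (a.sub b).nonneg then aff b else if (b.sub a).nonneg then aff a
      else min (aff a) (aff b)
  | x, y => min x y

def mkAdd : E → E → E
  | aff a, aff b => aff (a.add b)
  | x, y => add x y

def mkSc (c : ℤ) : E → E
  | aff a => aff (a.smul c)
  | x => sc c x

/-- substitute and simplify -/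
def step (f : Aff → Aff) : E → E
  | aff a => aff (f a)
  | max x y => mkMax (x.step f) (y.step f)
  | min x y => mkMin (x.step f) (y.step f)
  | add x y => mkAdd (x.step f) (y.step f)
  | sc c x => mkSc c (x.step f)

lemma ev_mkMax (x y : E) (v : Fin 6 → ℕ) : (mkMax x y).ev v = Max.max (x.ev v) (y.ev v) := by
  unfold mkMax
  split
  · rename_i a b
    split_ifs with h1 h2
    · have := Aff.ev_nonneg h1 v
      rw [Aff.ev_sub] at this
      simp only [ev]; omega
    · have := Aff.ev_nonneg h2 v
      rw [Aff.ev_sub] at this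
      simp only [ev]; omega
    · rfl
  · rfl

lemma ev_mkMin (x y : E) (v : Fin 6 → ℕ) : (mkMin x y).ev v = Min.min (x.ev v) (y.ev v) := by
  unfold mkMin
  split
  · rename_i a b
    split_ifs with h1 h2
    · have := Aff.ev_nonneg h1 v
      rw [Aff.ev_sub] at this
      simp only [ev]; omega
    · have := Aff.ev_nonneg h2 v
      rw [Aff.ev_sub] at this
      simp only [ev]; omega
    · rfl
  · rfl

lemma ev_mkAdd (x y : E) (v : Fin 6 → ℕ) : (mkAdd x y).ev v = x.ev v + y.ev v := by
  unfold mkAdd
  split
  · simp only [ev, Aff.ev_add]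
  · rfl

lemma ev_mkSc (c : ℤ) (x : E) (v : Fin 6 → ℕ) : (mkSc c x).ev v = c * x.ev v := by
  unfold mkSc
  split
  · simp only [ev, Aff.ev_smul]
  · rfl

lemma ev_step {f : Aff → Aff} {v w : Fin 6 → ℕ} (h : ∀ a, (f a).ev v = a.ev w) (e : E) :
    (e.step f).ev v = e.ev w := by
  induction e with
  | aff a => exact h a
  | max x y hx hy => simp only [step, ev_mkMax, ev, hx, hy]
  | min x y hx hy => simp only [step, ev_mkMin, ev, hx, hy]
  | add x y hx hy => simp only [step, ev_mkAdd, ev, hx, hy]
  | sc c x hx => simp only [step, ev_mkSc, ev, hx]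

/-- a comparison that is not yet decided -/
def pend : E → Option Aff
  | aff _ => none
  | max (aff a) (aff b) => some (a.sub b)
  | min (aff a) (aff b) => some (a.sub b)
  | max x y => x.pend.or y.pend
  | min x y => x.pend.or y.pend
  | add x y => x.pend.or y.pend
  | sc _ x => x.pend

end E

/-- drop constraints that always hold; `none` if one never holds -/
def procCons : List E → Option (List E)
  | [] => some []
  | E.aff a :: l =>
      if a.nonneg then procCons l
      else if a.nonpos0 && decide (a.k < 0) then none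
      else (procCons l).map (fun r => E.aff a :: r)
  | e :: l => (procCons l).map (fun r => e :: r)

def Holds (l : List E) (v : Fin 6 → ℕ) : Prop := ∀ e ∈ l, 0 ≤ e.ev v

lemma holds_cons (e : E) (l : List E) (v : Fin 6 → ℕ) :
    Holds (e :: l) v ↔ 0 ≤ e.ev v ∧ Holds l v := by
  simp [Holds]

lemma procCons_spec (l : List E) (v : Fin 6 → ℕ) :
    (procCons l = none → ¬ Holds l v) ∧ ∀ r, procCons l = some r → (Holds l v ↔ Holds r v) := by
  induction l with
  | nil => simp [procCons, Holds]
  | cons e l ih =>
    have key : ∀ e : E, ((procCons l).map (fun r => e :: r) = none → ¬ Holds (e :: l) v) ∧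
        ∀ r, (procCons l).map (fun r => e :: r) = some r → (Holds (e :: l) v ↔ Holds r v) := by
      intro e
      constructor
      · intro h h'
        rw [Option.map_eq_none_iff] at h
        exact ih.1 h ((holds_cons _ _ _).1 h').2
      · intro r h
        rw [Option.map_eq_some_iff] at h
        obtain ⟨r', h1, rfl⟩ := h
        rw [holds_cons, holds_cons, ih.2 r' h1]
    cases e with
    | aff a =>
      simp only [procCons]
      split_ifs with h1 h2
      · have := Aff.ev_nonneg h1 v
        simp only [holds_cons, E.ev, this, true_and]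
        exact ih
      · simp only [Bool.and_eq_true, decide_eq_true_eq] at h2
        have := Aff.ev_le_k h2.1 v
        refine ⟨fun _ h => ?_, by simp⟩
        have h3 := ((holds_cons _ _ _).1 h).1
        simp only [E.ev] at h3
        omega
      · exact key _
    | max x y => exact key _
    | min x y => exact key _
    | add x y => exact key _
    | sc c x => exact key _

def firstAff : List E → Option Aff
  | [] => none
  | E.aff a :: _ => some a
  | _ :: l => firstAff l

def firstPend : List E → Option Aff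
  | [] => none
  | e :: l => e.pend.or (firstPend l)

def pick (cs : List E) (A B : E) : Option Aff :=
  match firstAff cs with
  | some a => some a
  | none => match firstPend cs with
    | some a => some a
    | none => match B.pend with
      | some a => some a
      | none => A.pend

def argmax (d : Aff) : Fin 6 :=
  [1, 2, 3, 4, 5].foldl (fun b i => if d.co b < d.co i then i else b) 0

def argmin (d : Aff) : Fin 6 :=
  [1, 2, 3, 4, 5].foldl (fun b i => if d.co i < d.co b then i else b) 0

def choose (d : Aff) : Fin 6 × Fin 6 :=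
  if 0 < d.co (argmax d) then
    if d.co (argmin d) < 0 then
      if d.k < 0 then (argmax d, argmin d) else (argmin d, argmax d)
    else (argmax d, argmax d)
  else (argmin d, argmin d)

/-- the term `q ^ a0 * t ^ b0 * ∏ (1 - q ^ a * t ^ b)⁻¹` -/
structure Tm where
  a0 : ℕ
  b0 : ℕ
  rays : List (ℕ × ℕ)

def leaf (m : List (Fin 6)) : List E → E → E → List Tm → Option (List Tm)
  | [], E.aff a, E.aff b, acc =>
      if a.nonneg && b.nonneg then
        some (⟨a.k.toNat, b.k.toNat, (([0, 1, 2, 3, 4, 5] : List (Fin 6)).filter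
          (fun i => decide (i ∉ m))).map (fun i => ((a.co i).toNat, (b.co i).toNat))⟩ :: acc)
      else none
  | _, _, _, _ => none

def solve : ℕ → List (Fin 6) → List E → E → E → List Tm → Option (List Tm)
  | 0, _, _, _, _, _ => none
  | n + 1, m, cs, A, B, acc =>
    match procCons cs with
    | none => some acc
    | some cs =>
      match pick cs A B with
      | none => leaf m cs A B acc
      | some d =>
        match choose d with
        | (i, j) =>
          if i ∉ m ∧ j ∉ m then
            if i = j then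
              (solve n (i :: m) (cs.map (E.step (Aff.sZero i))) (A.step (Aff.sZero i))
                (B.step (Aff.sZero i)) acc).bind
              (solve n m (cs.map (E.step (Aff.sPos i))) (A.step (Aff.sPos i))
                (B.step (Aff.sPos i)))
            else
              (solve n m (cs.map (E.step (Aff.sLE i j))) (A.step (Aff.sLE i j))
                (B.step (Aff.sLE i j)) acc).bind
              (solve n m (cs.map (E.step (Aff.sGT i j))) (A.step (Aff.sGT i j))
                (B.step (Aff.sGT i j)))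
          else none

noncomputable def Tm.val (q t : ℝ≥0∞) (T : Tm) : ℝ≥0∞ :=
  q ^ T.a0 * t ^ T.b0 * (T.rays.map (fun r => (1 - q ^ r.1 * t ^ r.2)⁻¹)).prod

open Classical in
/-- the summand -/
noncomputable def Itg (q t : ℝ≥0∞) (m : List (Fin 6)) (cs : List E) (A B : E) (v : Fin 6 → ℕ) :
    ℝ≥0∞ :=
  if (∀ i ∈ m, v i = 0) ∧ Holds cs v then q ^ (A.ev v).toNat * t ^ (B.ev v).toNat else 0

lemma tsum_fin_succ {n : ℕ} (f : (Fin (n + 1) → ℕ) → ℝ≥0∞) :
    ∑' x, f x = ∑' a : ℕ, ∑' y : Fin n → ℕ, f (Fin.cons a y) := by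
  rw [← (Fin.consEquiv (fun _ : Fin (n + 1) => ℕ)).tsum_eq, ENNReal.tsum_prod']
  rfl

lemma tsum_pi_prod (n : ℕ) (g : Fin n → ℕ → ℝ≥0∞) :
    ∑' x : Fin n → ℕ, ∏ i, g i (x i) = ∏ i, ∑' a, g i a := by
  induction n with
  | zero => simp
  | succ n ih =>
    rw [tsum_fin_succ]
    simp only [Fin.prod_univ_succ, Fin.cons_zero, Fin.cons_succ, ENNReal.tsum_mul_left,
      ENNReal.tsum_mul_right, ih]

lemma split_cmp (F : (Fin 6 → ℕ) → ℝ≥0∞) {i j : Fin 6} (h : i ≠ j) :
    ∑' x, F x = ∑' x, F (Function.update x j (x i + x j))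
      + ∑' x, F (Function.update x i (x i + x j + 1)) := by
  have h1 : Function.Injective (fun x : Fin 6 → ℕ => Function.update x j (x i + x j)) := by
    intro x y hxy
    have e1 := congrFun hxy i
    have e2 := congrFun hxy j
    simp only [Function.update_self, Function.update_of_ne h] at e1 e2
    funext k
    by_cases hk : k = j
    · subst hk; omega
    · simpa only [Function.update_of_ne hk] using congrFun hxy k
  have h2 : Function.Injective (fun x : Fin 6 → ℕ => Function.update x i (x i + x j + 1)) := by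
    intro x y hxy
    have e1 := congrFun hxy i
    have e2 := congrFun hxy j
    simp only [Function.update_self, Function.update_of_ne h.symm] at e1 e2
    funext k
    by_cases hk : k = i
    · subst hk; omega
    · simpa only [Function.update_of_ne hk] using congrFun hxy k
  have e : ∀ x, F x = (if x i ≤ x j then F x else 0) + (if x j < x i then F x else 0) := by
    intro x; split_ifs <;> first | omega | simp
  rw [tsum_congr e, ENNReal.tsum_add,
    ← h1.tsum_eq (f := fun x => if x i ≤ x j then F x else 0),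
    ← h2.tsum_eq (f := fun x => if x j < x i then F x else 0)]
  · congr 1
    · refine tsum_congr fun x => if_pos ?_
      simp only [Function.update_self, Function.update_of_ne h]; omega
    · refine tsum_congr fun x => if_pos ?_
      simp only [Function.update_self, Function.update_of_ne h.symm]; omega
  · intro x hx
    have : x j < x i := by by_contra hc; simp [hc] at hx
    refine ⟨Function.update x i (x i - x j - 1), ?_⟩
    simp only [Function.update_self, Function.update_of_ne h.symm, Function.update_idem]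
    rw [show x i - x j - 1 + x j + 1 = x i by omega, Function.update_eq_self]
  · intro x hx
    have : x i ≤ x j := by by_contra hc; simp [hc] at hx
    refine ⟨Function.update x j (x j - x i), ?_⟩
    simp only [Function.update_self, Function.update_of_ne h, Function.update_idem]
    rw [show x i + (x j - x i) = x j by omega, Function.update_eq_self]

lemma split_zero (F : (Fin 6 → ℕ) → ℝ≥0∞) (i : Fin 6) :
    ∑' x, F x = ∑' x, (if x i = 0 then F x else 0) + ∑' x, F (Function.update x i (x i + 1)) := by
  have h2 : Function.Injective (fun x : Fin 6 → ℕ => Function.update x i (x i + 1)) := by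
    intro x y hxy
    have e1 := congrFun hxy i
    simp only [Function.update_self] at e1
    funext k
    by_cases hk : k = i
    · subst hk; omega
    · simpa only [Function.update_of_ne hk] using congrFun hxy k
  have e : ∀ x, F x = (if x i = 0 then F x else 0) + (if 0 < x i then F x else 0) := by
    intro x; split_ifs <;> first | omega | simp
  rw [tsum_congr e, ENNReal.tsum_add, ← h2.tsum_eq (f := fun x => if 0 < x i then F x else 0)]
  · congr 1
    refine tsum_congr fun x => if_pos ?_
    simp only [Function.update_self]; omega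
  · intro x hx
    have : 0 < x i := by by_contra hc; simp [hc] at hx
    refine ⟨Function.update x i (x i - 1), ?_⟩
    simp only [Function.update_self, Function.update_idem]
    rw [show x i - 1 + 1 = x i by omega, Function.update_eq_self]

lemma holds_map {f : Aff → Aff} {v w : Fin 6 → ℕ} (h : ∀ a, (f a).ev v = a.ev w) (l : List E) :
    Holds (l.map (E.step f)) v ↔ Holds l w := by
  simp only [Holds, List.mem_map, forall_exists_index, and_imp, forall_apply_eq_imp_iff₂,
    E.ev_step h]

lemma Itg_step (q t : ℝ≥0∞) {m m' : List (Fin 6)} (cs : List E) (A B : E) {f : Aff → Aff}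
    {v w : Fin 6 → ℕ} (h : ∀ a, (f a).ev v = a.ev w)
    (hm : (∀ i ∈ m', v i = 0) ↔ (∀ i ∈ m, w i = 0)) :
    Itg q t m' (cs.map (E.step f)) (A.step f) (B.step f) v = Itg q t m cs A B w := by
  classical
  simp only [Itg, E.ev_step h]
  exact if_congr (and_congr hm (holds_map h cs)) rfl rfl

lemma mask_update {m : List (Fin 6)} {j : Fin 6} (hj : j ∉ m) (v : Fin 6 → ℕ) (n : ℕ) :
    (∀ i ∈ m, v i = 0) ↔ (∀ i ∈ m, Function.update v j n i = 0) := by
  refine forall_congr' fun i => forall_congr' fun hi => ?_
  rw [Function.update_of_ne (by rintro rfl; exact hj hi)]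

lemma leaf_sum (q t : ℝ≥0∞) (m : List (Fin 6)) {a b : Aff} (ha : a.nonneg = true)
    (hb : b.nonneg = true) :
    ∑' v, Itg q t m [] (E.aff a) (E.aff b) v = Tm.val q t ⟨a.k.toNat, b.k.toNat,
      (([0, 1, 2, 3, 4, 5] : List (Fin 6)).filter (fun i => decide (i ∉ m))).map
        (fun i => ((a.co i).toNat, (b.co i).toNat))⟩ := by
  have e : ∀ {a : Aff}, a.nonneg = true → ∀ v : Fin 6 → ℕ,
      (a.ev v).toNat = a.k.toNat + ∑ i, (a.co i).toNat * v i := by
    intro a ha v
    obtain ⟨h1, h2⟩ := Aff.co_nonneg ha
    apply Nat.cast_injective (R := ℤ)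
    rw [Int.toNat_of_nonneg (Aff.ev_nonneg ha v), Aff.ev_eq_sum]
    push_cast
    simp only [Int.toNat_of_nonneg h1, Int.toNat_of_nonneg (h2 _)]
  have e2 : ∀ v : Fin 6 → ℕ, Itg q t m [] (E.aff a) (E.aff b) v = q ^ a.k.toNat * t ^ b.k.toNat *
      ∏ i, (if i ∈ m then (if v i = 0 then 1 else 0)
        else (q ^ (a.co i).toNat * t ^ (b.co i).toNat) ^ v i) := by
    intro v
    simp only [Itg, E.ev, e ha, e hb, Holds, List.not_mem_nil, false_imp_iff, implies_true, and_true]
    split_ifs with h
    · rw [pow_add, pow_add, ← Finset.prod_pow_eq_pow_sum, ← Finset.prod_pow_eq_pow_sum,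
        mul_mul_mul_comm, ← Finset.prod_mul_distrib]
      congr 1
      refine Finset.prod_congr rfl fun i _ => ?_
      split_ifs with h1 h2
      · simp [h2]
      · exact absurd (h i h1) h2
      · rw [mul_pow, pow_mul, pow_mul]
    · push Not at h
      obtain ⟨i, h1, h2⟩ := h
      rw [Finset.prod_eq_zero (Finset.mem_univ i) (by rw [if_pos h1, if_neg h2]), mul_zero]
  rw [tsum_congr e2, ENNReal.tsum_mul_left, tsum_pi_prod 6 (fun i n => if i ∈ m then
    (if n = 0 then 1 else 0) else (q ^ (a.co i).toNat * t ^ (b.co i).toNat) ^ n)]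
  simp only [Tm.val]
  congr 1
  have e3 : ∀ i : Fin 6, (∑' n : ℕ, if i ∈ m then (if n = 0 then (1 : ℝ≥0∞) else 0)
      else (q ^ (a.co i).toNat * t ^ (b.co i).toNat) ^ n)
      = if i ∈ m then 1 else (1 - q ^ (a.co i).toNat * t ^ (b.co i).toNat)⁻¹ := by
    intro i
    split_ifs
    · simp
    · exact ENNReal.tsum_geometric _
  have e4 : ∀ (l : List (Fin 6)) (g : Fin 6 → ℝ≥0∞),
      ((l.filter (fun i => decide (i ∉ m))).map g).prod
        = (l.map (fun i => if i ∈ m then 1 else g i)).prod := by
    intro l g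
    induction l with
    | nil => simp
    | cons i l ih =>
      by_cases h : i ∈ m
      · simp only [List.filter_cons, h, not_true, decide_false, List.map_cons, List.prod_cons,
          if_true, one_mul, ← ih]
        rfl
      · simp only [List.filter_cons, h, not_false_iff, decide_true, List.map_cons, List.prod_cons,
          if_false, if_true, ← ih]
  rw [List.map_map, e4]
  simp only [e3, Fin.prod_univ_six, List.map_cons, List.map_nil, List.prod_cons, List.prod_nil,
    Function.comp]
  ring

theorem solve_sound (q t : ℝ≥0∞) (n : ℕ) : ∀ (m : List (Fin 6)) (cs : List E) (A B : E)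
    (acc L : List Tm), solve n m cs A B acc = some L →
    (L.map (Tm.val q t)).sum = (acc.map (Tm.val q t)).sum + ∑' v, Itg q t m cs A B v := by
  induction n with
  | zero => intro m cs A B acc L h; simp [solve] at h
  | succ n ih =>
    intro m cs A B acc L h
    simp only [solve] at h
    split at h
    · rename_i h1
      have : ∀ v, Itg q t m cs A B v = 0 := fun v =>
        if_neg fun h2 => (procCons_spec cs v).1 h1 h2.2
      simp only [Option.some.injEq] at h
      simp [this, h]
    · rename_i cs' h1
      have e1 : ∀ v, Itg q t m cs A B v = Itg q t m cs' A B v := fun v => by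
        classical
        simp only [Itg]
        exact if_congr (and_congr Iff.rfl ((procCons_spec cs v).2 cs' h1)) rfl rfl
      rw [tsum_congr e1]
      split at h
      · unfold leaf at h
        split at h
        · split_ifs at h with h2
          simp only [Bool.and_eq_true] at h2
          simp only [Option.some.injEq] at h
          rw [leaf_sum q t m h2.1 h2.2, ← h, List.map_cons, List.sum_cons, add_comm]
        · simp at h
      · rename_i d _
        generalize choose d = ij at h
        obtain ⟨i, j⟩ := ij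
        simp only at h
        split_ifs at h with h2 h3
        · rw [Option.bind_eq_some_iff] at h
          obtain ⟨L', h4, h5⟩ := h
          rw [ih _ _ _ _ _ _ h5, ih _ _ _ _ _ _ h4, split_zero (Itg q t m cs' A B) i, add_assoc]
          congr 2
          · refine tsum_congr fun v => ?_
            split_ifs with h6
            · refine Itg_step q t cs' A B (fun a => ?_) (by simp [h6])
              rw [Aff.sZero, Aff.ev_addAt, h6]; simp
            · exact if_neg fun h7 => h6 (h7.1 i (by simp))
          · refine tsum_congr fun v => Itg_step q t cs' A B (fun a => ?_) (mask_update h2.1 _ _)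
            rw [Aff.sPos, Aff.ev_addK, Aff.ev_update]; push_cast; ring
        · rw [Option.bind_eq_some_iff] at h
          obtain ⟨L', h4, h5⟩ := h
          rw [ih _ _ _ _ _ _ h5, ih _ _ _ _ _ _ h4, split_cmp (Itg q t m cs' A B) h3, add_assoc]
          congr 2
          · refine tsum_congr fun v => Itg_step q t cs' A B (fun a => ?_) (mask_update h2.2 _ _)
            rw [Aff.sLE, Aff.ev_addAt, Aff.ev_update]; push_cast; ring
          · refine tsum_congr fun v => Itg_step q t cs' A B (fun a => ?_) (mask_update h2.1 _ _)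
            rw [Aff.sGT, Aff.ev_addK, Aff.ev_addAt, Aff.ev_update]; push_cast; ring

end Pool.Agent.P.MP_512a3e_al
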