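import Mathlib

/-! Enumeration of finite-index submodules over a discrete valuation ring, one coordinate at a time. -/

set_option autoImplicit false
set_option linter.unusedSectionVars false

namespace Pool.Agent.P.MP_512a3e_al

open scoped ENNReal

variable {O : Type*} [CommRing O]
variable {V : Type*} [AddCommGroup V] [Module O V]

/-- index of a submodule -/
noncomputable def idx (U : Submodule O V) : ℕ := U.toAddSubgroup.index

/-- relative index -/
noncomputable def ridx (U N : Submodule O V) : ℕ := U.toAddSubgroup.relIndex N.toAddSubgroup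

lemma ridx_mul_idx {U N : Submodule O V} (h : U ≤ N) : ridx U N * idx N = idx U :=
  AddSubgroup.relIndex_mul_index (by exact h)

/-- the ideal generated by `π ^ k` -/
def pw (π : O) (k : ℕ) : Submodule O O := Submodule.span O {π ^ k}

lemma mem_pw {π : O} {k : ℕ} {a : O} : a ∈ pw π k ↔ π ^ k ∣ a := Ideal.mem_span_singleton

/-- the lattice generated by `(π ^ α, r)` and `0 × M` -/
def ext (π : O) (α : ℕ) (r : V) (M : Submodule O V) : Submodule O (O × V) where
  carrier := {z | ∃ k : O, z.1 = k * π ^ α ∧ z.2 - k • r ∈ M}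
  add_mem' := by
    rintro a b ⟨k, hk, hk'⟩ ⟨l, hl, hl'⟩
    refine ⟨k + l, by simp [hk, hl, add_mul], ?_⟩
    have := M.add_mem hk' hl'
    convert this using 1
    simp only [Prod.snd_add, add_smul]; abel
  zero_mem' := ⟨0, by simp, by simp⟩
  smul_mem' := by
    rintro c a ⟨k, hk, hk'⟩
    refine ⟨c * k, by simp [hk, mul_assoc], ?_⟩
    have := M.smul_mem c hk'
    convert this using 1
    simp only [Prod.smul_snd, smul_sub, mul_smul]

lemma mem_ext {π : O} {α : ℕ} {r : V} {M : Submodule O V} {z : O × V} :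
    z ∈ ext π α r M ↔ ∃ k : O, z.1 = k * π ^ α ∧ z.2 - k • r ∈ M := Iff.rfl

lemma ext_congr {π : O} {α : ℕ} {r r' : V} {M : Submodule O V} (h : r - r' ∈ M) :
    ext π α r M = ext π α r' M := by
  ext z
  simp only [mem_ext]
  constructor
  · rintro ⟨k, hk, hk'⟩
    refine ⟨k, hk, ?_⟩
    have := M.add_mem hk' (M.smul_mem k h)
    convert this using 1
    simp only [smul_sub]; abel
  · rintro ⟨k, hk, hk'⟩
    refine ⟨k, hk, ?_⟩
    have := M.sub_mem hk' (M.smul_mem k h)
    convert this using 1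
    simp only [smul_sub]; abel

lemma gen_mem_ext {π : O} {α : ℕ} {r : V} {M : Submodule O V} : (π ^ α, r) ∈ ext π α r M :=
  ⟨1, by simp, by simp⟩

lemma inr_mem_ext_of {π : O} {α : ℕ} {r v : V} {M : Submodule O V} (h : v ∈ M) :
    ((0 : O), v) ∈ ext π α r M := ⟨0, by simp, by simpa using h⟩

lemma inr_mem_ext [IsDomain O] {π : O} (hπ : π ≠ 0) {α : ℕ} {r v : V} {M : Submodule O V} :
    ((0 : O), v) ∈ ext π α r M ↔ v ∈ M := by
  refine ⟨?_, inr_mem_ext_of⟩
  rintro ⟨k, hk, hk'⟩
  have : k = 0 := by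
    have h2 : k * π ^ α = 0 := hk.symm
    rcases mul_eq_zero.1 h2 with h | h
    · exact h
    · exact absurd h (pow_ne_zero _ hπ)
  simpa [this] using hk'

lemma ext_le_iff {π : O} {α : ℕ} {r : V} {M : Submodule O V} {N : Submodule O (O × V)} :
    ext π α r M ≤ N ↔ (π ^ α, r) ∈ N ∧ ∀ v ∈ M, ((0 : O), v) ∈ N := by
  constructor
  · intro h
    exact ⟨h gen_mem_ext, fun v hv => h (inr_mem_ext_of hv)⟩
  · rintro ⟨h1, h2⟩ z ⟨k, hk, hk'⟩
    have := N.add_mem (N.smul_mem k h1) (h2 _ hk')
    convert this using 1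
    ext
    · simp [hk]
    · simp

lemma idx_pw [IsDomain O] {π : O} (hπ : π ≠ 0) {q : ℕ} (hq : idx (pw π 1) = q) (k : ℕ) :
    idx (pw π k) = q ^ k := by
  induction k with
  | zero =>
    have : pw π 0 = ⊤ := by
      ext a; simp [mem_pw]
    simp [this, idx]
  | succ k ih =>
    have hle : pw π (k + 1) ≤ pw π 1 := by
      intro a ha
      rw [mem_pw] at ha ⊢
      exact dvd_trans (pow_dvd_pow π (by omega)) ha
    rw [← ridx_mul_idx hle, hq, pow_succ, ← ih]
    congr 1
    let f : O →+ O := AddMonoidHom.mulLeft π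
    have h1 : (pw π (k + 1)).toAddSubgroup.comap f = (pw π k).toAddSubgroup := by
      ext a
      simp only [AddSubgroup.mem_comap, Submodule.mem_toAddSubgroup, mem_pw, f,
        AddMonoidHom.coe_mulLeft]
      rw [pow_succ', mul_dvd_mul_iff_left hπ]
    have h2 : f.range = (pw π 1).toAddSubgroup := by
      ext a
      simp only [AddMonoidHom.mem_range, Submodule.mem_toAddSubgroup, mem_pw, f,
        AddMonoidHom.coe_mulLeft, pow_one]
      exact ⟨fun ⟨b, hb⟩ => ⟨b, hb.symm⟩, fun ⟨b, hb⟩ => ⟨b, hb.symm⟩⟩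
    rw [ridx, idx, ← h1, AddSubgroup.index_comap, h2]

lemma idx_ext [IsDomain O] {π : O} (hπ : π ≠ 0) {q : ℕ} (hq : idx (pw π 1) = q) (α : ℕ) (r : V)
    (M : Submodule O V) : idx (ext π α r M) = q ^ α * idx M := by
  let P : Submodule O (O × V) := (pw π α).comap (LinearMap.fst O O V)
  have hle : ext π α r M ≤ P := by
    rintro z ⟨k, hk, -⟩
    show z.1 ∈ pw π α
    rw [mem_pw, hk]; exact Dvd.intro_left _ rfl
  have hP : idx P = q ^ α := by
    rw [← idx_pw hπ hq α]
    exact AddSubgroup.index_comap_of_surjective (pw π α).toAddSubgroup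
      (f := (LinearMap.fst O O V).toAddMonoidHom) (fun a => ⟨(a, 0), rfl⟩)
  rw [← ridx_mul_idx hle, hP, mul_comm]
  congr 1
  let f : O × V →+ O × V :=
    { toFun := fun z => (z.1 * π ^ α, z.2 + z.1 • r)
      map_zero' := by simp
      map_add' := by
        intro a b
        ext
        · simp [add_mul]
        · simp only [Prod.snd_add, Prod.fst_add, add_smul]; abel }
  have h1 : (ext π α r M).toAddSubgroup.comap f
      = M.toAddSubgroup.comap (LinearMap.snd O O V).toAddMonoidHom := by
    ext z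
    simp only [AddSubgroup.mem_comap, Submodule.mem_toAddSubgroup, mem_ext, f,
      AddMonoidHom.coe_mk, ZeroHom.coe_mk, LinearMap.toAddMonoidHom_coe, LinearMap.snd_apply]
    constructor
    · rintro ⟨k, hk, hk'⟩
      have : z.1 = k := mul_right_cancel₀ (pow_ne_zero _ hπ) hk
      simpa [this] using hk'
    · intro h
      exact ⟨z.1, rfl, by simpa using h⟩
  have h2 : f.range = P.toAddSubgroup := by
    ext z
    simp only [AddMonoidHom.mem_range, Submodule.mem_toAddSubgroup, P, Submodule.mem_comap,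
      LinearMap.fst_apply, mem_pw, f, AddMonoidHom.coe_mk, ZeroHom.coe_mk]
    constructor
    · rintro ⟨a, rfl⟩
      exact Dvd.intro_left _ rfl
    · rintro ⟨k, hk⟩
      refine ⟨(k, z.2 - k • r), ?_⟩
      ext
      · simp [hk, mul_comm]
      · simp
  rw [ridx, ← h2, ← AddSubgroup.index_comap, h1, idx]
  exact AddSubgroup.index_comap_of_surjective M.toAddSubgroup (fun v => ⟨(0, v), rfl⟩)

/-- sum over a transversal of `L` -/
noncomputable def S (L : Submodule O V) (h : V → ℝ≥0∞) : ℝ≥0∞ :=
  ∑' x : V ⧸ L, h (Quotient.out x)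

/-- invariance under translation by `L` -/
def Inv (L : Submodule O V) (h : V → ℝ≥0∞) : Prop := ∀ v w, v - w ∈ L → h v = h w

lemma mk_out (L : Submodule O V) (x : V ⧸ L) : Submodule.Quotient.mk (Quotient.out x) = x :=
  Quotient.out_eq x

lemma out_mk_sub (L : Submodule O V) (v : V) :
    Quotient.out (Submodule.Quotient.mk (p := L) v) - v ∈ L :=
  (Submodule.Quotient.eq L).1 (mk_out L _)

lemma S_congr {L : Submodule O V} {h h' : V → ℝ≥0∞} (H : ∀ v, h v = h' v) : S L h = S L h' := by
  rw [show h = h' from funext H]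

lemma S_ext [IsDomain O] {π : O} (hπ : π ≠ 0) (α : ℕ) (r : V) (M : Submodule O V)
    {h : O × V → ℝ≥0∞} (hh : Inv (ext π α r M) h) :
    S (ext π α r M) h = S (pw π α) (fun a => S M (fun v => h (a, v))) := by
  let f : (O ⧸ pw π α) × (V ⧸ M) → (O × V) ⧸ ext π α r M :=
    fun z => Submodule.Quotient.mk (Quotient.out z.1, Quotient.out z.2)
  have hf : Function.Bijective f := by
    constructor
    · rintro ⟨a, v⟩ ⟨a', v'⟩ hz
      obtain ⟨k, hk, hk'⟩ := (Submodule.Quotient.eq _).1 hz
      have ha : a = a' := by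
        rw [← mk_out _ a, ← mk_out _ a', Submodule.Quotient.eq, mem_pw]
        exact ⟨k, by rw [mul_comm]; exact hk⟩
      subst ha
      have hk0 : k = 0 := by
        have h2 : k * π ^ α = 0 := by rw [← hk]; simp
        rcases mul_eq_zero.1 h2 with h | h
        · exact h
        · exact absurd h (pow_ne_zero _ hπ)
      have hv : v = v' := by
        rw [← mk_out _ v, ← mk_out _ v', Submodule.Quotient.eq]
        simpa [hk0] using hk'
      rw [hv]
    · intro z
      obtain ⟨⟨a, v⟩, rfl⟩ := Submodule.Quotient.mk_surjective _ z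
      obtain ⟨k, hk⟩ := mem_pw.1 (out_mk_sub (pw π α) a)
      refine ⟨(Submodule.Quotient.mk a, Submodule.Quotient.mk (v + k • r)), ?_⟩
      refine (Submodule.Quotient.eq _).2 ⟨k, by simpa [mul_comm] using hk, ?_⟩
      have := out_mk_sub M (v + k • r)
      convert this using 1
      simp only [Prod.snd_sub]; abel
  unfold S
  rw [← (Equiv.ofBijective f hf).tsum_eq, ENNReal.tsum_prod']
  refine tsum_congr fun a => tsum_congr fun v => hh _ _ ?_
  exact out_mk_sub _ _

lemma S_mul_left (L : Submodule O V) (c : ℝ≥0∞) (h : V → ℝ≥0∞) :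
    S L (fun v => c * h v) = c * S L h := ENNReal.tsum_mul_left

lemma S_mul_right (L : Submodule O V) (c : ℝ≥0∞) (h : V → ℝ≥0∞) :
    S L (fun v => h v * c) = S L h * c := ENNReal.tsum_mul_right

lemma S_add (L : Submodule O V) (h h' : V → ℝ≥0∞) :
    S L (fun v => h v + h' v) = S L h + S L h' := ENNReal.tsum_add

lemma S_zero (L : Submodule O V) : S L (fun _ => 0) = 0 := by simp [S]

lemma S_tsum {ι : Type*} (L : Submodule O V) (h : ι → V → ℝ≥0∞) :
    ∑' i, S L (h i) = S L (fun v => ∑' i, h i v) := ENNReal.tsum_comm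

lemma S_comm {W : Type*} [AddCommGroup W] [Module O W] (L : Submodule O V) (L' : Submodule O W)
    (h : V → W → ℝ≥0∞) :
    S L (fun v => S L' (fun w => h v w)) = S L' (fun w => S L (fun v => h v w)) :=
  ENNReal.tsum_comm

open Classical in
lemma S_coset {L N : Submodule O V} (hle : L ≤ N) (hfin : ridx L N ≠ 0) (z : V) :
    S L (fun v => if v - z ∈ N then 1 else 0) = ridx L N := by
  let f : N.toAddSubgroup ⧸ (L.toAddSubgroup.addSubgroupOf N.toAddSubgroup) → V ⧸ L :=
    fun n => Submodule.Quotient.mk (z + (Quotient.out n : N.toAddSubgroup))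
  have hf : Function.Injective f := by
    intro n n' h
    have h1 := (Submodule.Quotient.eq _).1 h
    rw [← Quotient.out_eq n, ← Quotient.out_eq n']
    apply Quotient.sound
    refine QuotientAddGroup.leftRel_apply.2 ?_
    rw [AddSubgroup.mem_addSubgroupOf, Submodule.mem_toAddSubgroup]
    have := L.neg_mem h1
    convert this using 1
    simp only [AddSubgroup.coe_add, AddSubgroup.coe_neg]; abel
  have hsupp : Function.support (fun x : V ⧸ L => if Quotient.out x - z ∈ N then (1 : ℝ≥0∞) else 0)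
      ⊆ Set.range f := by
    intro x hx
    have hx' : Quotient.out x - z ∈ N := by
      by_contra hc
      simp [hc] at hx
    refine ⟨Quotient.mk _ ⟨Quotient.out x - z, hx'⟩, ?_⟩
    refine Eq.trans ?_ (mk_out L x)
    refine (Submodule.Quotient.eq _).2 ?_
    have h3 := QuotientAddGroup.leftRel_apply.1
      (Quotient.exact (Quotient.out_eq (s := QuotientAddGroup.leftRel
        (L.toAddSubgroup.addSubgroupOf N.toAddSubgroup))
        (Quotient.mk _ ⟨Quotient.out x - z, hx'⟩)))
    rw [AddSubgroup.mem_addSubgroupOf, Submodule.mem_toAddSubgroup] at h3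
    have := L.neg_mem h3
    convert this using 1
    simp only [AddSubgroup.coe_add, AddSubgroup.coe_neg]; abel
  unfold S
  rw [← hf.tsum_eq hsupp]
  have : ∀ n, (if Quotient.out (f n) - z ∈ N then (1 : ℝ≥0∞) else 0) = 1 := by
    intro n
    rw [if_pos]
    have h1 := hle (out_mk_sub L (z + (Quotient.out n : N.toAddSubgroup)))
    have := N.add_mem h1 (Quotient.out n : N.toAddSubgroup).2
    convert this using 1
    abel
  simp only [this]
  have hfin' : Finite (N.toAddSubgroup ⧸ (L.toAddSubgroup.addSubgroupOf N.toAddSubgroup)) :=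
    Nat.finite_of_card_ne_zero hfin
  cases nonempty_fintype (N.toAddSubgroup ⧸ (L.toAddSubgroup.addSubgroupOf N.toAddSubgroup))
  rw [tsum_fintype]
  simp [ridx, AddSubgroup.relIndex, AddSubgroup.index]

open Classical in
lemma S_mem {L N : Submodule O V} (hle : L ≤ N) (hfin : ridx L N ≠ 0) :
    S L (fun v => if v ∈ N then 1 else 0) = ridx L N := by
  simpa using S_coset hle hfin 0

lemma S_const {L : Submodule O V} (hfin : idx L ≠ 0) (c : ℝ≥0∞) :
    S L (fun _ => c) = idx L * c := by
  have h : ridx L ⊤ = idx L := by simp [ridx, idx]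
  have := S_mem (L := L) (N := ⊤) le_top (by rwa [h])
  simp only [Submodule.mem_top, if_true] at this
  rw [← h, ← this, ← S_mul_right]
  simp

/-- sum over all finite-index submodules -/
noncomputable def LS (G : Submodule O V → ℝ≥0∞) : ℝ≥0∞ :=
  ∑' U : {U : Submodule O V // idx U ≠ 0}, G U

variable [IsDomain O] [IsDiscreteValuationRing O]

lemma pw_inj {π : O} (hπ : Irreducible π) {a b : ℕ} (h : pw π a = pw π b) : a = b := by
  have h1 : π ^ a ∣ π ^ b := mem_pw.1 (h ▸ mem_pw.2 dvd_rfl)
  have h2 : π ^ b ∣ π ^ a := mem_pw.1 (h ▸ mem_pw.2 dvd_rfl)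
  rw [pow_dvd_pow_iff hπ.ne_zero hπ.not_isUnit] at h1 h2
  omega

lemma idx_bot_eq_zero {π : O} (hπ : Irreducible π) : idx (⊥ : Submodule O O) = 0 := by
  have : Infinite O := Infinite.of_injective (fun n : ℕ => π ^ n) (by
    intro a b h
    apply pw_inj hπ
    simp only [pw]
    simp only at h
    rw [h])
  simp [idx]

lemma exists_pw {π : O} (hπ : Irreducible π) {I : Submodule O O} (hI : idx I ≠ 0) :
    ∃ k, I = pw π k := by
  apply IsDiscreteValuationRing.ideal_eq_span_pow_irreducible _ hπ
  rintro rfl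
  exact hI (idx_bot_eq_zero hπ)

lemma LS_one {π : O} (hπ : Irreducible π) {q : ℕ} (hq : idx (pw π 1) = q) (hq0 : q ≠ 0)
    (G : Submodule O O → ℝ≥0∞) : LS G = ∑' k : ℕ, G (pw π k) := by
  let f : ℕ → {U : Submodule O O // idx U ≠ 0} :=
    fun k => ⟨pw π k, by rw [idx_pw hπ.ne_zero hq]; positivity⟩
  have hf : Function.Bijective f := by
    constructor
    · intro a b h
      exact pw_inj hπ (congrArg Subtype.val h)
    · rintro ⟨U, hU⟩
      obtain ⟨k, rfl⟩ := exists_pw hπ hU
      exact ⟨k, rfl⟩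
  unfold LS
  rw [← (Equiv.ofBijective f hf).tsum_eq]
  rfl

lemma eq_ext_of {π : O} {N : Submodule O (O × V)} {e : ℕ} {r : V}
    (h1 : (π ^ e, r) ∈ N) (h2 : ∀ z ∈ N, π ^ e ∣ z.1) :
    N = ext π e r (N.comap (LinearMap.inr O O V)) := by
  apply le_antisymm
  · intro z hz
    obtain ⟨k, hk⟩ := h2 z hz
    refine ⟨k, by rw [hk, mul_comm], ?_⟩
    have := N.sub_mem hz (N.smul_mem k h1)
    simp only [Submodule.mem_comap, LinearMap.inr_apply]
    convert this using 1
    ext
    · simp [hk, mul_comm]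
    · simp
  · exact ext_le_iff.2 ⟨h1, fun v hv => hv⟩

lemma LS_ext {π : O} (hπ : Irreducible π) {q : ℕ} (hq : idx (pw π 1) = q) (hq0 : q ≠ 0)
    (G : Submodule O (O × V) → ℝ≥0∞) :
    LS G = ∑' α : ℕ, LS (fun M : Submodule O V => S M (fun r => G (ext π α r M))) := by
  let f : (Σ _ : ℕ, Σ M : {U : Submodule O V // idx U ≠ 0}, V ⧸ M.1) →
      {U : Submodule O (O × V) // idx U ≠ 0} :=
    fun z => ⟨ext π z.1 (Quotient.out z.2.2) z.2.1.1, by
      rw [idx_ext hπ.ne_zero hq]
      exact mul_ne_zero (pow_ne_zero _ hq0) z.2.1.2⟩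
  have hf : Function.Bijective f := by
    constructor
    · rintro ⟨α, ⟨M, hM⟩, x⟩ ⟨α', ⟨M', hM'⟩, x'⟩ h
      have h' : ext π α (Quotient.out x) M = ext π α' (Quotient.out x') M' :=
        congrArg Subtype.val h
      have hα : α = α' := by
        have h1 : π ^ α ∣ π ^ α' := by
          obtain ⟨k, hk, -⟩ := h'.ge gen_mem_ext
          exact ⟨k, by rw [mul_comm]; exact hk⟩
        have h2 : π ^ α' ∣ π ^ α := by
          obtain ⟨k, hk, -⟩ := h'.le gen_mem_ext
          exact ⟨k, by rw [mul_comm]; exact hk⟩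
        rw [pow_dvd_pow_iff hπ.ne_zero hπ.not_isUnit] at h1 h2
        omega
      subst hα
      have hMM : M = M' := by
        ext v
        rw [← inr_mem_ext hπ.ne_zero (α := α) (r := Quotient.out x), h',
          inr_mem_ext hπ.ne_zero]
      subst hMM
      have hx : x = x' := by
        obtain ⟨k, hk, hk'⟩ := h'.le gen_mem_ext
        have hk1 : k = 1 := by
          apply mul_right_cancel₀ (pow_ne_zero α hπ.ne_zero)
          rw [one_mul]; exact hk.symm
        rw [← mk_out _ x, ← mk_out _ x', Submodule.Quotient.eq]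
        simpa [hk1] using hk'
      rw [hx]
    · rintro ⟨U, hU⟩
      have hI : idx (U.map (LinearMap.fst O O V)) ≠ 0 := by
        intro h0
        apply hU
        have hd := AddSubgroup.index_map_dvd U.toAddSubgroup
          (f := (LinearMap.fst O O V).toAddMonoidHom) (fun a => ⟨(a, 0), rfl⟩)
        have h0' : (U.toAddSubgroup.map (LinearMap.fst O O V).toAddMonoidHom).index = 0 := h0
        rw [h0'] at hd
        exact Nat.eq_zero_of_zero_dvd hd
      obtain ⟨α, hα⟩ := exists_pw hπ hI
      obtain ⟨⟨a, r⟩, hr, hr'⟩ : π ^ α ∈ U.map (LinearMap.fst O O V) := by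
        rw [hα]; exact mem_pw.2 dvd_rfl
      obtain rfl : a = π ^ α := hr'
      have hU' := eq_ext_of (π := π) (e := α) hr (fun z hz => by
        rw [← mem_pw, ← hα]; exact ⟨z, hz, rfl⟩)
      have hM : idx (U.comap (LinearMap.inr O O V)) ≠ 0 := by
        intro h0
        apply hU
        rw [hU', idx_ext hπ.ne_zero hq, h0, mul_zero]
      refine ⟨⟨α, ⟨_, hM⟩, Submodule.Quotient.mk r⟩, Subtype.ext ?_⟩
      simp only [f]
      rw [ext_congr (out_mk_sub _ r)]
      exact hU'.symm
  unfold LS
  rw [← (Equiv.ofBijective f hf).tsum_eq, ENNReal.tsum_sigma']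
  refine tsum_congr fun α => ?_
  rw [ENNReal.tsum_sigma']
  rfl

end Pool.Agent.P.MP_512a3e_al
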