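import Pool.Agent.P.MP_512a3e_al.Rat
import Pool.Agent.P.MP_512a3e_al.Defs

/-! The local zeta functions of the example. -/

set_option autoImplicit false

namespace Pool.Agent.P.MP_512a3e_al

open scoped ENNReal

section
variable {O : Type} [CommRing O]

/-- coordinates -/
def crd : (O × O × O × O × O × O) →ₗ[O] (Fin 6 → O) where
  toFun x := ![x.1, x.2.1, x.2.2.1, x.2.2.2.1, x.2.2.2.2.1, x.2.2.2.2.2]
  map_add' x y := by funext i; fin_cases i <;> simp
  map_smul' c x := by funext i; fin_cases i <;> simp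

lemma crd_surj : Function.Surjective (crd (O := O)) := fun v =>
  ⟨(v 0, v 1, v 2, v 3, v 4, v 5), by funext i; fin_cases i <;> rfl⟩

lemma crd_inj : Function.Injective (crd (O := O)) := by
  rintro ⟨a, b, c, d, e, f⟩ ⟨a', b', c', d', e', f'⟩ h
  have h0 : a = a' := congrFun h 0
  have h1 : b = b' := congrFun h 1
  have h2 : c = c' := congrFun h 2
  have h3 : d = d' := congrFun h 3
  have h4 : e = e' := congrFun h 4
  have h5 : f = f' := congrFun h 5
  rw [h0, h1, h2, h3, h4, h5]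

lemma crd_mul (x y : O × O × O × O × O × O) :
    algMul cex O (crd x) (crd y) = crd ((0 : O), (0 : O), (0 : O), (0 : O), act x.1 x.2.1 y.2.2.2) := by
  funext k
  fin_cases k <;> simp [algMul, cex, crd, act, Fin.sum_univ_six]
  ring

lemma idx_comap (U : Submodule O (Fin 6 → O)) : idx (U.comap crd) = U.toAddSubgroup.index :=
  AddSubgroup.index_comap_of_surjective U.toAddSubgroup (f := (crd (O := O)).toAddMonoidHom)
    crd_surj

open Classical in
lemma tsum_subalg (wt : ℕ → ℝ≥0∞) :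
    ∑' U : Subalg cex O, wt U.1.toAddSubgroup.index
      = LS (fun U : Submodule O (O × O × O × O × O × O) => if IsSub U then wt (idx U) else 0) := by
  let φ : Subalg cex O → {U : Submodule O (O × O × O × O × O × O) // idx U ≠ 0} :=
    fun U => ⟨U.1.comap crd, by rw [idx_comap]; exact U.2.1.index_ne_zero⟩
  have hφ : Function.Injective φ := by
    intro U V h
    apply Subtype.ext
    exact Submodule.comap_injective_of_surjective crd_surj (congrArg Subtype.val h)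
  rw [LS, ← hφ.tsum_eq]
  · refine tsum_congr fun U => ?_
    have h1 : IsSub (U.1.comap crd) := by
      intro x hx y hy
      rw [Submodule.mem_comap, ← crd_mul]
      exact U.2.2 _ hx _ hy
    simp only [φ, if_pos h1, idx_comap]
  · intro U hU
    have h1 : IsSub U.1 := by
      by_contra hc
      simp [hc] at hU
    have h2 : (U.1.map crd).comap crd = U.1 := Submodule.comap_map_eq_of_injective crd_inj _
    refine ⟨⟨U.1.map crd, ⟨?_⟩, ?_⟩, Subtype.ext h2⟩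
    · rw [← idx_comap, h2]; exact U.2
    · rintro _ ⟨x, hx, rfl⟩ _ ⟨y, hy, rfl⟩
      rw [crd_mul]
      exact Submodule.mem_map_of_mem (h1 x hx y hy)

end

lemma ray_lt {q : ℕ} (hq : 2 ≤ q) {s : ℝ} (hs : 3 < s) {r : ℕ × ℕ} (h1 : 1 ≤ r.2)
    (h2 : r.1 ≤ 3 * r.2) : (q : ℝ) ^ r.1 * ((q : ℝ) ^ (-s)) ^ r.2 < 1 := by
  have hq1 : (1 : ℝ) < q := by exact_mod_cast hq
  rw [← Real.rpow_natCast, ← Real.rpow_natCast, ← Real.rpow_mul (by positivity),
    ← Real.rpow_add (by positivity)]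
  apply Real.rpow_lt_one_of_one_lt_of_neg hq1
  have a1 : (1 : ℝ) ≤ r.2 := by exact_mod_cast h1
  have a2 : (r.1 : ℝ) ≤ 3 * r.2 := by exact_mod_cast h2
  nlinarith

lemma ok_rays {T : FT} (h : T.ok = true) :
    (∀ r ∈ T.rays, 1 ≤ r.2 ∧ r.1 ≤ 3 * r.2) ∧ T.rays.length ≤ 6 + T.f1 := by
  simp only [FT.ok, Bool.and_eq_true, List.all_eq_true, decide_eq_true_eq] at h
  exact h.1

lemma val_eq {q : ℕ} (hq : 2 ≤ q) {a : ℝ} (ha : 0 ≤ a) (T : FT)
    (h : ∀ r ∈ T.rays, (q : ℝ) ^ r.1 * a ^ r.2 < 1) :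
    T.val q (ENNReal.ofReal a) ≠ ⊤ ∧ (T.val q (ENNReal.ofReal a)).toReal = T.lv (q : ℝ) a := by
  have e : ∀ r ∈ T.rays, (1 - (q : ℝ≥0∞) ^ r.1 * ENNReal.ofReal a ^ r.2)⁻¹ ≠ ⊤ ∧
      ((1 - (q : ℝ≥0∞) ^ r.1 * ENNReal.ofReal a ^ r.2)⁻¹).toReal
        = (1 - (q : ℝ) ^ r.1 * a ^ r.2)⁻¹ := by
    intro r hr
    have h1 : (1 - (q : ℝ≥0∞) ^ r.1 * ENNReal.ofReal a ^ r.2)
        = ENNReal.ofReal (1 - (q : ℝ) ^ r.1 * a ^ r.2) := by
      rw [ENNReal.ofReal_sub _ (by positivity), ENNReal.ofReal_one,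
        ENNReal.ofReal_mul (by positivity), ENNReal.ofReal_pow ha,
        ENNReal.ofReal_pow (by positivity), ENNReal.ofReal_natCast]
    have h2 : 0 < 1 - (q : ℝ) ^ r.1 * a ^ r.2 := sub_pos.2 (h r hr)
    rw [h1]
    refine ⟨ENNReal.inv_ne_top.2 (ENNReal.ofReal_pos.2 h2).ne', ?_⟩
    rw [ENNReal.toReal_inv, ENNReal.toReal_ofReal h2.le]
  have e2 : ∀ l : List (ℕ × ℕ), (∀ r ∈ l, r ∈ T.rays) →
      (l.map (fun r => (1 - (q : ℝ≥0∞) ^ r.1 * ENNReal.ofReal a ^ r.2)⁻¹)).prod ≠ ⊤ ∧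
      ENNReal.toReal
        (l.map (fun r : ℕ × ℕ => (1 - (q : ℝ≥0∞) ^ r.1 * ENNReal.ofReal a ^ r.2)⁻¹)).prod
        = (l.map (fun r => (1 - (q : ℝ) ^ r.1 * a ^ r.2)⁻¹)).prod := by
    intro l hl
    induction l with
    | nil => simp
    | cons r l ih =>
      have i1 := ih fun j hj => hl j (List.mem_cons_of_mem _ hj)
      have i2 := e r (hl r List.mem_cons_self)
      simp only [List.map_cons, List.prod_cons]
      exact ⟨ENNReal.mul_ne_top i2.1 i1.1, by rw [ENNReal.toReal_mul, i1.2, i2.2]⟩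
  obtain ⟨e3, e4⟩ := e2 T.rays fun _ h => h
  refine ⟨?_, ?_⟩
  · unfold FT.val
    finiteness
  · simp only [FT.val, FT.lv, ENNReal.toReal_mul, ENNReal.toReal_pow, ENNReal.toReal_natCast, e4,
      ENNReal.toReal_ofReal ha]
    rw [Nat.cast_sub hq, Nat.cast_sub (by omega : 1 ≤ q)]
    push_cast
    ring

theorem isLocalZeta {O : Type} [CommRing O] [IsDomain O] [IsDiscreteValuationRing O]
    {π : O} {q : ℕ} (hπ : Irreducible π) (hq : idx (pw π 1) = q) (hq2 : 2 ≤ q) :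
    IsLocalZeta cex O q (locR q) := by
  refine ⟨3, fun s hs => ?_⟩
  have ha : (0 : ℝ) ≤ (q : ℝ) ^ (-s) := by positivity
  have hlt : ∀ T ∈ allTerms, ∀ r ∈ T.rays, (q : ℝ) ^ r.1 * ((q : ℝ) ^ (-s)) ^ r.2 < 1 :=
    fun T hT r hr => ray_lt hq2 hs ((ok_rays (chk_parts.2.1 T hT)).1 r hr).1
      ((ok_rays (chk_parts.2.1 T hT)).1 r hr).2
  have h1 := zeta_terms hπ hq hq2 (ENNReal.ofReal ((q : ℝ) ^ (-s)))
    (fun n => ENNReal.ofReal ((n : ℝ) ^ (-s))) (fun n => by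
      rw [← ENNReal.ofReal_pow ha, Nat.cast_pow, ← Real.rpow_natCast, ← Real.rpow_natCast,
        ← Real.rpow_mul (by positivity), ← Real.rpow_mul (by positivity), mul_comm])
  rw [← tsum_subalg (fun n => ENNReal.ofReal ((n : ℝ) ^ (-s)))] at h1
  have e2 : ∀ l : List FT, (∀ T ∈ l, T ∈ allTerms) →
      (l.map (FT.val q (ENNReal.ofReal ((q : ℝ) ^ (-s))))).sum ≠ ⊤ ∧
      ((l.map (FT.val q (ENNReal.ofReal ((q : ℝ) ^ (-s))))).sum).toReal
        = (l.map (FT.lv (q : ℝ) ((q : ℝ) ^ (-s)))).sum := by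
    intro l hl
    induction l with
    | nil => simp
    | cons r l ih =>
      have i1 := ih fun j hj => hl j (List.mem_cons_of_mem _ hj)
      have i2 := val_eq hq2 ha r (hlt r (hl r List.mem_cons_self))
      simp only [List.map_cons, List.sum_cons]
      exact ⟨ENNReal.add_ne_top.2 ⟨i2.1, i1.1⟩, by rw [ENNReal.toReal_add i2.1 i1.1, i1.2, i2.2]⟩
  obtain ⟨e3, e4⟩ := e2 allTerms fun _ h => h
  rw [(good_loc (algebraMap ℚ ℝ) _ q fun T hT r hr => (sub_pos.2 (hlt T hT r hr)).ne').2, ← e4,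
    ← h1, ENNReal.tsum_toReal_eq fun _ => ENNReal.ofReal_ne_top]
  have h2 := ENNReal.hasSum_toReal (h1 ▸ e3)
  have h3 : ∀ U : Subalg cex O, (ENNReal.ofReal ((U.1.toAddSubgroup.index : ℝ) ^ (-s))).toReal
      = (U.1.toAddSubgroup.index : ℝ) ^ (-s) := fun U => ENNReal.toReal_ofReal (by positivity)
  simp only [h3] at h2 ⊢
  exact h2

theorem isLocalZeta_witt (p : ℕ) [Fact p.Prime] {n : ℕ} (hn : n ≠ 0) :
    IsLocalZeta cex (WittVector p (GaloisField p n)) (p ^ n) (locR (p ^ n)) := by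
  refine isLocalZeta (π := (p : WittVector p (GaloisField p n))) (WittVector.irreducible p) ?_ ?_
  · rw [← GaloisField.card p n hn, ← Nat.card_congr WittVector.quotientPEquiv.toEquiv, idx, pw,
      pow_one]
    rfl
  · exact le_trans (Fact.out : p.Prime).two_le (Nat.le_self_pow hn p)

theorem isLocalZeta_unique {d : ℕ} {c : Fin d → Fin d → Fin d → ℤ} {O : Type} [CommRing O] {q : ℕ}
    (hq : 2 ≤ q) {R S : RatFunc ℚ} (h1 : IsLocalZeta c O q R) (h2 : IsLocalZeta c O q S) :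
    R = S := by
  obtain ⟨s₁, h1⟩ := h1
  obtain ⟨s₂, h2⟩ := h2
  have hq1 : (1 : ℝ) < q := by exact_mod_cast hq
  refine ratFunc_ext (algebraMap ℚ ℝ) R S ((fun s : ℝ => (q : ℝ) ^ (-s)) '' Set.Ioi (max s₁ s₂))
    ((Set.Ioi_infinite _).image fun s _ t _ h => ?_) ?_
  · exact neg_injective ((Real.rpow_right_inj (by positivity) hq1.ne').1 h)
  · rintro _ ⟨s, hs, rfl⟩
    exact (h1 s (lt_of_le_of_lt (le_max_left _ _) hs)).unique
      (h2 s (lt_of_le_of_lt (le_max_right _ _) hs))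

end Pool.Agent.P.MP_512a3e_al
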