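import Pool.Agent.P.MP_512a3e_al.Local

/-! The `l`-adic limit of the local zeta functions. -/

set_option autoImplicit false

namespace Pool.Agent.P.MP_512a3e_al

open Filter Topology

variable {l : ℕ} [Fact l.Prime]

lemma exists_kappa {p : ℕ} (hp : p.Prime) (hpl : p ≠ l) :
    ∃ κ : ℤ_[l] → ℚ_[l], Continuous κ ∧ κ 0 = 1 ∧ (∀ f : ℕ, κ f = (p : ℚ_[l]) ^ ((l - 1) * f)) ∧
      (∀ τ, κ τ ≠ 0) ∧ ∀ (τ : ℤ_[l]) (n : ℕ), n ≠ 0 → κ τ ^ n = 1 → κ τ = 1 := by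
  have hl : l.Prime := Fact.out
  have h1 : ‖((p : ℤ_[l]) ^ (l - 1) - 1)‖ < 1 := by
    have h2 : (l : ℤ) ∣ (p : ℤ) ^ (l - 1) - 1 := by
      have h3 : Nat.Coprime p l := (Nat.coprime_primes hp hl).2 hpl
      have h4 := Nat.ModEq.pow_totient h3
      rw [Nat.totient_prime hl] at h4
      have h5 := (Nat.modEq_iff_dvd.1 h4.symm)
      exact_mod_cast h5
    have := (PadicInt.norm_int_lt_one_iff_dvd (p := l) _).2 h2
    exact_mod_cast this
  have hr := tendsto_pow_atTop_nhds_zero_of_norm_lt_one h1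
  set κ : AddChar ℤ_[l] ℤ_[l] := PadicInt.addChar_of_value_at_one _ hr with hκ
  have hc : Continuous κ := PadicInt.continuous_addChar_of_value_at_one hr
  have hone : κ 1 = (p : ℤ_[l]) ^ (l - 1) := by
    rw [hκ, PadicInt.addChar_of_value_at_one_def]; ring
  have hnat : ∀ f : ℕ, κ f = (p : ℤ_[l]) ^ ((l - 1) * f) := by
    intro f
    rw [← nsmul_one, AddChar.map_nsmul_eq_pow, hone, pow_mul]
  have hker : ∀ τ, κ τ = 1 → τ = 0 := by
    intro τ h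
    by_contra hτ
    have h2 : ∀ m : ℤ_[l], κ (m * τ) = 1 := by
      intro m
      refine congrFun (PadicInt.denseRange_natCast.equalizer (g := fun m => κ (m * τ))
        (h := fun _ => 1) (by fun_prop) continuous_const (funext fun n => ?_)) m
      simp only [Function.comp]
      rw [← nsmul_eq_mul, AddChar.map_nsmul_eq_pow, h, one_pow]
    have h3 := h2 ((PadicInt.unitCoeff hτ)⁻¹ : ℤ_[l]ˣ)
    have h4 : (((PadicInt.unitCoeff hτ)⁻¹ : ℤ_[l]ˣ) : ℤ_[l]) * τ = ((l ^ τ.valuation : ℕ) : ℤ_[l]) := by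
      rw [Units.inv_mul_eq_iff_eq_mul, Nat.cast_pow]
      exact PadicInt.unitCoeff_spec hτ
    rw [h4, hnat] at h3
    have h5 : p ^ ((l - 1) * l ^ τ.valuation) = 1 := by exact_mod_cast h3
    rw [Nat.pow_eq_one] at h5
    rcases h5 with h5 | h5
    · exact hp.one_lt.ne' h5
    · have := hl.two_le
      exact mul_ne_zero (by omega) (pow_ne_zero _ hl.ne_zero) h5
  refine ⟨fun τ => (κ τ : ℚ_[l]), continuous_subtype_val.comp hc, by simp, fun f => ?_, fun τ => ?_,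
    fun τ n hn h => ?_⟩
  · simp only [hnat]; push_cast; rfl
  · have : κ τ * κ (-τ) = 1 := by rw [← AddChar.map_add_eq_mul, add_neg_cancel, AddChar.map_zero_eq_one]
    have h2 : κ τ ≠ 0 := left_ne_zero_of_mul_eq_one this
    simpa using h2
  · have h2 : κ τ ^ n = 1 := by
      have h' : ((κ τ : ℤ_[l]) : ℚ_[l]) ^ n = 1 := h
      rw [← PadicInt.coe_pow] at h'
      exact Subtype.ext h'
    rw [← AddChar.map_nsmul_eq_pow] at h2
    have h3 := hker _ h2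
    rw [nsmul_eq_mul, mul_eq_zero] at h3
    rcases h3 with h3 | h3
    · exact absurd (Nat.cast_eq_zero.1 h3) hn
    · simp [h3]

variable (l) in
/-- the sequence `F` on the positive integers extends continuously to the `l`-adic integers, with
value `v` at zero -/
def Ext (v : ℚ) (F : ℕ → ℚ) : Prop :=
  ∃ g : ℤ_[l] → ℚ_[l], Continuous g ∧ (∀ f : ℕ, 1 ≤ f → g f = F f) ∧ g 0 = v

lemma Ext.add {v w : ℚ} {F G : ℕ → ℚ} (h1 : Ext l v F) (h2 : Ext l w G) :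
    Ext l (v + w) (fun f => F f + G f) := by
  obtain ⟨g, a1, a2, a3⟩ := h1
  obtain ⟨h, b1, b2, b3⟩ := h2
  exact ⟨fun τ => g τ + h τ, a1.add b1, fun f hf => by simp [a2 f hf, b2 f hf], by simp [a3, b3]⟩

lemma Ext.mul {v w : ℚ} {F G : ℕ → ℚ} (h1 : Ext l v F) (h2 : Ext l w G) :
    Ext l (v * w) (fun f => F f * G f) := by
  obtain ⟨g, a1, a2, a3⟩ := h1
  obtain ⟨h, b1, b2, b3⟩ := h2
  exact ⟨fun τ => g τ * h τ, a1.mul b1, fun f hf => by simp [a2 f hf, b2 f hf], by simp [a3, b3]⟩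

lemma Ext.const (v : ℚ) : Ext l v (fun _ => v) :=
  ⟨fun _ => v, continuous_const, fun _ _ => rfl, rfl⟩

lemma Ext.congr {v w : ℚ} {F G : ℕ → ℚ} (h1 : Ext l v F) (h2 : v = w)
    (h3 : ∀ f, 1 ≤ f → F f = G f) : Ext l w G := by
  obtain ⟨g, a1, a2, a3⟩ := h1
  exact ⟨g, a1, fun f hf => by rw [a2 f hf, h3 f hf], by rw [a3, h2]⟩

lemma Ext.pow {v : ℚ} {F : ℕ → ℚ} (h1 : Ext l v F) (n : ℕ) : Ext l (v ^ n) (fun f => F f ^ n) := by
  obtain ⟨g, a1, a2, a3⟩ := h1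
  exact ⟨fun τ => g τ ^ n, a1.pow n, fun f hf => by simp [a2 f hf], by simp [a3]⟩

lemma Ext.sum {ι : Type*} (L : List ι) (v : ι → ℚ) (F : ι → ℕ → ℚ)
    (h : ∀ i ∈ L, Ext l (v i) (F i)) : Ext l (L.map v).sum (fun f => (L.map (fun i => F i f)).sum) := by
  induction L with
  | nil => exact Ext.const 0
  | cons i L ih =>
    exact (h i List.mem_cons_self).add (ih fun j hj => h j (List.mem_cons_of_mem _ hj))

lemma Ext.prod {ι : Type*} (L : List ι) (v : ι → ℚ) (F : ι → ℕ → ℚ)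
    (h : ∀ i ∈ L, Ext l (v i) (F i)) :
    Ext l (L.map v).prod (fun f => (L.map (fun i => F i f)).prod) := by
  induction L with
  | nil => exact Ext.const 1
  | cons i L ih =>
    exact (h i List.mem_cons_self).mul (ih fun j hj => h j (List.mem_cons_of_mem _ hj))

section
variable {p : ℕ} (hp : p.Prime) (hpl : p ≠ l)
include hp hpl

lemma ext_zpow (z : ℤ) : Ext l 1 (fun f => ((p : ℚ) ^ ((l - 1) * f)) ^ z) := by
  obtain ⟨κ, h1, h2, h3, h4, -⟩ := exists_kappa hp hpl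
  exact ⟨fun τ => κ τ ^ z, h1.zpow₀ z fun τ => Or.inl (h4 τ), fun f _ => by simp [h3],
    by simp [h2]⟩

lemma ext_geom {m : ℕ} (hm : m ≠ 0) :
    Ext l (m : ℚ)⁻¹ (fun f => (∑ i ∈ Finset.range m, ((p : ℚ) ^ ((l - 1) * f)) ^ i)⁻¹) := by
  obtain ⟨κ, h1, h2, h3, -, h5⟩ := exists_kappa hp hpl
  refine ⟨fun τ => (∑ i ∈ Finset.range m, κ τ ^ i)⁻¹, Continuous.inv₀ (by fun_prop) fun τ h => ?_,
    fun f _ => by simp [h3], by simp [h2]⟩
  have h6 := geom_sum_mul (κ τ) m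
  rw [h, zero_mul] at h6
  have h7 := h5 τ m hm (sub_eq_zero.1 h6.symm)
  simp [h7, hm] at h

omit hpl in
lemma one_lt_Q {f : ℕ} (hf : 1 ≤ f) : (1 : ℚ) < (p : ℚ) ^ ((l - 1) * f) := by
  have hl : l.Prime := Fact.out
  have := hl.two_le
  exact one_lt_pow₀ (by exact_mod_cast hp.one_lt) (mul_ne_zero (by omega) (by omega))

lemma ext_ray {n : ℤ} (hn : n ≠ 0) :
    Ext l (-n : ℚ)⁻¹ (fun f => ((p : ℚ) ^ ((l - 1) * f) - 1) *
      (1 - ((p : ℚ) ^ ((l - 1) * f)) ^ n)⁻¹) := by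
  obtain ⟨m, rfl | rfl⟩ := n.eq_nat_or_neg
  · have hm : m ≠ 0 := by simpa using hn
    refine ((Ext.const (-1)).mul (ext_geom hp hpl hm)).congr (by simp [inv_neg]) fun f hf => ?_
    have h1 := one_lt_Q (l := l) hp hf
    generalize (p : ℚ) ^ ((l - 1) * f) = Q at h1 ⊢
    have h2 : Q - 1 ≠ 0 := (sub_pos.2 h1).ne'
    rw [zpow_natCast, ← neg_sub (Q ^ m), ← geom_sum_mul, inv_neg, mul_inv]
    field_simp
  · have hm : m ≠ 0 := by simpa using hn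
    refine ((ext_zpow hp hpl m).mul (ext_geom hp hpl hm)).congr (by simp) fun f hf => ?_
    have h1 := one_lt_Q (l := l) hp hf
    generalize (p : ℚ) ^ ((l - 1) * f) = Q at h1 ⊢
    have h2 : Q - 1 ≠ 0 := (sub_pos.2 h1).ne'
    have h3 : Q ^ m ≠ 0 := by positivity
    have h4 : 1 - Q ^ (-(m : ℤ)) = (Q ^ m)⁻¹ * (Q ^ m - 1) := by
      rw [zpow_neg, zpow_natCast]; field_simp
    rw [h4, zpow_natCast, ← geom_sum_mul, mul_inv, mul_inv, inv_inv]
    field_simp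

lemma ext_term (s : ℤ) (T : FT) (h1 : T.rays.length ≤ 6 + T.f1)
    (h2 : ∀ r ∈ T.rays, (r.1 : ℤ) - s * r.2 ≠ 0) :
    Ext l (T.tv s) (fun f => (1 - ((p : ℚ) ^ ((l - 1) * f))⁻¹) ^ 6 *
      T.lv ((p : ℚ) ^ ((l - 1) * f)) (((p : ℚ) ^ ((l - 1) * f)) ^ (-s))) := by
  have a1 := ext_zpow hp hpl 1
  have a2 := (((((ext_zpow hp hpl (-6)).mul ((a1.add (Ext.const (-2))).pow T.f2)).mul
    (a1.pow T.a0)).mul ((ext_zpow hp hpl (-s)).pow T.b0)).mul
    ((a1.add (Ext.const (-1))).pow (6 + T.f1 - T.rays.length))).mul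
    (Ext.prod T.rays _ _ fun r hr => ext_ray hp hpl (h2 r hr))
  refine a2.congr ?_ fun f hf => ?_
  · unfold FT.tv
    split_ifs with h
    · rw [h, Nat.sub_self]
      have : ∀ r : ℕ × ℕ, (-(((r.1 : ℤ) - s * r.2 : ℤ) : ℚ))⁻¹ = ((r.2 : ℚ) * s - r.1)⁻¹ := by
        intro r; push_cast; congr 1; ring
      simp only [this]
      norm_num
    · rw [add_neg_cancel, zero_pow (by omega)]
      simp
  · have h3 := one_lt_Q (l := l) hp hf
    generalize (p : ℚ) ^ ((l - 1) * f) = Q at h3 ⊢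
    have h4 : Q ≠ 0 := by positivity
    have h5 : ∀ r : ℕ × ℕ, Q ^ ((r.1 : ℤ) - s * r.2) = Q ^ r.1 * (Q ^ (-s)) ^ r.2 := by
      intro r
      rw [← zpow_natCast, ← zpow_natCast, ← zpow_mul, ← zpow_add₀ h4]
      congr 1; ring
    have h6 : ∀ (L : List (ℕ × ℕ)) (g : ℕ × ℕ → ℚ),
        (L.map (fun r => (Q - 1) * g r)).prod = (Q - 1) ^ L.length * (L.map g).prod := by
      intro L g
      rw [List.prod_map_mul]; simp
    simp only [h5, h6, FT.lv, zpow_one]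
    have h7 : (Q - 1) ^ (6 + T.f1 - T.rays.length) * (Q - 1) ^ T.rays.length
        = (Q - 1) ^ 6 * (Q - 1) ^ T.f1 := by
      rw [← pow_add, ← pow_add, Nat.sub_add_cancel h1]
    have h8 : (1 - Q⁻¹) ^ 6 = Q ^ (-6 : ℤ) * (Q - 1) ^ 6 := by
      rw [zpow_neg, zpow_ofNat]; field_simp
    rw [h8, ← sub_eq_add_neg, ← sub_eq_add_neg]
    linear_combination (Q ^ (-6 : ℤ) * (Q - 2) ^ T.f2 * Q ^ T.a0 * (Q ^ (-s)) ^ T.b0 *
      (T.rays.map (fun r => (1 - Q ^ r.1 * (Q ^ (-s)) ^ r.2)⁻¹)).prod) * h7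

end

lemma ray_ne {s : ℤ} (hs : s ∉ ({0, 1, 2, 3} : Finset ℤ)) {r : ℕ × ℕ} (h1 : 1 ≤ r.2)
    (h2 : r.1 ≤ 3 * r.2) : (r.1 : ℤ) - s * r.2 ≠ 0 := by
  simp only [Finset.mem_insert, Finset.mem_singleton, not_or] at hs
  have a1 : (1 : ℤ) ≤ r.2 := by exact_mod_cast h1
  have a2 : (r.1 : ℤ) ≤ 3 * r.2 := by exact_mod_cast h2
  have a3 : (0 : ℤ) ≤ r.1 := Int.natCast_nonneg _
  intro h
  rcases lt_or_ge s 0 with h3 | h3
  · nlinarith
  · have : 4 ≤ s := by omega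
    nlinarith

theorem isTopZeta : IsTopZeta cex topZ := by
  refine ⟨{0, 1, 2, 3}, fun l _ => ⟨{l}, fun p _ hpl => ⟨l - 1, ?_, fun s hs => ?_⟩⟩⟩
  · have := (Fact.out : l.Prime).two_le
    omega
  have hp : p.Prime := Fact.out
  have hpl' : p ≠ l := by simpa using hpl
  have hr : ∀ T ∈ allTerms, ∀ r ∈ T.rays, (r.1 : ℤ) - s * r.2 ≠ 0 := fun T hT r hr =>
    ray_ne hs ((ok_rays (chk_parts.2.1 T hT)).1 r hr).1 ((ok_rays (chk_parts.2.1 T hT)).1 r hr).2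
  have h1 := good_top (s : ℚ) fun T hT r hr' h => hr T hT r hr' (by
    have : (((r.1 : ℤ) - s * r.2 : ℤ) : ℚ) = 0 := by push_cast; linarith
    exact_mod_cast this)
  obtain ⟨g, g1, g2, g3⟩ := Ext.sum (l := l) allTerms _ _ fun T hT =>
    ext_term hp hpl' s T (ok_rays (chk_parts.2.1 T hT)).2 (hr T hT)
  refine ⟨h1.1, g, g1, fun f hf => ⟨_, ?_, g2 f hf⟩, by rw [g3, h1.2]⟩
  have hn : (l - 1) * f ≠ 0 := by
    have := (Fact.out : l.Prime).two_le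
    exact mul_ne_zero (by omega) (by omega)
  have h3 := one_lt_Q (l := l) hp hf
  have h2 := good_loc (RingHom.id ℚ) (((p : ℚ) ^ ((l - 1) * f)) ^ (-s)) (p ^ ((l - 1) * f))
    fun T hT r hr' h => hr T hT r hr' (by
      push_cast at h
      generalize (p : ℚ) ^ ((l - 1) * f) = Q at h3 h
      rw [← zpow_natCast, ← zpow_natCast, ← zpow_mul, ← zpow_add₀ (by positivity), sub_eq_zero,
        eq_comm, zpow_eq_one_iff_right₀ (by positivity) h3.ne'] at h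
      linarith)
  refine ⟨locR (p ^ ((l - 1) * f)), isLocalZeta_witt p hn, h2.1, ?_⟩
  rw [h2.2, ← List.sum_map_mul_left]
  push_cast
  rfl

theorem isLocalValue_unique {d : ℕ} {c : Fin d → Fin d → Fin d → ℤ} {p : ℕ} [Fact p.Prime] {n : ℕ}
    (hn : n ≠ 0) {s : ℤ} {v w : ℚ} (h1 : IsLocalValue c p n s v) (h2 : IsLocalValue c p n s w) :
    v = w := by
  obtain ⟨R, a1, -, a2⟩ := h1
  obtain ⟨S, b1, -, b2⟩ := h2
  rw [a2, b2, isLocalZeta_unique (le_trans (Fact.out : p.Prime).two_le (Nat.le_self_pow hn p)) a1 b1]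

theorem isTopZeta_unique {d : ℕ} {c : Fin d → Fin d → Fin d → ℤ} {Z Z' : RatFunc ℚ}
    (h1 : IsTopZeta c Z) (h2 : IsTopZeta c Z') : Z = Z' := by
  obtain ⟨H, h1⟩ := h1
  obtain ⟨H', h2⟩ := h2
  obtain ⟨B, h1⟩ := h1 2
  obtain ⟨B', h2⟩ := h2 2
  obtain ⟨p, hp1, hp2⟩ := Nat.infinite_setOfPred_prime.exists_notMem_finset (B ∪ B')
  have : Fact p.Prime := ⟨hp1⟩
  rw [Finset.mem_union, not_or] at hp2
  obtain ⟨D, hD, h1⟩ := h1 p hp2.1
  obtain ⟨D', hD', h2⟩ := h2 p hp2.2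
  refine ratFunc_ext (RingHom.id ℚ) Z Z' ((fun s : ℤ => (s : ℚ)) '' ((H ∪ H' : Finset ℤ) : Set ℤ)ᶜ)
    (((Finset.finite_toSet _).infinite_compl).image Int.cast_injective.injOn) ?_
  rintro _ ⟨s, hs, rfl⟩
  rw [Set.mem_compl_iff, Finset.mem_coe, Finset.mem_union, not_or] at hs
  obtain ⟨-, g, g1, g2, g3⟩ := h1 s hs.1
  obtain ⟨-, g', g1', g2', g3'⟩ := h2 s hs.2
  have key : ∀ τ : ℤ_[2], g (D' * (τ + 1)) = g' (D * (τ + 1)) := by
    intro τ
    refine congrFun (PadicInt.denseRange_natCast.equalizer (g := fun τ : ℤ_[2] => g ((D' : ℤ_[2]) * (τ + 1)))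
      (h := fun τ : ℤ_[2] => g' ((D : ℤ_[2]) * (τ + 1))) (by fun_prop) (by fun_prop) (funext fun n => ?_)) τ
    obtain ⟨v, a1, a2⟩ := g2 (D' * (n + 1)) (Nat.mul_pos hD' n.succ_pos)
    obtain ⟨w, b1, b2⟩ := g2' (D * (n + 1)) (Nat.mul_pos hD n.succ_pos)
    rw [show D' * (D * (n + 1)) = D * (D' * (n + 1)) by ring] at b1
    have := isLocalValue_unique (Nat.mul_pos hD (Nat.mul_pos hD' n.succ_pos)).ne' a1 b1
    push_cast at a2 b2
    simp only [Function.comp, a2, b2, this]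
  have h3 := key (-1)
  simp only [neg_add_cancel, mul_zero, g3, g3'] at h3
  exact_mod_cast h3

end Pool.Agent.P.MP_512a3e_al
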