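import Pool.Agent.P.MP_512a3e_al.Struct

/-! The subalgebra sum as an explicit sum over integer parameters. -/

set_option autoImplicit false
set_option linter.unusedSectionVars false

namespace Pool.Agent.P.MP_512a3e_al

open scoped ENNReal
open Classical

variable {O : Type*} [CommRing O] [IsDomain O] [IsDiscreteValuationRing O]
variable {π : O} {q : ℕ}

lemma NN_struct (hπ : Irreducible π) (hq : idx (pw π 1) = q) (hq0 : q ≠ 0) (α β γ δ : ℕ) (x y : O) :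
    (∃ r₀, NN π α β x (ext π γ y (pw π δ))
      = ext π (eS α β γ δ (cv π β x) (cv π δ y)) r₀ (N1 π α β x (ext π γ y (pw π δ)))) ∧
    (ext π γ y (pw π δ) ≤ N1 π α β x (ext π γ y (pw π δ)) →
      ridx (ext π γ y (pw π δ)) (N1 π α β x (ext π γ y (pw π δ)))
        = q ^ kS α β γ δ (cv π β x) (cv π δ y)) := by
  obtain ⟨u, hu⟩ := exists_norm hπ β x
  obtain ⟨v, hv⟩ := exists_norm hπ δ y
  have e1 : ext π γ y (pw π δ) = ext π γ (v * π ^ cv π δ y) (pw π δ) := ext_congr (mem_pw.2 hv)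
  have e2 : ∀ M, NN π α β x M = NN π α β (u * π ^ cv π β x) M := fun M => NN_congr M hu
  have e3 : ∀ M, N1 π α β x M = N1 π α β (u * π ^ cv π β x) M := fun M => by
    simp only [N1, e2]
  rw [e1, e2, e3]
  refine ⟨NN_eq_ext hπ u v (cv_le _ _ _) (cv_le _ _ _), fun hle => ?_⟩
  have h1 := ridx_mul_idx hle
  rw [idx_N1 hπ hq u v (cv_le _ _ _), idx_ext hπ.ne_zero hq, idx_pw hπ.ne_zero hq, ← pow_add] at h1
  have hq1 : 1 < q := by
    by_contra hc
    have : q = 1 := by omega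
    rw [this, idx, AddSubgroup.index_eq_one] at hq
    have h2 : (1 : O) ∈ pw π 1 := by
      have : (1 : O) ∈ (pw π 1).toAddSubgroup := by rw [hq]; trivial
      exact this
    rw [mem_pw, pow_one] at h2
    exact hπ.not_isUnit (isUnit_of_dvd_one h2)
  have h2 : sS α β γ δ (cv π β x) (cv π δ y) + bS α γ δ (cv π δ y) ≤ γ + δ := by
    rw [← Nat.pow_dvd_pow_iff_le_right hq1]
    exact Dvd.intro_left _ h1
  apply mul_right_cancel₀ (pow_ne_zero (sS α β γ δ (cv π β x) (cv π δ y) + bS α γ δ (cv π δ y)) hq0)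
  rw [h1, ← pow_add, kS]
  congr 1; omega

lemma geo_sum (a t : ℝ≥0∞) (e : ℕ) :
    ∑' k : ℕ, (if e ≤ k then a ^ (k - e) * t ^ k else 0) = t ^ e * (1 - a * t)⁻¹ := by
  have hinj : Function.Injective (fun k : ℕ => k + e) := add_left_injective e
  rw [← hinj.tsum_eq, ← ENNReal.tsum_geometric, ← ENNReal.tsum_mul_left]
  · refine tsum_congr fun k => ?_
    rw [if_pos (by omega), Nat.add_sub_cancel, mul_pow, pow_add]; ring
  · intro k hk
    by_cases h : e ≤ k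
    · exact ⟨k - e, by simp only; omega⟩
    · simp [h] at hk

/-- summand after the reduction to two rank two lattices -/
noncomputable def Psi (q : ℕ) (t : ℝ≥0∞) (α β γ δ η ξ : ℕ) : ℝ≥0∞ :=
  (q : ℝ≥0∞) ^ (4 * kS α β γ δ ξ η) * t ^ (α + β + γ + δ + eS α β γ δ ξ η)

lemma zeta_step1 (hπ : Irreducible π) (hq : idx (pw π 1) = q) (hq0 : q ≠ 0) (t : ℝ≥0∞)
    (wt : ℕ → ℝ≥0∞) (hwt : ∀ n, wt (q ^ n) = t ^ n) :
    LS (fun U : Submodule O (O × O × O × O × O × O) => if IsSub U then wt (idx U) else 0)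
      = (1 - (q : ℝ≥0∞) ^ 2 * t)⁻¹ * (1 - (q : ℝ≥0∞) ^ 3 * t)⁻¹ *
        ∑' α, ∑' β, ∑' γ, ∑' δ, S (pw π δ) (fun y => S (pw π β) (fun x =>
          if ext π γ y (pw π δ) ≤ N1 π α β x (ext π γ y (pw π δ)) then
            Psi q t α β γ δ (cv π δ y) (cv π β x) else 0)) := by
  rw [LS_ext hπ hq hq0]
  simp only [LS_ext hπ hq hq0, LS_one hπ hq hq0]
  rw [← ENNReal.tsum_mul_left]
  refine tsum_congr fun α => ?_
  rw [← ENNReal.tsum_mul_left]
  refine tsum_congr fun β => ?_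
  have hsw : ∀ f : ℕ → ℕ → ℕ → ℕ → ℝ≥0∞,
      ∑' a, ∑' b, ∑' c, ∑' d, f a b c d = ∑' c, ∑' d, ∑' a, ∑' b, f a b c d := by
    intro f
    calc ∑' a, ∑' b, ∑' c, ∑' d, f a b c d = ∑' a, ∑' c, ∑' d, ∑' b, f a b c d := by
          refine tsum_congr fun a => ?_
          rw [ENNReal.tsum_comm]
          exact tsum_congr fun c => ENNReal.tsum_comm
      _ = ∑' c, ∑' d, ∑' a, ∑' b, f a b c d := by
          rw [ENNReal.tsum_comm]
          exact tsum_congr fun c => ENNReal.tsum_comm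
  rw [hsw, ← ENNReal.tsum_mul_left]
  refine tsum_congr fun γ => ?_
  rw [← ENNReal.tsum_mul_left]
  refine tsum_congr fun δ => ?_
  simp only [S_tsum]
  rw [← S_mul_left]
  apply S_congr
  intro y
  set M := ext π γ y (pw π δ) with hM
  have hMi : idx M = q ^ (γ + δ) := by
    rw [hM, idx_ext hπ.ne_zero hq, idx_pw hπ.ne_zero hq, pow_add]
  have hM0 : idx M ≠ 0 := by rw [hMi]; positivity
  simp only [← S_tsum]
  have h1 : ∀ α₃ α₄, S M (fun r₄ => S (ext π α₄ r₄ M) (fun z₃ => S (ext π α₃ z₃ (ext π α₄ r₄ M))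
      (fun r₂ => S (ext π β r₂ (ext π α₃ z₃ (ext π α₄ r₄ M))) (fun r₁ =>
        if IsSub (ext π α r₁ (ext π β r₂ (ext π α₃ z₃ (ext π α₄ r₄ M)))) then
          wt (idx (ext π α r₁ (ext π β r₂ (ext π α₃ z₃ (ext π α₄ r₄ M))))) else 0))))
      = S (pw π β) (fun x => if M ≤ N1 π α β x M then
          (((q : ℝ≥0∞) ^ 2 * t) ^ α₃ * (if eS α β γ δ (cv π β x) (cv π δ y) ≤ α₄ then
            ((q : ℝ≥0∞) ^ 3) ^ (α₄ - eS α β γ δ (cv π β x) (cv π δ y)) * t ^ α₄ else 0)) *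
            ((q : ℝ≥0∞) ^ (4 * kS α β γ δ (cv π β x) (cv π δ y)) * t ^ (α + β + γ + δ)) else 0) := by
    intro α₃ α₄
    have h2 : ∀ r₄ z₃ r₂ r₁, (if IsSub (ext π α r₁ (ext π β r₂ (ext π α₃ z₃ (ext π α₄ r₄ M)))) then
          wt (idx (ext π α r₁ (ext π β r₂ (ext π α₃ z₃ (ext π α₄ r₄ M))))) else 0)
        = (if IsSub (ext π α r₁ (ext π β r₂ (ext π α₃ z₃ (ext π α₄ r₄ M)))) then 1 else 0) *
          t ^ (α + (β + (α₃ + (α₄ + (γ + δ))))) := by
      intro r₄ z₃ r₂ r₁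
      simp only [idx_ext hπ.ne_zero hq, hMi, ← pow_add, hwt]
      split_ifs <;> simp
    simp only [h2, S_mul_right, inner_sum hπ hq hq0 α β α₃ α₄ M hM0]
    rw [S_comm, ← S_mul_right]
    apply S_congr
    intro x
    obtain ⟨⟨r₀, h3⟩, h4⟩ := NN_struct hπ hq hq0 α β γ δ x y
    rw [← hM] at h3 h4
    rw [h3, S_le_ext hπ hq hq0 hM0 (fun n => (q : ℝ≥0∞) ^ (2 * α₃) * (n : ℝ≥0∞) ^ 3)]
    by_cases h5 : M ≤ N1 π α β x M
    · rw [if_pos h5, if_pos h5, h4 h5]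
      split_ifs
      · push_cast; ring
      · simp
    · rw [if_neg h5, if_neg h5, zero_mul]
  simp only [h1, S_tsum]
  rw [← S_mul_left]
  apply S_congr
  intro x
  split_ifs
  · simp only [ENNReal.tsum_mul_right, ENNReal.tsum_mul_left, geo_sum, ENNReal.tsum_geometric, Psi]
    ring
  · simp

/-- the sum over `x` -/
noncomputable def Xsum (q : ℕ) (α β γ δ η θ : ℕ) (Ψ : ℕ → ℝ≥0∞) : ℝ≥0∞ :=
  (if δ ≤ β + θ ∧ γ ≤ α + η ∧ α + 2 * η - γ < δ ∧ θ ≤ α + 2 * η - γ then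
      (q : ℝ≥0∞) ^ (β + θ - δ) * Ψ (α + 2 * η - γ - θ) else 0)
  + (∑' ξ, if δ ≤ β + θ ∧ γ ≤ α + η ∧ δ ≤ α + 2 * η - γ ∧ δ ≤ ξ + θ ∧ ξ < β then
      ((q - 1 : ℕ) : ℝ≥0∞) * (q : ℝ≥0∞) ^ (β - ξ - 1) * Ψ ξ else 0)
  + (if δ ≤ β + θ ∧ γ ≤ α + η ∧ δ ≤ α + 2 * η - γ then Ψ β else 0)

lemma x_sum (hπ : Irreducible π) (hq : idx (pw π 1) = q) (hq0 : q ≠ 0) (α β γ δ : ℕ) (y : O)
    (Ψ : ℕ → ℝ≥0∞) :
    S (pw π β) (fun x => if ext π γ y (pw π δ) ≤ N1 π α β x (ext π γ y (pw π δ)) then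
        Ψ (cv π β x) else 0)
      = Xsum q α β γ δ (cv π δ y) (cv π δ (π ^ γ + y)) Ψ := by
  obtain ⟨v, hv⟩ := exists_norm hπ δ y
  have e1 : ext π γ y (pw π δ) = ext π γ (v * π ^ cv π δ y) (pw π δ) := ext_congr (mem_pw.2 hv)
  obtain ⟨w, hw⟩ := exists_norm hπ δ (π ^ γ + y)
  have hη := cv_le π δ y
  have hθ := cv_le π δ (π ^ γ + y)
  set η := cv π δ y
  set θ := cv π δ (π ^ γ + y)
  have hw' : π ^ δ ∣ (π ^ γ + v * π ^ η) - w * π ^ θ := by
    have := dvd_sub hw hv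
    convert this using 1; ring
  have c1 : π ^ δ ∣ π ^ β * (π ^ γ + v * π ^ η) ↔ δ ≤ β + θ := by
    rw [← pow_dvd_unit_mul hπ w]
    have : π ^ β * (π ^ γ + v * π ^ η)
        = π ^ β * ((π ^ γ + v * π ^ η) - w * π ^ θ) + w * π ^ (β + θ) := by rw [pow_add]; ring
    rw [this]
    exact dvd_add_right (dvd_mul_of_dvd_right hw' _)
  set lam := α + 2 * η - γ with hlam
  have c3 : ∀ x : O, π ^ δ ∣ x * (π ^ γ + v * π ^ η) - v * v * π ^ lam ↔
      π ^ δ ∣ w * π ^ θ * x - v * v * π ^ lam := by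
    intro x
    have : x * (π ^ γ + v * π ^ η) - v * v * π ^ lam
        = x * ((π ^ γ + v * π ^ η) - w * π ^ θ) + (w * π ^ θ * x - v * v * π ^ lam) := by ring
    rw [this]
    exact dvd_add_right (dvd_mul_of_dvd_right hw' _)
  simp only [e1, inv_iff hπ _ v hη, c1, ← hlam, c3, Xsum]
  by_cases hc : δ ≤ β + θ ∧ γ ≤ α + η
  swap
  · have f1 : ∀ P : Prop, (δ ≤ β + θ ∧ γ ≤ α + η ∧ P) = False := fun P =>
      eq_false fun h => hc ⟨h.1, h.2.1⟩
    simp only [f1, if_false, S_zero, tsum_zero, add_zero]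
  simp only [hc.1, hc.2, true_and]
  by_cases h1 : lam < δ
  · have f1 : ∀ P : Prop, (δ ≤ lam ∧ P) = False := fun P => eq_false fun h => by omega
    simp only [f1, if_false, tsum_zero, add_zero, h1, true_and, if_neg (not_le.2 h1)]
    by_cases h2 : θ ≤ lam
    · rw [if_pos h2, show β + θ - δ = β - (δ - θ) by omega,
        ← count_dvd hπ hq hq0 (show δ - θ ≤ β by omega) (↑(w⁻¹ * v * v) * π ^ (lam - θ)),
        ← S_mul_right]
      apply S_congr
      intro x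
      have c4 : π ^ δ ∣ w * π ^ θ * x - v * v * π ^ lam ↔
          π ^ (δ - θ) ∣ x - ↑(w⁻¹ * v * v) * π ^ (lam - θ) := by
        rw [← pow_dvd_mul_iff hπ w]
        have : (w : O) * π ^ θ * (x - ↑(w⁻¹ * v * v) * π ^ (lam - θ))
            = w * π ^ θ * x - v * v * π ^ lam := by
          rw [pow_split (show lam = θ + (lam - θ) by omega)]
          have := w.mul_inv
          simp only [Units.val_mul]
          linear_combination (-(v * v * π ^ θ * π ^ (lam - θ))) * this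
        rw [this]
      rw [c4]
      split_ifs with h3
      · rw [one_mul]
        congr 1
        have h4 : cv π (δ - θ) x = lam - θ := by
          rw [cv_congr h3, cv_unit_mul hπ _ (by omega)]
        apply le_antisymm
        · by_contra h5
          have h6 : π ^ (lam - θ + 1) ∣ x := (dvd_iff_le_cv (k := β) (by omega)).2 (by omega)
          have := (dvd_iff_le_cv (k := δ - θ) (by omega)).1 h6
          omega
        · rw [← dvd_iff_le_cv (by omega), ← h4]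
          exact pow_cv_dvd _ _ _
      · simp
    · rw [if_neg h2]
      refine Eq.trans (S_congr fun x => if_neg fun h => h1.not_ge ?_) (S_zero _)
      refine le_of_dvd_add hπ (-(v * v)) (B := π ^ θ * (w * x)) ?_ (dvd_pow_mul (by omega) _)
      convert h using 1
      simp only [Units.val_neg, Units.val_mul]; ring
  · have h1' : δ ≤ lam := not_lt.1 h1
    simp only [h1, false_and, if_false, zero_add, h1', true_and, if_true]
    have := S_cv hπ hq hq0 β 0 (fun ξ => if δ ≤ ξ + θ then Ψ ξ else 0)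
    simp only [sub_zero, if_pos (show δ ≤ β + θ from hc.1)] at this
    rw [← show (∑' j, if j < β then ((q - 1 : ℕ) : ℝ≥0∞) * (q : ℝ≥0∞) ^ (β - j - 1) *
        (if δ ≤ j + θ then Ψ j else 0) else 0) = ∑' ξ, if δ ≤ ξ + θ ∧ ξ < β then
      ((q - 1 : ℕ) : ℝ≥0∞) * (q : ℝ≥0∞) ^ (β - ξ - 1) * Ψ ξ else 0 from
        tsum_congr fun j => by split_ifs <;> first | omega | simp, ← this]
    apply S_congr
    intro x
    have c4 : π ^ δ ∣ w * π ^ θ * x - v * v * π ^ lam ↔ δ ≤ cv π β x + θ := by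
      rw [dvd_sub_left (dvd_mul_of_dvd_right (pow_dvd_pow π h1') _), pow_dvd_mul_iff hπ,
        dvd_iff_le_cv (k := β) (by omega)]
      omega
    simp only [c4]

/-- the sum over `y` -/
noncomputable def Ysum (q : ℕ) (γ δ : ℕ) (H : ℕ → ℕ → ℝ≥0∞) : ℝ≥0∞ :=
  (∑' j, if j < γ ∧ j < δ then
      ((q - 1 : ℕ) : ℝ≥0∞) * (q : ℝ≥0∞) ^ (δ - j - 1) * H j j else 0)
  + (if δ ≤ γ then H δ δ else 0)
  + (∑' j, if γ < j ∧ j < δ then
      ((q - 1 : ℕ) : ℝ≥0∞) * (q : ℝ≥0∞) ^ (δ - j - 1) * H j γ else 0)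
  + (if γ < δ then H δ γ else 0)
  + (if γ < δ then ((q - 2 : ℕ) : ℝ≥0∞) * (q : ℝ≥0∞) ^ (δ - γ - 1) * H γ γ else 0)
  + (∑' j, if γ < j ∧ j < δ then
      ((q - 1 : ℕ) : ℝ≥0∞) * (q : ℝ≥0∞) ^ (δ - j - 1) * H γ j else 0)
  + (if γ < δ then H γ δ else 0)

theorem zeta_param (hπ : Irreducible π) (hq : idx (pw π 1) = q) (hq2 : 2 ≤ q) (t : ℝ≥0∞)
    (wt : ℕ → ℝ≥0∞) (hwt : ∀ n, wt (q ^ n) = t ^ n) :
    LS (fun U : Submodule O (O × O × O × O × O × O) => if IsSub U then wt (idx U) else 0)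
      = (1 - (q : ℝ≥0∞) ^ 2 * t)⁻¹ * (1 - (q : ℝ≥0∞) ^ 3 * t)⁻¹ *
        ∑' α, ∑' β, ∑' γ, ∑' δ,
          Ysum q γ δ (fun η θ => Xsum q α β γ δ η θ (Psi q t α β γ δ η)) := by
  have hq0 : q ≠ 0 := by omega
  rw [zeta_step1 hπ hq hq0 t wt hwt]
  congr 1
  refine tsum_congr fun α => tsum_congr fun β => tsum_congr fun γ => tsum_congr fun δ => ?_
  rw [Ysum, ← S_y hπ hq hq2 γ δ (fun η θ => Xsum q α β γ δ η θ (Psi q t α β γ δ η))]
  exact S_congr fun y => x_sum hπ hq hq0 α β γ δ y _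

end Pool.Agent.P.MP_512a3e_al
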