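import Pool.Agent.P.MP_512a3e_al.Bridge

/-! The local and the limiting rational functions attached to the list of terms. -/

set_option autoImplicit false

namespace Pool.Agent.P.MP_512a3e_al

open Polynomial

/-- `R` is regular at `a` with value `v` -/
def Good {L : Type} [Field L] (f : ℚ →+* L) (a : L) (R : RatFunc ℚ) (v : L) : Prop :=
  eval₂ f a R.denom ≠ 0 ∧ RatFunc.eval f a R = v

section
variable {L : Type} [Field L] {f : ℚ →+* L} {a : L}

lemma Good.add {R S : RatFunc ℚ} {v w : L} (h1 : Good f a R v) (h2 : Good f a S w) :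
    Good f a (R + S) (v + w) := by
  refine ⟨fun h => ?_, by rw [RatFunc.eval_add f a h1.1 h2.1, h1.2, h2.2]⟩
  obtain ⟨P, hP⟩ := RatFunc.denom_add_dvd R S
  have := congrArg (eval₂ f a) hP
  rw [eval₂_mul, eval₂_mul, h, zero_mul] at this
  exact mul_ne_zero h1.1 h2.1 this

lemma Good.mul {R S : RatFunc ℚ} {v w : L} (h1 : Good f a R v) (h2 : Good f a S w) :
    Good f a (R * S) (v * w) := by
  refine ⟨fun h => ?_, by rw [RatFunc.eval_mul f a h1.1 h2.1, h1.2, h2.2]⟩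
  obtain ⟨P, hP⟩ := RatFunc.denom_mul_dvd R S
  have := congrArg (eval₂ f a) hP
  rw [eval₂_mul, eval₂_mul, h, zero_mul] at this
  exact mul_ne_zero h1.1 h2.1 this

lemma Good.poly (P : ℚ[X]) : Good f a (algebraMap ℚ[X] (RatFunc ℚ) P) (eval₂ f a P) := by
  refine ⟨by simp [RatFunc.denom_algebraMap], ?_⟩
  rw [RatFunc.eval_algebraMap]; rfl

lemma Good.inv_poly (P : ℚ[X]) (h : eval₂ f a P ≠ 0) :
    Good f a (algebraMap ℚ[X] (RatFunc ℚ) P)⁻¹ (eval₂ f a P)⁻¹ := by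
  have hP : P ≠ 0 := by rintro rfl; simp at h
  have h1 : eval₂ f a (algebraMap ℚ[X] (RatFunc ℚ) P)⁻¹.denom ≠ 0 := by
    intro h2
    obtain ⟨Q, hQ⟩ := RatFunc.denom_div_dvd (1 : ℚ[X]) P
    rw [map_one, one_div] at hQ
    rw [hQ, eval₂_mul, h2, zero_mul] at h
    exact h rfl
  refine ⟨h1, ?_⟩
  have h3 := RatFunc.eval_mul f a h1 (Good.poly (f := f) (a := a) P).1
  rw [inv_mul_cancel₀ (RatFunc.algebraMap_ne_zero hP), RatFunc.eval_one, (Good.poly P).2] at h3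
  exact eq_inv_of_mul_eq_one_left h3.symm

lemma Good.zero : Good f a 0 0 := by simpa using Good.poly (f := f) (a := a) 0

lemma Good.one : Good f a 1 1 := by simpa using Good.poly (f := f) (a := a) 1

lemma Good.sum {ι : Type*} (l : List ι) (R : ι → RatFunc ℚ) (v : ι → L)
    (h : ∀ i ∈ l, Good f a (R i) (v i)) : Good f a (l.map R).sum (l.map v).sum := by
  induction l with
  | nil => exact Good.zero
  | cons i l ih =>
    exact (h i List.mem_cons_self).add (ih fun j hj => h j (List.mem_cons_of_mem _ hj))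

lemma Good.prod {ι : Type*} (l : List ι) (R : ι → RatFunc ℚ) (v : ι → L)
    (h : ∀ i ∈ l, Good f a (R i) (v i)) : Good f a (l.map R).prod (l.map v).prod := by
  induction l with
  | nil => exact Good.one
  | cons i l ih =>
    exact (h i List.mem_cons_self).mul (ih fun j hj => h j (List.mem_cons_of_mem _ hj))

end

/-- the term as a rational function of `X = q ^ (-s)` -/
noncomputable def FT.loc (q : ℕ) (T : FT) : RatFunc ℚ :=
  algebraMap ℚ[X] (RatFunc ℚ)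
      (C (((q : ℚ) - 1) ^ T.f1 * ((q : ℚ) - 2) ^ T.f2 * (q : ℚ) ^ T.a0) * X ^ T.b0) *
    (T.rays.map (fun r =>
      (algebraMap ℚ[X] (RatFunc ℚ) (1 - C ((q : ℚ) ^ r.1) * X ^ r.2))⁻¹)).prod

/-- the value of the term -/
noncomputable def FT.lv {L : Type} [Field L] (q a : L) (T : FT) : L :=
  (q - 1) ^ T.f1 * (q - 2) ^ T.f2 * q ^ T.a0 * a ^ T.b0 *
    (T.rays.map (fun r => (1 - q ^ r.1 * a ^ r.2)⁻¹)).prod

noncomputable def locR (q : ℕ) : RatFunc ℚ := (allTerms.map (FT.loc q)).sum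

lemma good_loc {L : Type} [Field L] (f : ℚ →+* L) (a : L) (q : ℕ)
    (h : ∀ T ∈ allTerms, ∀ r ∈ T.rays, 1 - (q : L) ^ r.1 * a ^ r.2 ≠ 0) :
    Good f a (locR q) (allTerms.map (FT.lv (q : L) a)).sum := by
  refine Good.sum _ _ _ fun T hT => ?_
  have h1 := Good.poly (f := f) (a := a)
    (C (((q : ℚ) - 1) ^ T.f1 * ((q : ℚ) - 2) ^ T.f2 * (q : ℚ) ^ T.a0) * X ^ T.b0)
  have h2 := Good.prod (f := f) (a := a) T.rays (fun r =>
      (algebraMap ℚ[X] (RatFunc ℚ) (1 - C ((q : ℚ) ^ r.1) * X ^ r.2))⁻¹)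
      (fun r => (1 - (q : L) ^ r.1 * a ^ r.2)⁻¹) (fun r hr => by
        have e : eval₂ f a (1 - C ((q : ℚ) ^ r.1) * X ^ r.2) = 1 - (q : L) ^ r.1 * a ^ r.2 := by
          simp [eval₂_sub, eval₂_mul, eval₂_pow]
        rw [← e]
        exact Good.inv_poly _ (by rw [e]; exact h T hT r hr))
  have h3 := h1.mul h2
  have e : eval₂ f a (C (((q : ℚ) - 1) ^ T.f1 * ((q : ℚ) - 2) ^ T.f2 * (q : ℚ) ^ T.a0) * X ^ T.b0)
      = ((q : L) - 1) ^ T.f1 * ((q : L) - 2) ^ T.f2 * (q : L) ^ T.a0 * a ^ T.b0 := by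
    rw [eval₂_mul, eval₂_C, eval₂_X_pow]
    simp only [map_mul, map_pow, map_sub, map_natCast, map_one, map_ofNat]
  rw [e] at h3
  exact h3

/-- the linear form `b X - a` -/
noncomputable def lin (r : ℕ × ℕ) : ℚ[X] := C (r.2 : ℚ) * X - C (r.1 : ℚ)

/-- the limit of the term -/
noncomputable def FT.top (T : FT) : RatFunc ℚ :=
  if T.rays.length = 6 + T.f1 then
    RatFunc.C ((-1) ^ T.f2) * (T.rays.map (fun r => (algebraMap ℚ[X] (RatFunc ℚ) (lin r))⁻¹)).prod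
  else 0

def FT.tv (s : ℚ) (T : FT) : ℚ :=
  if T.rays.length = 6 + T.f1 then
    (-1) ^ T.f2 * (T.rays.map (fun r => ((r.2 : ℚ) * s - r.1)⁻¹)).prod
  else 0

noncomputable def topZ : RatFunc ℚ := (allTerms.map FT.top).sum

lemma good_top (s : ℚ) (h : ∀ T ∈ allTerms, ∀ r ∈ T.rays, (r.2 : ℚ) * s - r.1 ≠ 0) :
    Good (RingHom.id ℚ) s topZ (allTerms.map (FT.tv s)).sum := by
  refine Good.sum _ _ _ fun T hT => ?_
  unfold FT.top FT.tv
  split_ifs
  · refine Good.mul ?_ (Good.prod _ _ _ fun r hr => ?_)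
    · simpa using Good.poly (f := RingHom.id ℚ) (a := s) (C ((-1) ^ T.f2))
    · have e : eval₂ (RingHom.id ℚ) s (lin r) = (r.2 : ℚ) * s - r.1 := by
        simp [lin, eval₂_sub, eval₂_mul]
      rw [← e]
      exact Good.inv_poly _ (by rw [e]; exact h T hT r hr)
  · exact Good.zero

/-- regular at zero -/
def Reg (R : RatFunc ℚ) : Prop := ∃ v, Good (RingHom.id ℚ) 0 R v

lemma Reg.add {R S : RatFunc ℚ} (h1 : Reg R) (h2 : Reg S) : Reg (R + S) :=
  ⟨_, h1.choose_spec.add h2.choose_spec⟩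

lemma Reg.mul {R S : RatFunc ℚ} (h1 : Reg R) (h2 : Reg S) : Reg (R * S) :=
  ⟨_, h1.choose_spec.mul h2.choose_spec⟩

lemma Reg.C (c : ℚ) : Reg (RatFunc.C c) := ⟨_, by simpa using Good.poly (Polynomial.C c)⟩

lemma Reg.X : Reg RatFunc.X := ⟨_, by simpa using Good.poly Polynomial.X⟩

lemma Reg.zero : Reg 0 := ⟨_, Good.zero⟩

/-- `X ^ k * R = j0 + j1 X + O(X ^ 2)` -/
def Jet (k : ℕ) (R : RatFunc ℚ) (j0 j1 : ℚ) : Prop :=
  ∃ S, Reg S ∧ RatFunc.X ^ k * R = RatFunc.C j0 + RatFunc.C j1 * RatFunc.X + RatFunc.X ^ 2 * S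

lemma Jet.mul {k l : ℕ} {R S : RatFunc ℚ} {a0 a1 b0 b1 : ℚ} (h1 : Jet k R a0 a1)
    (h2 : Jet l S b0 b1) : Jet (k + l) (R * S) (a0 * b0) (a0 * b1 + a1 * b0) := by
  obtain ⟨U, hU, e1⟩ := h1
  obtain ⟨V, hV, e2⟩ := h2
  refine ⟨RatFunc.C a1 * RatFunc.C b1 + (RatFunc.C a0 + RatFunc.C a1 * RatFunc.X) * V
    + U * (RatFunc.C b0 + RatFunc.C b1 * RatFunc.X + RatFunc.X * RatFunc.X * V), ?_, ?_⟩
  · exact (((Reg.C _).mul (Reg.C _)).add (((Reg.C _).add ((Reg.C _).mul Reg.X)).mul hV)).add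
      (hU.mul (((Reg.C _).add ((Reg.C _).mul Reg.X)).add ((Reg.X.mul Reg.X).mul hV)))
  · rw [pow_add, mul_mul_mul_comm, e1, e2]
    simp only [map_add, map_mul]
    ring

lemma Jet.add {k : ℕ} {R S : RatFunc ℚ} {a0 a1 b0 b1 : ℚ} (h1 : Jet k R a0 a1)
    (h2 : Jet k S b0 b1) : Jet k (R + S) (a0 + b0) (a1 + b1) := by
  obtain ⟨U, hU, e1⟩ := h1
  obtain ⟨V, hV, e2⟩ := h2
  refine ⟨U + V, hU.add hV, ?_⟩
  rw [mul_add, e1, e2]
  simp only [map_add]
  ring

lemma algebraMap_lin (r : ℕ × ℕ) : algebraMap ℚ[X] (RatFunc ℚ) (lin r)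
    = RatFunc.C (r.2 : ℚ) * RatFunc.X - RatFunc.C (r.1 : ℚ) := by
  simp only [lin, map_sub, map_mul, RatFunc.algebraMap_C, RatFunc.algebraMap_X]

lemma jet_lin_zero (r : ℕ × ℕ) (h1 : r.1 = 0) (h2 : 1 ≤ r.2) :
    Jet 1 (algebraMap ℚ[X] (RatFunc ℚ) (lin r))⁻¹ (1 / r.2) 0 := by
  refine ⟨0, Reg.zero, ?_⟩
  have h3 : (r.2 : ℚ) ≠ 0 := by positivity
  have h4 : RatFunc.C (r.2 : ℚ) ≠ 0 := by
    rw [Ne, map_eq_zero]; exact h3
  have h5 : (RatFunc.X : RatFunc ℚ) ≠ 0 := RatFunc.X_ne_zero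
  rw [algebraMap_lin, h1]
  simp only [Nat.cast_zero, map_zero, sub_zero, one_div, map_inv₀]
  field_simp
  ring

lemma jet_lin_ne (r : ℕ × ℕ) (h1 : r.1 ≠ 0) :
    Jet 0 (algebraMap ℚ[X] (RatFunc ℚ) (lin r))⁻¹ (-1 / r.1) (-(r.2 : ℚ) / (r.1 * r.1)) := by
  have h3 : (r.1 : ℚ) ≠ 0 := by positivity
  have e : eval₂ (RingHom.id ℚ) 0 (lin r) ≠ 0 := by
    simpa [lin, eval₂_sub, eval₂_mul] using h1
  have hP : lin r ≠ 0 := by intro h; simp [h] at e
  refine ⟨RatFunc.C ((r.2 : ℚ) * r.2 / (r.1 * r.1)) * (algebraMap ℚ[X] (RatFunc ℚ) (lin r))⁻¹,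
    (Reg.C _).mul ⟨_, Good.inv_poly _ e⟩, ?_⟩
  have h4 : RatFunc.C (r.1 : ℚ) ≠ 0 := by
    rw [Ne, map_eq_zero]; exact h3
  have h5 := RatFunc.algebraMap_ne_zero hP
  rw [algebraMap_lin] at h5 ⊢
  simp only [map_div₀, map_mul, map_neg, map_one]
  field_simp
  ring

lemma jet_prod (l : List (ℕ × ℕ)) (h : ∀ r ∈ l, 1 ≤ r.2) :
    Jet (l.filter (fun r => r.1 = 0)).length
      (l.map (fun r => (algebraMap ℚ[X] (RatFunc ℚ) (lin r))⁻¹)).prod (jet l).1 (jet l).2 := by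
  induction l with
  | nil => exact ⟨0, Reg.zero, by simp [jet]⟩
  | cons r l ih =>
    have ih' := ih fun j hj => h j (List.mem_cons_of_mem _ hj)
    by_cases h1 : r.1 = 0
    · have := (jet_lin_zero r h1 (h r List.mem_cons_self)).mul ih'
      simp only [jet, h1, if_true, List.filter_cons, decide_true, List.length_cons, List.map_cons,
        List.prod_cons]
      convert this using 1 <;> ring
    · have := (jet_lin_ne r h1).mul ih'
      simp only [jet, h1, if_false, List.filter_cons, decide_false, List.map_cons,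
        List.prod_cons]
      convert this using 1
      · simp
      · ring
      · ring

lemma Jet.succ {k : ℕ} {R : RatFunc ℚ} {a0 a1 : ℚ} (h : Jet k R a0 a1) : Jet (k + 1) R 0 a0 := by
  obtain ⟨S, hS, e⟩ := h
  refine ⟨RatFunc.C a1 + RatFunc.X * S, (Reg.C _).add (Reg.X.mul hS), ?_⟩
  rw [pow_succ', mul_assoc, e, map_zero]
  ring

lemma jet_top (T : FT) (h : T.ok = true) : Jet 2 T.top T.jet2.1 T.jet2.2 := by
  simp only [FT.ok, Bool.and_eq_true, List.all_eq_true, decide_eq_true_eq] at h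
  obtain ⟨⟨h1, h2⟩, h3⟩ := h
  have h4 := jet_prod T.rays fun r hr => (h1 r hr).1
  have h5 : Jet 0 (RatFunc.C ((-1) ^ T.f2)) ((-1) ^ T.f2) 0 := ⟨0, Reg.zero, by simp⟩
  have h6 := h5.mul h4
  unfold FT.top FT.jet2
  split_ifs with c1 c2 c3
  · rw [c2] at h6
    simpa using h6
  · rw [c3] at h6
    exact h6.succ
  · have c4 : (T.rays.filter (fun r => r.1 = 0)).length = 0 := by omega
    rw [c4] at h6
    exact h6.succ.succ
  · exact ⟨0, Reg.zero, by simp⟩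

lemma jet_sum (l : List FT) (h : ∀ T ∈ l, T.ok = true) :
    Jet 2 (l.map FT.top).sum (l.map (fun T => T.jet2.1)).sum (l.map (fun T => T.jet2.2)).sum := by
  induction l with
  | nil => exact ⟨0, Reg.zero, by simp⟩
  | cons T l ih =>
    exact (jet_top T (h T List.mem_cons_self)).add (ih fun j hj => h j (List.mem_cons_of_mem _ hj))

theorem topZ_reg : topZ.denom.eval 0 ≠ 0 := by
  have h := jet_sum allTerms chk_parts.2.1
  rw [chk_parts.2.2.1, chk_parts.2.2.2] at h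
  obtain ⟨S, ⟨v, hS⟩, e⟩ := h
  simp only [map_zero, zero_mul, zero_add] at e
  have := mul_left_cancel₀ (pow_ne_zero 2 RatFunc.X_ne_zero) e
  rw [topZ, this]
  exact hS.1

/-- rational functions that agree at infinitely many points are equal -/
lemma ratFunc_ext {L : Type} [Field L] (f : ℚ →+* L) (R S : RatFunc ℚ) (A : Set L) (hA : A.Infinite)
    (h : ∀ a ∈ A, RatFunc.eval f a R = RatFunc.eval f a S) : R = S := by
  have hf := f.injective
  have fin : ∀ P : ℚ[X], P ≠ 0 → {a : L | eval₂ f a P = 0}.Finite := by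
    intro P hP
    have h1 : P.map f ≠ 0 := (Polynomial.map_ne_zero_iff hf).2 hP
    refine (Polynomial.finite_setOfPred_isRoot h1).subset fun a ha => ?_
    simpa [IsRoot, eval_map] using ha
  by_contra hne
  have h1 : R.num * S.denom - S.num * R.denom ≠ 0 := by
    intro h2
    apply hne
    rw [← RatFunc.num_div_denom R, ← RatFunc.num_div_denom S, div_eq_div_iff
      (RatFunc.algebraMap_ne_zero R.denom_ne_zero) (RatFunc.algebraMap_ne_zero S.denom_ne_zero),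
      ← map_mul, ← map_mul, sub_eq_zero.1 h2]
  apply hA
  refine (((fin _ h1).union (fin _ R.denom_ne_zero)).union (fin _ S.denom_ne_zero)).subset
    fun a ha => ?_
  by_contra hc
  simp only [Set.mem_union, Set.mem_ofPred_eq, not_or] at hc
  obtain ⟨⟨c1, c2⟩, c3⟩ := hc
  apply c1
  have h3 := h a ha
  rw [RatFunc.eval, RatFunc.eval, div_eq_div_iff c2 c3] at h3
  rw [eval₂_sub, eval₂_mul, eval₂_mul, h3, sub_self]

end Pool.Agent.P.MP_512a3e_al
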