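import Pool.Agent.P.MP_512a3e_al.Count

/-! Explicit structure of the lattices `NN` in terms of capped valuations. -/

set_option autoImplicit false
set_option linter.unusedSectionVars false

namespace Pool.Agent.P.MP_512a3e_al

open scoped ENNReal
open Classical

variable {O : Type*} [CommRing O] [IsDomain O] [IsDiscreteValuationRing O]
variable {π : O} {q : ℕ}

/-- the exponents -/
def sS (α β γ δ ξ η : ℕ) : ℕ := max (δ - β) (min δ ((α - γ) + η) - ξ)
def bS (α γ δ η : ℕ) : ℕ := γ + δ - (α + η)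
def kS (α β γ δ ξ η : ℕ) : ℕ := γ + δ - (sS α β γ δ ξ η + bS α γ δ η)
def eS (α β γ δ ξ η : ℕ) : ℕ :=
  γ - max (max (min ξ η) (min (η + β - δ) (ξ + γ - α))) (ξ + η - δ)

lemma mem_M {γ δ : ℕ} {y : O} {p : O × O} :
    p ∈ ext π γ y (pw π δ) ↔ ∃ k : O, p.1 = k * π ^ γ ∧ π ^ δ ∣ p.2 - k * y := by
  simp only [mem_ext, mem_pw, smul_eq_mul]

lemma pow_dvd_mul_iff (hπ : Irreducible π) (u : Oˣ) (k j : ℕ) (c : O) :
    π ^ k ∣ u * π ^ j * c ↔ π ^ (k - j) ∣ c := by
  rw [mul_assoc, Units.dvd_mul_left]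
  rcases le_total k j with h | h
  · rw [Nat.sub_eq_zero_of_le h, pow_zero]
    exact ⟨fun _ => one_dvd _, fun _ => dvd_mul_of_dvd_left (pow_dvd_pow π h) _⟩
  · obtain ⟨m, rfl⟩ := Nat.exists_eq_add_of_le h
    rw [pow_add, mul_dvd_mul_iff_left (pow_ne_zero _ hπ.ne_zero), Nat.add_sub_cancel_left]

lemma pow_dvd_pow_mul_iff (hπ : Irreducible π) (k j : ℕ) (c : O) :
    π ^ k ∣ π ^ j * c ↔ π ^ (k - j) ∣ c := by
  simpa using pow_dvd_mul_iff hπ 1 k j c

lemma le_of_dvd_add (hπ : Irreducible π) (u : Oˣ) {k i : ℕ} {B : O}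
    (h : π ^ k ∣ u * π ^ i + B) (hB : π ^ (i + 1) ∣ B) : k ≤ i := by
  by_contra hc
  have h1 : π ^ (i + 1) ∣ u * π ^ i + B := dvd_trans (pow_dvd_pow π (by omega)) h
  have h2 := (dvd_add_left hB).1 h1
  rw [pow_dvd_unit_mul hπ] at h2
  omega

lemma dvd_pow_mul {k j : ℕ} (h : k ≤ j) (c : O) : π ^ k ∣ π ^ j * c :=
  dvd_mul_of_dvd_left (pow_dvd_pow π h) _

lemma pow_split {a b c : ℕ} (h : a = b + c) : π ^ a = π ^ b * π ^ c := by rw [h, pow_add]

lemma mem_NN' {α β γ δ : ℕ} {x y c a b : O} :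
    (c, a, b) ∈ NN π α β x (ext π γ y (pw π δ)) ↔
      (∃ ρ : O, π ^ α * b + x * c = ρ * π ^ γ ∧ π ^ δ ∣ x * (a + b) - ρ * y) ∧
      (∃ k : O, π ^ β * c = k * π ^ γ ∧ π ^ δ ∣ π ^ β * (a + b) - k * y) := by
  simp only [mem_NN, mem_M, act_apply, zero_mul, zero_add]

lemma NN_congr {α β : ℕ} {x x' : O} (M : Submodule O (O × O)) (h : π ^ β ∣ x - x') :
    NN π α β x M = NN π α β x' M := by
  obtain ⟨k, hk⟩ := h
  have e : ∀ z, act (π ^ α) x z = act (π ^ α) x' z + k • act 0 (π ^ β) z := by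
    intro z
    have := act_comb 1 k (π ^ α) x' 0 (π ^ β) z
    rw [one_smul] at this
    rw [← this]
    congr 2
    · ring
    · rw [one_mul, mul_comm, ← hk]; ring
  ext z
  simp only [mem_NN, e]
  constructor
  · rintro ⟨h1, h2⟩
    exact ⟨by simpa using M.sub_mem h1 (M.smul_mem k h2), h2⟩
  · rintro ⟨h1, h2⟩
    exact ⟨M.add_mem h1 (M.smul_mem k h2), h2⟩

/-- the part of `NN` with vanishing first coordinate -/
def N1 (π : O) (α β : ℕ) (x : O) (M : Submodule O (O × O)) : Submodule O (O × O) :=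
  (NN π α β x M).comap (LinearMap.inr O O (O × O))

lemma mem_N1 (hπ : Irreducible π) {α β γ δ : ℕ} {x y a b : O} :
    (a, b) ∈ N1 π α β x (ext π γ y (pw π δ)) ↔
      (∃ ρ : O, π ^ α * b = ρ * π ^ γ ∧ π ^ δ ∣ x * (a + b) - ρ * y) ∧
      π ^ δ ∣ π ^ β * (a + b) := by
  have : (a, b) ∈ N1 π α β x (ext π γ y (pw π δ)) ↔
      ((0 : O), a, b) ∈ NN π α β x (ext π γ y (pw π δ)) := Iff.rfl
  rw [this, mem_NN']
  simp only [mul_zero, add_zero]
  refine and_congr_right fun _ => ⟨?_, fun h => ⟨0, by simp, by simpa using h⟩⟩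
  rintro ⟨k, hk, hk'⟩
  have : k = 0 := by
    rcases mul_eq_zero.1 hk.symm with h | h
    · exact h
    · exact absurd h (pow_ne_zero _ hπ.ne_zero)
  simpa [this] using hk'

lemma idx_N1 (hπ : Irreducible π) (hq : idx (pw π 1) = q) {α β γ δ ξ η : ℕ} (u v : Oˣ)
    (hη : η ≤ δ) :
    idx (N1 π α β (u * π ^ ξ) (ext π γ (v * π ^ η) (pw π δ)))
      = q ^ (sS α β γ δ ξ η + bS α γ δ η) := by
  let e : (O × O) →ₗ[O] (O × O) :=
    { toFun := fun z => (z.1 - z.2, z.2)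
      map_add' := by intro a b; ext <;> simp; ring
      map_smul' := by intro c a; ext <;> simp; ring }
  set N := N1 π α β (u * π ^ ξ) (ext π γ (v * π ^ η) (pw π δ)) with hN
  have h1 : idx (N.comap e) = idx N :=
    AddSubgroup.index_comap_of_surjective N.toAddSubgroup (f := e.toAddMonoidHom)
      (fun z => ⟨(z.1 + z.2, z.2), by ext <;> simp [e]⟩)
  have hmem : ∀ s b : O, (s, b) ∈ N.comap e ↔
      (∃ ρ : O, π ^ α * b = ρ * π ^ γ ∧ π ^ δ ∣ u * π ^ ξ * s - ρ * (v * π ^ η)) ∧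
      π ^ δ ∣ π ^ β * s := by
    intro s b
    have : (s, b) ∈ N.comap e ↔ (s - b, b) ∈ N := Iff.rfl
    rw [this, hN, mem_N1 hπ, sub_add_cancel]
  obtain ⟨r, hr⟩ : ∃ r, (π ^ sS α β γ δ ξ η, r) ∈ N.comap e := by
    by_cases h : δ ≤ ξ + sS α β γ δ ξ η
    · refine ⟨0, (hmem _ _).2 ⟨⟨0, by simp, ?_⟩, ?_⟩⟩
      · rw [zero_mul, sub_zero, mul_assoc, ← pow_add, pow_dvd_unit_mul hπ]; exact h
      · rw [← pow_add]; apply pow_dvd_pow; unfold sS; omega
    · have h' : α - γ + η ≤ ξ + sS α β γ δ ξ η := by unfold sS at h ⊢; omega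
      set s := sS α β γ δ ξ η with hs
      refine ⟨u * ↑v⁻¹ * π ^ (ξ + s - η + γ - α), (hmem _ _).2
        ⟨⟨u * ↑v⁻¹ * π ^ (ξ + s - η), ?_, ?_⟩, ?_⟩⟩
      · rw [mul_left_comm, ← pow_add, mul_assoc (u * ↑v⁻¹ : O), ← pow_add]
        congr 2; omega
      · have : (u : O) * ↑v⁻¹ * π ^ (ξ + s - η) * (v * π ^ η) = u * π ^ ξ * π ^ s := by
          rw [mul_assoc (u : O) (π ^ ξ), ← pow_add, pow_split (show ξ + s = (ξ + s - η) + η by omega)]
          have := v.inv_mul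
          linear_combination (u * π ^ (ξ + s - η) * π ^ η) * this
        rw [this, sub_self]; exact dvd_zero _
      · rw [← pow_add]; apply pow_dvd_pow; rw [hs]; unfold sS; omega
  have h2 := eq_ext_of (π := π) hr (by
    rintro ⟨s, b⟩ hz
    obtain ⟨⟨ρ, h3, h4⟩, h5⟩ := (hmem _ _).1 hz
    rw [pow_dvd_pow_mul_iff hπ] at h5
    have h6 : π ^ (α - γ) ∣ ρ := by
      rw [← pow_dvd_pow_mul_iff hπ, mul_comm, ← h3]; exact Dvd.intro _ rfl
    have h7 : π ^ (min δ (α - γ + η)) ∣ u * π ^ ξ * s := by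
      have h8 : π ^ (min δ (α - γ + η)) ∣ ρ * (v * π ^ η) := by
        refine dvd_trans (pow_dvd_pow π (min_le_right _ _)) ?_
        rw [pow_add]
        exact mul_dvd_mul h6 (Dvd.intro_left _ rfl)
      simpa using dvd_add (dvd_trans (pow_dvd_pow π (min_le_left _ _)) h4) h8
    rw [pow_dvd_mul_iff hπ] at h7
    show π ^ sS α β γ δ ξ η ∣ s
    unfold sS
    rcases max_choice (δ - β) (min δ (α - γ + η) - ξ) with h | h <;> rw [h] <;> assumption)
  have h3 : (N.comap e).comap (LinearMap.inr O O O) = pw π (bS α γ δ η) := by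
    ext b
    have : b ∈ (N.comap e).comap (LinearMap.inr O O O) ↔ ((0 : O), b) ∈ N.comap e := Iff.rfl
    rw [this, hmem, mem_pw]
    simp only [mul_zero, dvd_zero, and_true, zero_sub, dvd_neg]
    unfold bS
    constructor
    · rintro ⟨ρ, h4, h5⟩
      rw [← pow_dvd_mul_iff hπ v]
      have : (v : O) * π ^ (α + η) * b = π ^ γ * (ρ * (v * π ^ η)) := by
        rw [pow_add]; linear_combination (v * π ^ η) * h4
      rw [this, pow_add]
      exact mul_dvd_mul_left _ h5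
    · rintro ⟨c, rfl⟩
      refine ⟨π ^ (α + (γ + δ - (α + η)) - γ) * c, ?_, ?_⟩
      · rw [← mul_assoc, ← pow_add, mul_right_comm, ← pow_add]
        congr 2; omega
      · have : π ^ (α + (γ + δ - (α + η)) - γ) * c * (v * π ^ η)
            = π ^ (α + (γ + δ - (α + η)) - γ + η) * (c * v) := by rw [pow_add]; ring
        rw [this]
        exact dvd_pow_mul (by omega) _
  rw [← h1, h2, h3, idx_ext hπ.ne_zero hq, idx_pw hπ.ne_zero hq, pow_add]

lemma NN_eq_ext (hπ : Irreducible π) {α β γ δ ξ η : ℕ} (u v : Oˣ) (hξ : ξ ≤ β) (hη : η ≤ δ) :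
    ∃ r₀, NN π α β (u * π ^ ξ) (ext π γ (v * π ^ η) (pw π δ))
      = ext π (eS α β γ δ ξ η) r₀ (N1 π α β (u * π ^ ξ) (ext π γ (v * π ^ η) (pw π δ))) := by
  set e := eS α β γ δ ξ η with he
  obtain ⟨r, hr⟩ : ∃ r, (π ^ e, r) ∈ NN π α β (u * π ^ ξ) (ext π γ (v * π ^ η) (pw π δ)) := by
    have hcases : (γ ≤ ξ + e ∧ γ ≤ η + e) ∨ (γ + δ ≤ η + β + e ∧ α ≤ ξ + e ∧ γ ≤ β + e) ∨
        (γ + δ ≤ ξ + η + e) := by
      rw [he]; unfold eS; omega
    rcases hcases with ⟨h1, h2⟩ | ⟨h1, h2, h3⟩ | h1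
    · refine ⟨(v * π ^ (η + e - γ), 0), mem_NN'.2 ⟨⟨u * π ^ (ξ + e - γ), ?_, ?_⟩,
        ⟨π ^ (β + e - γ), ?_, ?_⟩⟩⟩
      · rw [mul_zero, zero_add, mul_assoc, mul_assoc, ← pow_add, ← pow_add]; congr 2; omega
      · have : (u : O) * π ^ ξ * (v * π ^ (η + e - γ) + 0) - u * π ^ (ξ + e - γ) * (v * π ^ η)
            = u * v * (π ^ (ξ + (η + e - γ)) - π ^ (ξ + e - γ + η)) := by
          rw [pow_add, pow_add]; ring
        rw [this, show ξ + (η + e - γ) = ξ + e - γ + η by omega, sub_self, mul_zero]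
        exact dvd_zero _
      · rw [← pow_add, ← pow_add]; congr 1; omega
      · have : π ^ β * ((v : O) * π ^ (η + e - γ) + 0) - π ^ (β + e - γ) * (v * π ^ η)
            = v * (π ^ (β + (η + e - γ)) - π ^ (β + e - γ + η)) := by
          rw [pow_add, pow_add]; ring
        rw [this, show β + (η + e - γ) = β + e - γ + η by omega, sub_self, mul_zero]
        exact dvd_zero _
    · refine ⟨(u * π ^ (ξ + e - α), -(u * π ^ (ξ + e - α))), mem_NN'.2 ⟨⟨0, ?_, by simp⟩,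
        ⟨π ^ (β + e - γ), ?_, ?_⟩⟩⟩
      · have : π ^ α * -((u : O) * π ^ (ξ + e - α)) + u * π ^ ξ * π ^ e
            = u * (π ^ (ξ + e) - π ^ (α + (ξ + e - α))) := by
          rw [pow_add, pow_add]; ring
        rw [this, show α + (ξ + e - α) = ξ + e by omega]; simp
      · rw [← pow_add, ← pow_add]; congr 1; omega
      · rw [add_neg_cancel, mul_zero, zero_sub, dvd_neg, mul_left_comm, ← pow_add,
          pow_dvd_unit_mul hπ]
        omega
    · refine ⟨(0, 0), mem_NN'.2 ⟨⟨u * π ^ (ξ + e - γ), ?_, ?_⟩, ⟨π ^ (β + e - γ), ?_, ?_⟩⟩⟩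
      · rw [mul_zero, zero_add, mul_assoc, mul_assoc, ← pow_add, ← pow_add]; congr 2; omega
      · have : (u : O) * π ^ ξ * (0 + 0) - u * π ^ (ξ + e - γ) * (v * π ^ η)
            = π ^ (ξ + e - γ + η) * (-(u * v)) := by rw [pow_add]; ring
        rw [this]; exact dvd_pow_mul (by omega) _
      · rw [← pow_add, ← pow_add]; congr 1; omega
      · rw [add_zero, mul_zero, zero_sub, dvd_neg, mul_left_comm, ← pow_add,
          pow_dvd_unit_mul hπ]
        omega
  refine ⟨r, eq_ext_of hr ?_⟩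
  rintro ⟨c, a, b⟩ hz
  obtain ⟨⟨ρ, h1, h2⟩, ⟨k, h3, h4⟩⟩ := mem_NN'.1 hz
  show π ^ e ∣ c
  by_cases hc : c = 0
  · rw [hc]; exact dvd_zero _
  obtain ⟨C, w, rfl⟩ := IsDiscreteValuationRing.eq_unit_mul_pow_irreducible hc hπ
  rw [pow_dvd_unit_mul hπ]
  by_contra hlt
  have h2' : π ^ (γ + δ) ∣ π ^ γ * (u * π ^ ξ * (a + b) - ρ * (v * π ^ η)) := by
    rw [pow_add]; exact mul_dvd_mul_left _ h2
  have h4' : π ^ (γ + δ) ∣ π ^ β * (π ^ γ * (a + b) - w * π ^ C * (v * π ^ η)) := by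
    have : π ^ β * (π ^ γ * (a + b) - w * π ^ C * (v * π ^ η))
        = π ^ γ * (π ^ β * (a + b) - k * (v * π ^ η)) := by
      linear_combination (-(v * π ^ η)) * h3
    rw [this, pow_add]; exact mul_dvd_mul_left _ h4
  by_cases hcase : C + η < γ
  · have h5 : γ + δ ≤ β + C + η := by
      refine le_of_dvd_add hπ (-(w * v)) (B := π ^ (β + γ) * (a + b)) ?_ (dvd_pow_mul (by omega) _)
      convert h4' using 1
      simp only [pow_add, Units.val_neg, Units.val_mul]; ring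
    have h6 : ξ + C < α := by rw [he] at hlt; unfold eS at hlt; omega
    have h7 : γ + δ ≤ ξ + C + η := by
      refine le_of_dvd_add hπ (-(u * w * v))
        (B := π ^ (γ + ξ) * (u * (a + b)) - π ^ (α + η) * (b * v)) ?_
        (dvd_sub (dvd_pow_mul (by omega) _) (dvd_pow_mul (by omega) _))
      convert h2' using 1
      simp only [pow_add, Units.val_neg, Units.val_mul]
      linear_combination (-(v * π ^ η)) * h1
    rw [he] at hlt; unfold eS at hlt; omega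
  · have h5 : ξ + C < γ := by rw [he] at hlt; unfold eS at hlt; omega
    have h6 : α ≤ ξ + C := by
      refine le_of_dvd_add hπ (-(u * w)) (B := π ^ γ * ρ) ?_ (dvd_pow_mul (by omega) _)
      have : ((-(u * w) : Oˣ) : O) * π ^ (ξ + C) + π ^ γ * ρ = π ^ α * b := by
        simp only [pow_add, Units.val_neg, Units.val_mul]
        linear_combination (-1 : O) * h1
      rw [this]; exact Dvd.intro _ rfl
    have h7 : β + C + η < γ + δ := by rw [he] at hlt; unfold eS at hlt; omega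
    rw [pow_dvd_pow_mul_iff hπ] at h4'
    obtain ⟨τ, hτ⟩ := dvd_trans (pow_dvd_pow π (show C + η + 1 ≤ γ + δ - β by omega)) h4'
    have h8 : γ + δ ≤ ξ + C + η := by
      refine le_of_dvd_add hπ (u * w * v)
        (B := π ^ (ξ + C + η + 1) * (u * τ) - π ^ (γ + η) * (ρ * v)) ?_
        (dvd_sub (dvd_pow_mul le_rfl _) (dvd_pow_mul (by omega) _))
      convert h2' using 1
      simp only [pow_add, Units.val_mul] at hτ ⊢
      linear_combination (-(u * π ^ ξ)) * hτ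
    rw [he] at hlt; unfold eS at hlt; omega

lemma inv_iff (hπ : Irreducible π) {α β γ δ η : ℕ} (x : O) (v : Oˣ) (hη : η ≤ δ) :
    ext π γ (v * π ^ η) (pw π δ) ≤ N1 π α β x (ext π γ (v * π ^ η) (pw π δ)) ↔
      π ^ δ ∣ π ^ β * (π ^ γ + v * π ^ η) ∧ γ ≤ α + η ∧
        π ^ δ ∣ x * (π ^ γ + v * π ^ η) - v * v * π ^ (α + 2 * η - γ) := by
  rw [ext_le_iff, mem_N1 hπ]
  constructor
  · rintro ⟨⟨⟨ρ, h1, h2⟩, h3⟩, -⟩
    have h4 : γ ≤ α + η := by
      rw [← pow_dvd_unit_mul hπ v]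
      exact ⟨ρ, by rw [pow_add]; linear_combination h1⟩
    refine ⟨h3, h4, ?_⟩
    have h5 : ρ = v * π ^ (α + η - γ) := by
      apply mul_right_cancel₀ (pow_ne_zero γ hπ.ne_zero)
      rw [← h1, mul_assoc, ← pow_add, show α + η - γ + γ = α + η by omega, pow_add]; ring
    convert h2 using 2
    rw [h5, show α + 2 * η - γ = α + η - γ + η by omega, pow_add]; ring
  · rintro ⟨h3, h4, h5⟩
    refine ⟨⟨⟨v * π ^ (α + η - γ), ?_, ?_⟩, h3⟩, ?_⟩
    · rw [mul_assoc, ← pow_add, show α + η - γ + γ = α + η by omega, pow_add]; ring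
    · convert h5 using 2
      rw [show α + 2 * η - γ = α + η - γ + η by omega, pow_add]; ring
    · intro w hw
      obtain ⟨c, rfl⟩ := mem_pw.1 hw
      rw [mem_N1 hπ]
      refine ⟨⟨π ^ (α + δ - γ) * c, ?_, ?_⟩, ⟨π ^ β * c, by ring⟩⟩
      · rw [← mul_assoc, ← pow_add, mul_right_comm, ← pow_add]; congr 2; omega
      · apply dvd_sub
        · exact ⟨x * c, by ring⟩
        · have : π ^ (α + δ - γ) * c * (v * π ^ η) = π ^ (α + δ - γ + η) * (c * v) := by
            rw [pow_add]; ring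
          rw [this]; exact dvd_pow_mul (by omega) _

end Pool.Agent.P.MP_512a3e_al
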