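import Pool.Agent.P.MP_512a3e_al.Lattice

/-! Capped valuations and counting residues by valuation. -/

set_option autoImplicit false
set_option linter.unusedSectionVars false

namespace Pool.Agent.P.MP_512a3e_al

open scoped ENNReal
open Classical

variable {O : Type*} [CommRing O] [IsDomain O] [IsDiscreteValuationRing O]

/-- valuation of `x` capped at `k` -/
noncomputable def cv (π : O) (k : ℕ) (x : O) : ℕ := Nat.findGreatest (fun j => π ^ j ∣ x) k

lemma cv_le (π : O) (k : ℕ) (x : O) : cv π k x ≤ k := Nat.findGreatest_le k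

lemma pow_cv_dvd (π : O) (k : ℕ) (x : O) : π ^ cv π k x ∣ x :=
  Nat.findGreatest_spec (P := fun j => π ^ j ∣ x) (Nat.zero_le k) (by simp)

lemma dvd_iff_le_cv {π : O} {k j : ℕ} {x : O} (hj : j ≤ k) : π ^ j ∣ x ↔ j ≤ cv π k x :=
  ⟨fun h => Nat.le_findGreatest (P := fun j => π ^ j ∣ x) hj h,
    fun h => dvd_trans (pow_dvd_pow π h) (pow_cv_dvd π k x)⟩

lemma cv_eq_of {π : O} {k : ℕ} {x y : O} (h : ∀ j ≤ k, π ^ j ∣ x ↔ π ^ j ∣ y) :
    cv π k x = cv π k y := by
  apply le_antisymm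
  · rw [← dvd_iff_le_cv (cv_le π k x), ← h _ (cv_le π k x)]
    exact pow_cv_dvd π k x
  · rw [← dvd_iff_le_cv (cv_le π k y), h _ (cv_le π k y)]
    exact pow_cv_dvd π k y

lemma cv_congr {π : O} {k : ℕ} {x y : O} (h : π ^ k ∣ x - y) : cv π k x = cv π k y := by
  apply cv_eq_of
  intro j hj
  have h' : π ^ j ∣ x - y := dvd_trans (pow_dvd_pow π hj) h
  exact ⟨fun hx => by simpa using dvd_sub hx h', fun hy => by simpa using dvd_add hy h'⟩

lemma pow_dvd_unit_mul {π : O} (hπ : Irreducible π) (u : Oˣ) (j n : ℕ) :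
    π ^ j ∣ u * π ^ n ↔ j ≤ n := by
  rw [Units.dvd_mul_left, pow_dvd_pow_iff hπ.ne_zero hπ.not_isUnit]

lemma cv_unit_mul {π : O} (hπ : Irreducible π) (u : Oˣ) {k n : ℕ} (h : n ≤ k) :
    cv π k (u * π ^ n) = n := by
  apply le_antisymm
  · rw [← pow_dvd_unit_mul hπ u]
    exact pow_cv_dvd π k _
  · rw [← dvd_iff_le_cv h, pow_dvd_unit_mul hπ]

lemma exists_norm {π : O} (hπ : Irreducible π) (k : ℕ) (x : O) :
    ∃ u : Oˣ, π ^ k ∣ x - u * π ^ cv π k x := by
  by_cases h : π ^ k ∣ x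
  · have : cv π k x = k := le_antisymm (cv_le _ _ _) ((dvd_iff_le_cv le_rfl).1 h)
    exact ⟨1, by rw [this]; exact dvd_sub h (by simp)⟩
  · have hx : x ≠ 0 := by rintro rfl; exact h (dvd_zero _)
    obtain ⟨n, u, rfl⟩ := IsDiscreteValuationRing.eq_unit_mul_pow_irreducible hx hπ
    rw [pow_dvd_unit_mul hπ] at h
    exact ⟨u, by rw [cv_unit_mul hπ u (by omega)]; simp⟩

variable {π : O} {q : ℕ}

lemma ridx_pw (hπ : Irreducible π) (hq : idx (pw π 1) = q) (hq0 : q ≠ 0) {j k : ℕ} (h : j ≤ k) :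
    ridx (pw π k) (pw π j) = q ^ (k - j) := by
  have hle : pw π k ≤ pw π j := fun a ha => mem_pw.2 (dvd_trans (pow_dvd_pow π h) (mem_pw.1 ha))
  have := ridx_mul_idx hle
  rw [idx_pw hπ.ne_zero hq, idx_pw hπ.ne_zero hq] at this
  apply mul_right_cancel₀ (pow_ne_zero j hq0)
  rw [this, ← pow_add]; congr 1; omega

lemma count_dvd (hπ : Irreducible π) (hq : idx (pw π 1) = q) (hq0 : q ≠ 0) {j k : ℕ} (h : j ≤ k)
    (z : O) : S (pw π k) (fun x => if π ^ j ∣ x - z then 1 else 0) = (q : ℝ≥0∞) ^ (k - j) := by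
  have hle : pw π k ≤ pw π j := fun a ha => mem_pw.2 (dvd_trans (pow_dvd_pow π h) (mem_pw.1 ha))
  have := S_coset hle (by rw [ridx_pw hπ hq hq0 h]; positivity) z
  rw [ridx_pw hπ hq hq0 h] at this
  simp only [mem_pw] at this
  convert this using 1
  simp

lemma count_cv (hπ : Irreducible π) (hq : idx (pw π 1) = q) (hq0 : q ≠ 0) {j k : ℕ} (h : j < k)
    (z : O) : S (pw π k) (fun x => if cv π k (x - z) = j then 1 else 0)
      = ((q - 1 : ℕ) : ℝ≥0∞) * (q : ℝ≥0∞) ^ (k - j - 1) := by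
  have h1 := count_dvd hπ hq hq0 h.le z
  have h2 := count_dvd hπ hq hq0 (show j + 1 ≤ k from h) z
  have h3 : S (pw π k) (fun x => if π ^ j ∣ x - z then 1 else 0)
      = S (pw π k) (fun x => if cv π k (x - z) = j then 1 else 0)
        + S (pw π k) (fun x => if π ^ (j + 1) ∣ x - z then 1 else 0) := by
    rw [← S_add]
    apply S_congr
    intro x
    simp only [dvd_iff_le_cv h.le, dvd_iff_le_cv (show j + 1 ≤ k from h)]
    split_ifs <;> first | omega | simp
  rw [h1, h2] at h3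
  have h4 : (q : ℝ≥0∞) ^ (k - j) = ((q - 1 : ℕ) : ℝ≥0∞) * (q : ℝ≥0∞) ^ (k - j - 1)
      + (q : ℝ≥0∞) ^ (k - (j + 1)) := by
    obtain ⟨r, rfl⟩ := Nat.exists_eq_succ_of_ne_zero hq0
    obtain ⟨m, hm⟩ : ∃ m, k - j = m + 1 := ⟨k - j - 1, by omega⟩
    have : k - (j + 1) = m := by omega
    rw [this, hm]
    simp only [Nat.succ_eq_add_one, Nat.add_sub_cancel]
    push_cast
    ring
  rw [h4] at h3
  exact ((ENNReal.add_left_inj (ENNReal.pow_ne_top (ENNReal.natCast_ne_top q))).1 h3).symm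

lemma S_cv (hπ : Irreducible π) (hq : idx (pw π 1) = q) (hq0 : q ≠ 0) (k : ℕ) (z : O)
    (H : ℕ → ℝ≥0∞) :
    S (pw π k) (fun x => H (cv π k (x - z)))
      = (∑' j, if j < k then ((q - 1 : ℕ) : ℝ≥0∞) * (q : ℝ≥0∞) ^ (k - j - 1) * H j else 0)
        + H k := by
  have h1 : ∀ x, H (cv π k (x - z)) = ∑' j, (if cv π k (x - z) = j then 1 else 0) * H j := by
    intro x
    rw [tsum_eq_single (cv π k (x - z))]
    · simp
    · intro j hj
      simp [hj.symm]
  rw [S_congr h1, ← S_tsum]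
  have h2 : H k = ∑' j, if j = k then H k else 0 := by simp
  rw [h2, ← ENNReal.tsum_add]
  refine tsum_congr fun j => ?_
  rw [S_mul_right]
  rcases lt_trichotomy j k with h | h | h
  · rw [count_cv hπ hq hq0 h, if_pos h, if_neg h.ne, add_zero]
  · subst h
    have := count_dvd hπ hq hq0 (le_refl j) z
    simp only [Nat.sub_self, pow_zero] at this
    have h3 : S (pw π j) (fun x => if cv π j (x - z) = j then 1 else 0) = 1 := by
      refine Eq.trans ?_ this
      apply S_congr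
      intro x
      have := cv_le π j (x - z)
      simp only [dvd_iff_le_cv (le_refl j)]
      split_ifs <;> first | omega | rfl
    simp [h3]
  · have h3 : S (pw π k) (fun x => if cv π k (x - z) = j then 1 else 0) = 0 := by
      refine Eq.trans ?_ (S_zero (pw π k))
      apply S_congr
      intro x
      have := cv_le π k (x - z)
      rw [if_neg (by omega)]
    rw [h3, if_neg (by omega), if_neg (by omega)]
    simp

lemma cv_add_facts (hπ : Irreducible π) {γ δ : ℕ} (h : γ < δ) (y : O) :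
    (cv π δ y < γ → cv π δ (π ^ γ + y) = cv π δ y) ∧
    (γ < cv π δ y → cv π δ (π ^ γ + y) = γ) ∧
    (γ ≤ cv π δ y → γ ≤ cv π δ (π ^ γ + y)) ∧
    (γ < cv π δ (π ^ γ + y) → cv π δ y = γ) := by
  have key : ∀ j ≤ γ, (j ≤ cv π δ (π ^ γ + y) ↔ j ≤ cv π δ y) := by
    intro j hj
    rw [← dvd_iff_le_cv (by omega), ← dvd_iff_le_cv (by omega)]
    exact dvd_add_right (pow_dvd_pow π hj)
  have key2 : ¬ (γ + 1 ≤ cv π δ (π ^ γ + y) ∧ γ + 1 ≤ cv π δ y) := by
    rintro ⟨h1, h2⟩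
    rw [← dvd_iff_le_cv (by omega)] at h1 h2
    have := dvd_sub h1 h2
    rw [add_sub_cancel_right, pow_dvd_pow_iff hπ.ne_zero hπ.not_isUnit] at this
    omega
  have k1 := key γ le_rfl
  refine ⟨fun h1 => ?_, fun h1 => by omega, fun h1 => k1.2 h1, fun h1 => by omega⟩
  have k2 := key (cv π δ y) h1.le
  have k3 := key (cv π δ y + 1) h1
  omega

lemma S_y (hπ : Irreducible π) (hq : idx (pw π 1) = q) (hq2 : 2 ≤ q) (γ δ : ℕ)
    (H : ℕ → ℕ → ℝ≥0∞) :
    S (pw π δ) (fun y => H (cv π δ y) (cv π δ (π ^ γ + y)))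
      = (∑' j, if j < γ ∧ j < δ then
            ((q - 1 : ℕ) : ℝ≥0∞) * (q : ℝ≥0∞) ^ (δ - j - 1) * H j j else 0)
        + (if δ ≤ γ then H δ δ else 0)
        + (∑' j, if γ < j ∧ j < δ then
            ((q - 1 : ℕ) : ℝ≥0∞) * (q : ℝ≥0∞) ^ (δ - j - 1) * H j γ else 0)
        + (if γ < δ then H δ γ else 0)
        + (if γ < δ then ((q - 2 : ℕ) : ℝ≥0∞) * (q : ℝ≥0∞) ^ (δ - γ - 1) * H γ γ else 0)
        + (∑' j, if γ < j ∧ j < δ then
            ((q - 1 : ℕ) : ℝ≥0∞) * (q : ℝ≥0∞) ^ (δ - j - 1) * H γ j else 0)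
        + (if γ < δ then H γ δ else 0) := by
  have hq0 : q ≠ 0 := by omega
  by_cases h : γ < δ
  · have hpt : ∀ y, H (cv π δ y) (cv π δ (π ^ γ + y))
        = (fun j => if j < γ then H j j else 0) (cv π δ (y - 0))
          + (fun j => if γ < j then H j γ else 0) (cv π δ (y - 0))
          + (if cv π δ y = γ ∧ cv π δ (π ^ γ + y) = γ then 1 else 0) * H γ γ
          + (fun j => if γ < j then H γ j else 0) (cv π δ (y - (-π ^ γ))) := by
      intro y
      obtain ⟨f1, f2, f3, f4⟩ := cv_add_facts hπ h y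
      have e1 : y - (-π ^ γ) = π ^ γ + y := by ring
      simp only [sub_zero, e1]
      generalize cv π δ (π ^ γ + y) = b at *
      generalize cv π δ y = a at *
      rcases lt_trichotomy a γ with h1 | h1 | h1
      · obtain rfl := f1 h1
        rw [if_pos h1, if_neg (by omega), if_neg (by omega), if_neg (by omega)]; simp
      · subst h1
        rcases (f3 le_rfl).eq_or_lt with h2 | h2
        · subst h2; simp
        · simp [h2, h2.ne']
      · obtain rfl := f2 h1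
        rw [if_neg (by omega), if_pos h1, if_neg (by omega), if_neg (by omega)]; simp
    have hD : S (pw π δ) (fun y => if cv π δ y = γ ∧ cv π δ (π ^ γ + y) = γ then 1 else 0)
        = ((q - 2 : ℕ) : ℝ≥0∞) * (q : ℝ≥0∞) ^ (δ - γ - 1) := by
      have h1 := count_dvd hπ hq hq0 h.le 0
      have h2 := count_dvd hπ hq hq0 (show γ + 1 ≤ δ from h) 0
      have h2' := count_dvd hπ hq hq0 (show γ + 1 ≤ δ from h) (-π ^ γ)
      have h3 : S (pw π δ) (fun x => if π ^ γ ∣ x - 0 then 1 else 0)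
          = S (pw π δ) (fun y => if cv π δ y = γ ∧ cv π δ (π ^ γ + y) = γ then 1 else 0)
            + (S (pw π δ) (fun x => if π ^ (γ + 1) ∣ x - 0 then 1 else 0)
              + S (pw π δ) (fun x => if π ^ (γ + 1) ∣ x - (-π ^ γ) then 1 else 0)) := by
        rw [← S_add, ← S_add]
        apply S_congr
        intro y
        obtain ⟨f1, f2, f3, f4⟩ := cv_add_facts hπ h y
        have e1 : y - (-π ^ γ) = π ^ γ + y := by ring
        simp only [sub_zero, e1, dvd_iff_le_cv h.le, dvd_iff_le_cv (show γ + 1 ≤ δ from h)]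
        split_ifs <;> first | omega | simp
      rw [h1, h2, h2'] at h3
      have h4 : (q : ℝ≥0∞) ^ (δ - γ) = ((q - 2 : ℕ) : ℝ≥0∞) * (q : ℝ≥0∞) ^ (δ - γ - 1)
          + ((q : ℝ≥0∞) ^ (δ - (γ + 1)) + (q : ℝ≥0∞) ^ (δ - (γ + 1))) := by
        obtain ⟨r, rfl⟩ := Nat.exists_eq_add_of_le' hq2
        obtain ⟨m, hm⟩ : ∃ m, δ - γ = m + 1 := ⟨δ - γ - 1, by omega⟩
        have : δ - (γ + 1) = m := by omega
        rw [this, hm]
        simp only [Nat.add_sub_cancel]
        push_cast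
        ring
      rw [h4] at h3
      have hne : (q : ℝ≥0∞) ^ (δ - (γ + 1)) ≠ ⊤ := ENNReal.pow_ne_top (ENNReal.natCast_ne_top q)
      exact ((ENNReal.add_left_inj (ENNReal.add_ne_top.2 ⟨hne, hne⟩)).1 h3).symm
    rw [S_congr hpt, S_add, S_add, S_add, S_mul_right, hD,
      S_cv hπ hq hq0 δ 0 (fun j => if j < γ then H j j else 0),
      S_cv hπ hq hq0 δ 0 (fun j => if γ < j then H j γ else 0),
      S_cv hπ hq hq0 δ (-π ^ γ) (fun j => if γ < j then H γ j else 0)]
    have e1 : ∀ j, (if j < δ then ((q - 1 : ℕ) : ℝ≥0∞) * (q : ℝ≥0∞) ^ (δ - j - 1) *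
        (if j < γ then H j j else 0) else 0) = if j < γ ∧ j < δ then
            ((q - 1 : ℕ) : ℝ≥0∞) * (q : ℝ≥0∞) ^ (δ - j - 1) * H j j else 0 := by
      intro j; split_ifs <;> first | omega | simp
    have e2 : ∀ (K : ℕ → ℝ≥0∞) j, (if j < δ then ((q - 1 : ℕ) : ℝ≥0∞) * (q : ℝ≥0∞) ^ (δ - j - 1) *
        (if γ < j then K j else 0) else 0) = if γ < j ∧ j < δ then
            ((q - 1 : ℕ) : ℝ≥0∞) * (q : ℝ≥0∞) ^ (δ - j - 1) * K j else 0 := by
      intro K j; split_ifs <;> first | omega | simp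
    simp only [e1, e2 (fun j => H j γ), e2 (fun j => H γ j), if_pos h, if_neg h.not_gt,
      if_neg (not_le.2 h)]
    ring
  · have hpt : ∀ y, H (cv π δ y) (cv π δ (π ^ γ + y)) = (fun j => H j j) (cv π δ (y - 0)) := by
      intro y
      have : cv π δ (π ^ γ + y) = cv π δ y := cv_congr (by simpa using pow_dvd_pow π (not_lt.1 h))
      simp [this]
    rw [S_congr hpt, S_cv hπ hq hq0 δ 0 (fun j => H j j)]
    have e1 : ∀ j, (j < γ ∧ j < δ) = (j < δ) := by intro j; apply propext; omega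
    have e2 : ∀ j, (γ < j ∧ j < δ) = False := by intro j; apply eq_false; omega
    simp only [e1, e2, if_neg h, if_pos (not_lt.1 h), if_false, tsum_zero, add_zero]

end Pool.Agent.P.MP_512a3e_al
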